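import Mathlib
import Pool.Agent.H94.NC.MCtx
import Pool.Agent.H15.NC.Chase
import Pool.Agent.H15.NC.HCQI
import Pool.Agent.H15.NC.TensQ

/-!
# AlgQI : quasi-isomorphisms of dg algebras induce quasi-isomorphisms of Hochschild complexes

(no units needed)  Proof: length filtration of the words; the graded pieces of `Wd.map f f` are
`f ⊗ f ⊗ ... ⊗ f`, quasi-isomorphisms by the Künneth formula (`Hom.QI.tensL`, `Hom.QI.tensR` in
H15/NC/TensQ.lean); `SD.Hom.QI.of_union` (H15/NC/Chase.lean).
-/

set_option autoImplicit false

open scoped TensorProduct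

noncomputable section

namespace NC

variable {k : Type} [Field k] {A B : DGA k}

theorem hcA_qi_of_qi (f : DGA.NHom A B) (hf : f.toHom.QI) : (hcA f).QI := by
  sorry

end NC
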