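import Mathlib
import Pool.Agent.H94.NC.CycStr
import Pool.Agent.H94.NC.CycDim
import Pool.Agent.H94.NC.GrTot
import Pool.Agent.H94.NC.Bridge

/-!
# NEnd : natural families of endomorphisms of cyclic homology

`NEnd A`: a family of endomorphisms of `HH_m(A)`, of the total Hochschild homology and of the
homology of all windows, compatible with all natural maps.  The endomorphism `g⁻¹ f` given by two
morphisms `f g : A → E`, `g` a quasi-isomorphism, is natural, and natural families can be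
composed.
-/

set_option autoImplicit false

noncomputable section

namespace NC

variable {k : Type} [Field k]

namespace CycMod

/-- the windows which are used -/
structure Win (I : Set ℤ) : Prop where
  sat : Sat I
  conn : I.OrdConnected

theorem win_univ : Win Set.univ := ⟨univ_sat, Set.ordConnected_univ⟩
theorem win_Ici : Win (Set.Ici 0) := ⟨Ici_sat, Set.ordConnected_Ici⟩
theorem win_Ici2 : Win (Set.Ici 2) := ⟨Ici2_sat, Set.ordConnected_Ici⟩
theorem win_Iio : Win (Set.Iio 0) := ⟨Iio_sat, Set.ordConnected_Iio⟩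

/-- natural families of endomorphisms -/
structure NEnd (A : CycMod k) where
  hh : ∀ m, A.HH m →ₗ[k] A.HH m
  ht : A.HT →ₗ[k] A.HT
  e : ∀ (I : Set ℤ) (m : ℤ), A.H I m →ₗ[k] A.H I m
  hinc : ∀ m x, ht (A.hinc m x) = A.hinc m (hh m x)
  toBlk : ∀ m x, e (blk 0) m (A.toBlk m x) = A.toBlk m (hh m x)
  inc : ∀ {J K I : Set ℤ} (h : Adj J K I), Win J → Win K → Win I → ∀ m x,
    e I m (h.inc A m x) = h.inc A m (e J m x)
  pr : ∀ {J K I : Set ℤ} (h : Adj J K I), Win J → Win K → Win I → ∀ m x,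
    e K m (h.pr A m x) = h.pr A m (e I m x)
  del : ∀ {J K I : Set ℤ} (h : Adj J K I), Win J → Win K → Win I → ∀ m x,
    e J (m - 1) (h.del A m x) = h.del A m (e K m x)
  sh : ∀ (I I' : Set ℤ) (m n j : ℤ) (hI : I' = shS I j) (hn : n = m - 2 * j),
    Win I → Win I' → ∀ x, e I' n (A.sh I I' m n j hI hn x) = A.sh I I' m n j hI hn (e I m x)

/-- composition -/
def NEnd.comp {A : CycMod k} (S T : NEnd A) : NEnd A where
  hh := fun m => S.hh m ∘ₗ T.hh m
  ht := S.ht ∘ₗ T.ht
  e := fun I m => S.e I m ∘ₗ T.e I m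
  hinc := fun m x => by
    rw [LinearMap.comp_apply, LinearMap.comp_apply, T.hinc, S.hinc]
  toBlk := fun m x => by
    rw [LinearMap.comp_apply, LinearMap.comp_apply, T.toBlk, S.toBlk]
  inc := fun h h1 h2 h3 m x => by
    rw [LinearMap.comp_apply, LinearMap.comp_apply, T.inc h h1 h2 h3, S.inc h h1 h2 h3]
  pr := fun h h1 h2 h3 m x => by
    rw [LinearMap.comp_apply, LinearMap.comp_apply, T.pr h h1 h2 h3, S.pr h h1 h2 h3]
  del := fun h h1 h2 h3 m x => by
    rw [LinearMap.comp_apply, LinearMap.comp_apply, T.del h h1 h2 h3, S.del h h1 h2 h3]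
  sh := fun I I' m n j hI hn h1 h2 x => by
    rw [LinearMap.comp_apply, LinearMap.comp_apply, T.sh I I' m n j hI hn h1 h2,
      S.sh I I' m n j hI hn h1 h2]

section

variable {A E : CycMod k} (hA : A.Bex) (hE : E.Bex) (hi : DirectSum.IsInternal A.gr)
  (hi' : DirectSum.IsInternal E.gr) (f g : Hom A E) (hg : Function.Bijective g.HT)

include hi hi' hg in
theorem hh_bij_of (m : ℤ) : Function.Bijective (g.HH m) := HH_bij hi hi' g hg m

include hA hE hi hi' hg in
theorem win_bij' {I : Set ℤ} (hI : Win I) (m : ℤ) : Function.Bijective (g.H I m) :=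
  win_bij hA hE g (hh_bij_of hi hi' g hg) hI.sat hI.conn m

open Classical in
/-- the natural family `g⁻¹ f` -/
def NEnd.zz : NEnd A where
  hh := fun m => NC.zz (f.HH m) (g.HH m) (hh_bij_of hi hi' g hg m)
  ht := NC.zz f.HT g.HT hg
  e := fun I m => if h : Function.Bijective (g.H I m) then NC.zz (f.H I m) (g.H I m) h else 0
  hinc := fun m x => (zz_nat _ _ _ _ _ _ (A.hinc m) (E.hinc m)
    (fun y => (hinc_nat f m y).symm) (fun y => (hinc_nat g m y).symm) x).symm
  toBlk := fun m x => by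
    have h1 : Function.Bijective (g.H (blk 0) m) :=
      blk_bij hA hE g (hh_bij_of hi hi' g hg) m
    rw [dif_pos h1]
    exact (zz_nat _ _ _ _ _ _ (A.toBlk m) (E.toBlk m) (fun y => (toBlk_nat f m y).symm)
        (fun y => (toBlk_nat g m y).symm) x).symm
  inc := fun h hJ hK hI m x => by
    rw [dif_pos (win_bij' hA hE hi hi' g hg hJ m), dif_pos (win_bij' hA hE hi hi' g hg hI m)]
    exact (zz_nat _ _ _ _ _ _ (h.inc A m) (h.inc E m) (fun y => (h.inc_nat f m y).symm)
      (fun y => (h.inc_nat g m y).symm) x).symm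
  pr := fun h hJ hK hI m x => by
    rw [dif_pos (win_bij' hA hE hi hi' g hg hK m), dif_pos (win_bij' hA hE hi hi' g hg hI m)]
    exact (zz_nat _ _ _ _ _ _ (h.pr A m) (h.pr E m) (fun y => (h.pr_nat f m y).symm)
      (fun y => (h.pr_nat g m y).symm) x).symm
  del := fun h hJ hK hI m x => by
    rw [dif_pos (win_bij' hA hE hi hi' g hg hK m),
      dif_pos (win_bij' hA hE hi hi' g hg hJ (m - 1))]
    exact (zz_nat _ _ _ _ _ _ (h.del A m) (h.del E m) (fun y => (h.del_nat f m y).symm)
      (fun y => (h.del_nat g m y).symm) x).symm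
  sh := fun I I' m n j hI hn h1 h2 x => by
    rw [dif_pos (win_bij' hA hE hi hi' g hg h1 m), dif_pos (win_bij' hA hE hi hi' g hg h2 n)]
    exact (zz_nat _ _ _ _ _ _ (A.sh I I' m n j hI hn) (E.sh I I' m n j hI hn)
      (fun y => (sh_nat f _ _ _ _ _ _ _ y).symm) (fun y => (sh_nat g _ _ _ _ _ _ _ y).symm)
      x).symm

theorem NEnd.zz_hh (m : ℤ) (x : A.HH m) :
    g.HH m ((NEnd.zz hA hE hi hi' f g hg).hh m x) = f.HH m x := zz_spec _ _ _ x

theorem NEnd.zz_ht (x : A.HT) : g.HT ((NEnd.zz hA hE hi hi' f g hg).ht x) = f.HT x :=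
  zz_spec _ _ _ x

open Classical in
theorem NEnd.zz_e {I : Set ℤ} (hI : Win I) (m : ℤ) (x : A.H I m) :
    g.H I m ((NEnd.zz hA hE hi hi' f g hg).e I m x) = f.H I m x := by
  change g.H I m ((if h : Function.Bijective (g.H I m) then NC.zz (f.H I m) (g.H I m) h
    else 0) x) = f.H I m x
  rw [dif_pos (win_bij' hA hE hi hi' g hg hI m)]
  exact zz_spec _ _ _ x

end

end CycMod

end NC
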