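import Mathlib
import Pool.Agent.H94.NT.NEnd

/-!
# NEndS : the supertrace of a natural family

Copies of `str_HP` (H94/NC/CycStr.lean) and `str_HT` (H94/NC/GrTot.lean): these proofs use only
the naturality of `tB, tC, tR, tP` (`zz_nat`), which is now given by the fields `toBlk`, `inc`,
`pr`, `del`, `sh` of `T : NEnd A` (`tB m = T.e (blk 0) m`, `tC m = T.e (Ici 0) m`,
`tR m = T.e (Ici 2) m`, `tP m = T.e univ m`; the windows satisfy `Win`: `blk 0` too, prove
`Win (blk 0)` from the lemmas in CycIso/CycMap), and `hinc`.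
-/

set_option autoImplicit false

noncomputable section

namespace NC

namespace CycMod

variable {k : Type} [Field k] {A : CycMod k}


private theorem win_blk0 : Win (blk 0) where
  sat := by
    intro j p hp hp' q hq
    rw [mem_blk] at hp hq hp' ⊢
    omega
  conn := by
    refine ⟨fun x hx y hy z hz => ?_⟩
    rw [mem_blk] at hx hy ⊢
    have h1 := hz.1
    have h2 := hz.2
    omega

/-- **the supertrace on `HP` is the supertrace on `HH`** -/
theorem NEnd.str_hh (hA : A.Bex) (T' : NEnd A) (lo : ℤ) (N : ℕ)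
    (hlo : ∀ m, m < lo → ∀ x : A.HH m, x = 0) (hhi : ∀ m, lo + N ≤ m → ∀ x : A.HH m, x = 0)
    (hfd : ∀ m, FiniteDimensional k (A.HH m)) :
    (∀ m, FiniteDimensional k (A.HP m)) ∧
    LinearMap.trace k _ (T'.e Set.univ 0) - LinearMap.trace k _ (T'.e Set.univ 1)
      = ∑ i ∈ Finset.range N, sn k (lo + i) * LinearMap.trace k _ (T'.hh (lo + i)) := by
  let T := fun m => T'.hh m
  let tB := fun m => T'.e (blk 0) m
  let tC := fun m => T'.e (Set.Ici 0) m
  let tR := fun m => T'.e (Set.Ici 2) m
  let tP := fun m => T'.e Set.univ m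
  have hinc : ∀ m x, adjC.inc A m (tB m x) = tC m (adjC.inc A m x) := fun m x =>
    (T'.inc adjC win_blk0 win_Ici2 win_Ici m x).symm
  have hpr : ∀ m x, adjC.pr A m (tC m x) = tR m (adjC.pr A m x) := fun m x =>
    (T'.pr adjC win_blk0 win_Ici2 win_Ici m x).symm
  have hdel : ∀ m x, adjC.del A m (tR m x) = tB (m - 1) (adjC.del A m x) := fun m x =>
    (T'.del adjC win_blk0 win_Ici2 win_Ici m x).symm
  -- blocks
  have hBfd : ∀ m, FiniteDimensional k (A.H (blk 0) m) := fun m =>
    have := hfd m
    FiniteDimensional.of_surjective (A.toBlk m) (A.toBlk_bij hA m).2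
  have hBtr : ∀ m, LinearMap.trace k _ (T m) = LinearMap.trace k _ (tB m) := fun m =>
    trace_eq_of_bij (A.toBlk m) (A.toBlk_bij hA m) _ _ (fun x => (T'.toBlk m x).symm)
  -- shift
  have hsh : ∀ m, Function.Bijective (A.sh (Set.Ici 2) (Set.Ici 0) m (m - 2) 1 shS_Ici (by ring)) :=
    fun m => A.sh_bij _ _ _ _ _ _ _
  have hRtr : ∀ m, LinearMap.trace k _ (tR m) = LinearMap.trace k _ (tC (m - 2)) := fun m =>
    trace_eq_of_bij _ (hsh m) _ _ (fun x => (T'.sh _ _ _ _ _ _ _ win_Ici2 win_Ici x).symm)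
  -- finite dimension of HC
  have hCfd' : ∀ n : ℕ, ∀ m, m < lo + n → FiniteDimensional k (A.H (Set.Ici 0) m) := by
    intro n
    induction n with
    | zero =>
      intro m hm
      have : Subsingleton (A.H (Set.Ici 0) m) :=
        ⟨fun x y => by rw [A.HC_zero hA hlo (by simpa using hm) x,
          A.HC_zero hA hlo (by simpa using hm) y]⟩
      infer_instance
    | succ n ih =>
      intro m hm
      have h1 := ih (m - 2) (by push_cast at hm; omega)
      have h2 : FiniteDimensional k (A.H (Set.Ici 2) m) :=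
        FiniteDimensional.of_injective _ (hsh m).1
      have h3 := hBfd m
      have hI : FiniteDimensional k (LinearMap.range (adjC.inc A m)) := inferInstance
      have hQ : FiniteDimensional k (LinearMap.range (adjC.pr A m)) := inferInstance
      have hK : LinearMap.ker (adjC.pr A m) = LinearMap.range (adjC.inc A m) := by
        ext x
        constructor
        · intro hx
          exact adjC.exact_mid A m x hx
        · rintro ⟨y, rfl⟩
          exact adjC.pr_inc A m y
      have hKfd : FiniteDimensional k (LinearMap.ker (adjC.pr A m)) := by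
        rw [hK]
        exact hI
      have hq : Module.Finite k (A.H (Set.Ici 0) m ⧸ LinearMap.ker (adjC.pr A m)) :=
        Module.Finite.equiv (adjC.pr A m).quotKerEquivRange.symm
      exact Module.Finite.of_submodule_quotient (LinearMap.ker (adjC.pr A m))
  have hCfd : ∀ m, FiniteDimensional k (A.H (Set.Ici 0) m) := fun m =>
    hCfd' (m - lo + 1).toNat m (by have := Int.self_le_toNat (m - lo + 1); omega)
  have hRfd : ∀ m, FiniteDimensional k (A.H (Set.Ici 2) m) := fun m =>
    have := hCfd (m - 2)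
    FiniteDimensional.of_injective _ (hsh m).1
  -- the alternating sum
  let a : ℤ → k := fun m => LinearMap.trace k _ (kerEnd (adjC.inc A m) (tB m) (tC m) (hinc m))
  have hrel : ∀ m, LinearMap.trace k _ (T m) + LinearMap.trace k _ (tC (m - 2))
      = LinearMap.trace k _ (tC m) + a m + a (m - 1) := by
    intro m
    have := hBfd m
    have := hCfd m
    have := hRfd m
    rw [hBtr, ← hRtr]
    refine trace_five (adjC.inc A m) (adjC.pr A m) (adjC.del A m) (adjC.inc A (m - 1)) ?_ ?_ ?_
      (tB m) (tC m) (tR m) (tB (m - 1)) (tC (m - 1)) (hinc m) (hpr m) (hdel m) (hinc (m - 1))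
    · ext x
      constructor
      · rintro ⟨y, rfl⟩
        exact adjC.pr_inc A m y
      · intro hx
        exact adjC.exact_mid A m x hx
    · ext x
      constructor
      · rintro ⟨y, rfl⟩
        exact adjC.del_pr A m y
      · intro hx
        exact adjC.exact_right A m x hx
    · ext x
      constructor
      · rintro ⟨y, rfl⟩
        exact adjC.inc_del A m y
      · intro hx
        exact adjC.exact_left A m x hx
  have htr0 : ∀ (V : Type) [AddCommGroup V] [Module k V] (b : V →ₗ[k] V), (∀ x : V, x = 0) →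
      LinearMap.trace k V b = 0 := by
    intro V _ _ b hV
    have : b = 0 := by
      ext x
      rw [hV (b x)]
      rfl
    rw [this, map_zero]
  have ht : ∀ m, m < lo → LinearMap.trace k _ (tC m) = 0 := fun m hm =>
    htr0 _ _ (fun x => A.HC_zero hA hlo hm x)
  have hB0 : ∀ m, (∀ x : A.HH m, x = 0) → ∀ x : A.H (blk 0) m, x = 0 := fun m h x => by
    obtain ⟨y, rfl⟩ := (A.toBlk_bij hA m).2 x
    rw [h y, map_zero]
  have ha : ∀ m, (∀ x : A.HH m, x = 0) → a m = 0 := fun m h =>
    htr0 _ _ (fun x => Subtype.ext (hB0 m h x.1))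
  have hh0 : ∀ m, (∀ x : A.HH m, x = 0) → LinearMap.trace k _ (T m) = 0 := fun m h => htr0 _ _ h
  have hsum := alt_sum (fun m => LinearMap.trace k _ (T m)) (fun m => LinearMap.trace k _ (tC m))
    a lo hrel ht (fun m hm => ha m (hlo m hm))
  -- the periodic side
  have hPP : ∀ m j, LinearMap.trace k _ (tP m) = LinearMap.trace k _ (tP (m - 2 * j)) := fun m j =>
    trace_eq_of_bij _ (A.sh_bij Set.univ Set.univ m (m - 2 * j) j (shS_univ j) rfl) _ _ (fun x =>
      (T'.sh _ _ _ _ _ _ _ win_univ win_univ x).symm)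
  have hhi' : ∀ n, lo + N - 1 < n → ∀ x : A.HH n, x = 0 := fun n hn => hhi n (by omega)
  have hPC : ∀ m, lo + N - 1 ≤ m → LinearMap.trace k _ (tP m) = LinearMap.trace k _ (tC m) :=
    fun m hm => trace_eq_of_bij _ (A.HP_HC hA hhi' hm) _ _ (fun x =>
      (T'.pr adjP win_Iio win_Ici win_univ m x).symm)
  have hPfd : ∀ m, FiniteDimensional k (A.HP m) := by
    intro m
    obtain ⟨j, hj⟩ : ∃ j : ℤ, lo + N - 1 ≤ m - 2 * j := ⟨-|lo + N - 1 - m|, by
      have := le_abs_self (lo + N - 1 - m)
      have := abs_nonneg (lo + N - 1 - m)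
      omega⟩
    have h1 := hCfd (m - 2 * j)
    have h2 : FiniteDimensional k (A.HP (m - 2 * j)) :=
      FiniteDimensional.of_injective _ (A.HP_HC hA hhi' hj).1
    exact FiniteDimensional.of_injective _
      (A.sh_bij Set.univ Set.univ m (m - 2 * j) j (shS_univ j) rfl).1
  refine ⟨hPfd, ?_⟩
  change LinearMap.trace k _ (tP 0) - LinearMap.trace k _ (tP 1)
      = ∑ i ∈ Finset.range N, sn k (lo + i) * LinearMap.trace k _ (T (lo + i))
  -- choose a large even degree `M = lo + n - 2`
  obtain ⟨n, hn1, hn2⟩ : ∃ n : ℕ, N + 2 ≤ n ∧ Even (lo + n) := by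
    rcases Int.even_or_odd (lo + (N + 2 : ℕ)) with h | h
    · exact ⟨N + 2, le_refl _, h⟩
    · refine ⟨N + 3, by omega, ?_⟩
      have := h.add_one
      rwa [show lo + ((N + 2 : ℕ) : ℤ) + 1 = lo + ((N + 3 : ℕ) : ℤ) by push_cast; ring] at this
  obtain ⟨q, hq⟩ := hn2
  have e0 : LinearMap.trace k _ (tP 0) = LinearMap.trace k _ (tC (lo + n - 2)) := by
    have h1 := hPP (lo + n - 2) (q - 1)
    rw [show lo + n - 2 - 2 * (q - 1) = 0 by omega] at h1
    rw [← h1, hPC _ (by omega)]
  have e1 : LinearMap.trace k _ (tP 1) = LinearMap.trace k _ (tC (lo + n - 1)) := by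
    have h1 := hPP (lo + n - 1) (q - 1)
    rw [show lo + n - 1 - 2 * (q - 1) = 1 by omega] at h1
    rw [← h1, hPC _ (by omega)]
  have hs := hsum n
  have hodd : ¬ Even (lo + n - 1) := by
    rw [hq, Int.not_even_iff_odd]
    exact ⟨q - 1, by ring⟩
  have hsn : sn k (lo + n - 1) = -1 := by simp [sn, hodd]
  rw [ha (lo + n - 1) (hhi _ (by omega)), hsn] at hs
  rw [e0, e1]
  have hsplit : ∑ i ∈ Finset.range n, sn k (lo + i) * LinearMap.trace k _ (T (lo + i))
      = ∑ i ∈ Finset.range N, sn k (lo + i) * LinearMap.trace k _ (T (lo + i)) := by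
    symm
    apply Finset.sum_subset
    · intro i hi
      rw [Finset.mem_range] at hi ⊢
      omega
    · intro i _ hi
      rw [Finset.mem_range, not_lt] at hi
      rw [hh0 _ (hhi _ (by omega)), mul_zero]
  rw [← hsplit, hs]
  ring


/-- the supertrace on the total Hochschild homology -/
theorem NEnd.str_ht (hA : DirectSum.IsInternal A.gr) (T' : NEnd A) [FiniteDimensional k A.HT]
    (E : A.HT →ₗ[k] A.HT) (hE : ∀ m x, E (A.hinc m x) = sn k m • A.hinc m x)
    (lo : ℤ) (N : ℕ) (hlo : ∀ m, m < lo → ∀ x : A.HH m, x = 0)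
    (hhi : ∀ m, lo + N ≤ m → ∀ x : A.HH m, x = 0) :
    LinearMap.trace k _ (E ∘ₗ T'.ht)
      = ∑ i ∈ Finset.range N, sn k (lo + i) * LinearMap.trace k _ (T'.hh (lo + i)) := by
  classical
  let t := T'.ht
  let T := fun m => T'.hh m
  change LinearMap.trace k _ (E ∘ₗ t)
    = ∑ i ∈ Finset.range N, sn k (lo + i) * LinearMap.trace k _ (T (lo + i))
  have ht1 : ∀ m x, t (A.hinc m x) = A.hinc m (T m x) := fun m x => T'.hinc m x
  have hEt : ∀ m x, (E ∘ₗ t) (A.hinc m x) = A.hinc m (sn k m • T m x) := by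
    intro m x
    rw [LinearMap.comp_apply, ht1, hE, map_smul]
  have hint := A.hinc_internal hA
  have hfin : {m : ℤ | LinearMap.range (A.hinc m) ≠ ⊥}.Finite :=
    WellFoundedGT.finite_ne_bot_of_iSupIndep hint.submodule_iSupIndep
  have hmaps : ∀ m, Set.MapsTo (E ∘ₗ t) (LinearMap.range (A.hinc m))
      (LinearMap.range (A.hinc m)) := by
    rintro m _ ⟨x, rfl⟩
    rw [hEt]
    exact ⟨_, rfl⟩
  rw [LinearMap.trace_eq_sum_trace_restrict' hint hfin hmaps]
  have htr : ∀ m, LinearMap.trace k (LinearMap.range (A.hinc m)) ((E ∘ₗ t).restrict (hmaps m))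
      = sn k m * LinearMap.trace k _ (T m) := by
    intro m
    rw [← smul_eq_mul, ← map_smul]
    symm
    refine trace_eq_of_bij (A.hinc m).rangeRestrict ⟨?_, LinearMap.surjective_rangeRestrict _⟩
      (sn k m • T m) _ (fun x => ?_)
    · intro x y hxy
      apply A.hinc_inj hA m
      exact congrArg Subtype.val hxy
    · apply Subtype.ext
      change A.hinc m ((sn k m • T m) x) = (E ∘ₗ t) (A.hinc m x)
      rw [hEt]
      rfl
  rw [Finset.sum_congr rfl (fun m _ => htr m)]
  have hinj : Function.Injective (fun i : ℕ => lo + (i : ℤ)) := by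
    intro i j hij
    have : lo + (i : ℤ) = lo + (j : ℤ) := hij
    omega
  rw [← Finset.sum_image (f := fun m => sn k m * LinearMap.trace k _ (T m))
    (g := fun i : ℕ => lo + (i : ℤ)) (fun i _ j _ hij => hinj hij)]
  have hzero : ∀ m, (∀ x : A.HH m, x = 0) → sn k m * LinearMap.trace k _ (T m) = 0 := by
    intro m hm
    have : T m = 0 := by
      ext x
      rw [hm (T m x), LinearMap.zero_apply]
    rw [this, map_zero, mul_zero]
  have hrange : ∀ m, (∀ x : A.HH m, x = 0) → LinearMap.range (A.hinc m) = ⊥ := by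
    intro m hm
    rw [eq_bot_iff]
    rintro _ ⟨x, rfl⟩
    rw [hm x, map_zero]
    exact Submodule.zero_mem _
  refine Finset.sum_subset ?_ ?_
  · intro m hm
    rw [Set.Finite.mem_toFinset] at hm
    have h1 : lo ≤ m := by
      by_contra h
      exact hm (hrange m (hlo m (not_le.1 h)))
    have h2 : m < lo + N := by
      by_contra h
      exact hm (hrange m (hhi m (not_lt.1 h)))
    rw [Finset.mem_image]
    exact ⟨(m - lo).toNat, Finset.mem_range.2 (by omega), by omega⟩
  · intro m _ hm
    rw [Set.Finite.mem_toFinset] at hm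
    refine hzero m (fun x => ?_)
    have h1 : LinearMap.range (A.hinc m) = ⊥ := by
      by_contra h
      exact hm h
    have h2 : A.hinc m x ∈ LinearMap.range (A.hinc m) := ⟨x, rfl⟩
    rw [h1, Submodule.mem_bot] at h2
    exact A.hinc_inj hA m (by rw [h2, map_zero])

/-- the supertrace on `HP` is the supertrace on the total Hochschild homology -/
theorem NEnd.str (hA : A.Bex) (hi : DirectSum.IsInternal A.gr) (T : NEnd A)
    [FiniteDimensional k A.HT] (E : A.HT →ₗ[k] A.HT)
    (hE : ∀ m x, E (A.hinc m x) = sn k m • A.hinc m x) :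
    LinearMap.trace k _ (T.e Set.univ 0) - LinearMap.trace k _ (T.e Set.univ 1)
      = LinearMap.trace k _ (E ∘ₗ T.ht) := by
  obtain ⟨hfd, lo, N, hlo, hhi⟩ := HH_fin (X := A) hi
  rw [(T.str_hh hA lo N hlo hhi hfd).2, T.str_ht hi E hE lo N hlo hhi]

end CycMod

end NC
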