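import Mathlib
import Pool.Agent.H94.NT.NEndS
import Pool.Agent.H94.NC.FExt
import Pool.Agent.H94.NC.PiM

/-!
# AlgT : the functional `ψ ↦ str (T ∘ ψ)` on the endomorphisms of `HP^±`

`not_algSub_T`, `not_algExt_T`: copies of `not_algSub`, `not_algExt` (H94/NC/FExt.lean), with
`strP A ∘ (S ∘ ·)` in place of `strP A` (`strP_eq_trace`; in the second one
`L = trace ∘ llcomp ((A.gam ∘ₗ S).baseChange F)`).
`strP_thp_*`: by definition of `strP`.  `strP_thp_corr`: `strP_thp_eq` for the natural family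
`T.comp T'`, `NEnd.str`, `A.EHT_hinc`, `A.cyc_Bex`, `A.cyc_internal`.
-/

set_option autoImplicit false

open scoped TensorProduct

noncomputable section

namespace NC

variable {k : Type} [Field k]

/-- the endomorphism of `HP^±` given by a natural family -/
def thp (A : ZDGA k) (T : CycMod.NEnd A.cyc) : A.HPs →ₗ[k] A.HPs :=
  (T.e Set.univ 0).prodMap (T.e Set.univ 1)

theorem strP_thp (A : ZDGA k) (T : CycMod.NEnd A.cyc) :
    strP A (thp A T) = LinearMap.trace k _ (T.e Set.univ 0)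
      - LinearMap.trace k _ (T.e Set.univ 1) := by
  have e0 : LinearMap.fst k (A.HP 0) (A.HP 1) ∘ₗ thp A T ∘ₗ LinearMap.inl k (A.HP 0) (A.HP 1)
      = T.e Set.univ 0 := LinearMap.ext (fun x => rfl)
  have e1 : LinearMap.snd k (A.HP 0) (A.HP 1) ∘ₗ thp A T ∘ₗ LinearMap.inr k (A.HP 0) (A.HP 1)
      = T.e Set.univ 1 := LinearMap.ext (fun x => rfl)
  change LinearMap.trace k (A.HP 0) (_ ∘ₗ thp A T ∘ₗ _)
    - LinearMap.trace k (A.HP 1) (_ ∘ₗ thp A T ∘ₗ _) = _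
  rw [e0, e1]

theorem strP_thp_piPlus (A : ZDGA k) (T : CycMod.NEnd A.cyc) :
    strP A (thp A T ∘ₗ A.piPlus) = LinearMap.trace k _ (T.e Set.univ 0) := by
  have e0 : LinearMap.fst k (A.HP 0) (A.HP 1) ∘ₗ (thp A T ∘ₗ A.piPlus) ∘ₗ
      LinearMap.inl k (A.HP 0) (A.HP 1) = T.e Set.univ 0 := LinearMap.ext (fun x => rfl)
  have e1 : LinearMap.snd k (A.HP 0) (A.HP 1) ∘ₗ (thp A T ∘ₗ A.piPlus) ∘ₗ
      LinearMap.inr k (A.HP 0) (A.HP 1) = 0 := LinearMap.ext (fun x => by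
    change T.e Set.univ 1 0 = 0
    rw [map_zero])
  change LinearMap.trace k (A.HP 0) (_ ∘ₗ (thp A T ∘ₗ A.piPlus) ∘ₗ _)
    - LinearMap.trace k (A.HP 1) (_ ∘ₗ (thp A T ∘ₗ A.piPlus) ∘ₗ _) = _
  rw [e0, e1, map_zero, sub_zero]

theorem strP_thp_piMinus (A : ZDGA k) (T : CycMod.NEnd A.cyc) :
    strP A (thp A T ∘ₗ A.piMinus) = strP A (thp A T) - LinearMap.trace k _ (T.e Set.univ 0) := by
  have e0 : LinearMap.fst k (A.HP 0) (A.HP 1) ∘ₗ (thp A T ∘ₗ A.piMinus) ∘ₗ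
      LinearMap.inl k (A.HP 0) (A.HP 1) = 0 := LinearMap.ext (fun x => by
    change T.e Set.univ 0 0 = 0
    rw [map_zero])
  have e1 : LinearMap.snd k (A.HP 0) (A.HP 1) ∘ₗ (thp A T ∘ₗ A.piMinus) ∘ₗ
      LinearMap.inr k (A.HP 0) (A.HP 1) = T.e Set.univ 1 := LinearMap.ext (fun x => rfl)
  rw [strP_thp]
  change LinearMap.trace k (A.HP 0) (_ ∘ₗ (thp A T ∘ₗ A.piMinus) ∘ₗ _)
    - LinearMap.trace k (A.HP 1) (_ ∘ₗ (thp A T ∘ₗ A.piMinus) ∘ₗ _) = _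
  rw [e0, e1, map_zero]
  ring

/-- the supertrace on `HP` is the supertrace on the total Hochschild homology -/
theorem strP_thp_eq (A : ZDGA k) [FiniteDimensional k A.cyc.HT] (T : CycMod.NEnd A.cyc) :
    strP A (thp A T) = LinearMap.trace k _ (A.EHT ∘ₗ T.ht) := by
  rw [strP_thp]
  exact CycMod.NEnd.str A.cyc_Bex A.cyc_internal T A.EHT A.EHT_hinc

/-- an endomorphism of `HP^±` which is given by a zigzag is `thp` of a natural family -/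
theorem thp_zz {A B : ZDGA k} (f g : ZHom A B) (hg : Function.Bijective g.cyc.HT)
    (φ : A.HPs →ₗ[k] A.HPs) (hφ : ∀ x, g.HPs (φ x) = f.HPs x) :
    φ = thp A (CycMod.NEnd.zz A.cyc_Bex B.cyc_Bex A.cyc_internal B.cyc_internal f.cyc g.cyc hg)
    := by
  refine LinearMap.ext (fun x => (HPs_bij g hg).1 ?_)
  rw [hφ]
  refine Prod.ext ?_ ?_
  · exact (CycMod.NEnd.zz_e A.cyc_Bex B.cyc_Bex A.cyc_internal B.cyc_internal f.cyc g.cyc hg
      CycMod.win_univ 0 x.1).symm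
  · exact (CycMod.NEnd.zz_e A.cyc_Bex B.cyc_Bex A.cyc_internal B.cyc_internal f.cyc g.cyc hg
      CycMod.win_univ 1 x.2).symm

/-- the value on a correspondence -/
theorem strP_thp_corr {A B : ZDGA k} [FiniteDimensional k A.cyc.HT] (T : CycMod.NEnd A.cyc)
    (f g : ZHom A B) (hg : Function.Bijective g.cyc.HT)
    (φ : A.HPs →ₗ[k] A.HPs) (hφ : ∀ x, g.HPs (φ x) = f.HPs x) :
    strP A (thp A T ∘ₗ φ) =
      LinearMap.trace k _ (A.EHT ∘ₗ T.ht ∘ₗ zz f.cyc.HT g.cyc.HT hg) := by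
  have h1 : thp A T ∘ₗ φ = thp A (T.comp (CycMod.NEnd.zz A.cyc_Bex B.cyc_Bex A.cyc_internal
      B.cyc_internal f.cyc g.cyc hg)) := by
    conv_lhs => rw [thp_zz f g hg φ hφ]
    exact LinearMap.ext (fun x => rfl)
  rw [h1, strP_thp_eq]
  rfl

theorem not_algSub_T (A : ZDGA k) (S : A.HPs →ₗ[k] A.HPs)
    (h0 : ∀ φ ∈ A.corrMaps, strP A (S ∘ₗ φ) = 0) (F : Type) [Field F] [Algebra F k]
    (ψ : A.HPs →ₗ[k] A.HPs) (hψ : strP A (S ∘ₗ ψ) ≠ 0) : ¬ A.AlgSub F ψ := by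
  rintro ⟨n, c, φ, h1, h2⟩
  apply hψ
  have h3 : ∀ χ : A.HPs →ₗ[k] A.HPs,
      strP A (S ∘ₗ χ) = (strP A ∘ₗ LinearMap.llcomp k A.HPs A.HPs A.HPs S) χ := fun χ => rfl
  rw [h3, h2, map_sum]
  refine Finset.sum_eq_zero (fun i _ => ?_)
  rw [map_smul, ← h3, h0 _ (h1 i), smul_zero]

theorem not_algExt_T (A : ZDGA k) [FiniteDimensional k A.cyc.HT] (S : A.HPs →ₗ[k] A.HPs)
    (h0 : ∀ φ ∈ A.corrMaps, strP A (S ∘ₗ φ) = 0) (F : Type) [Field F] [Algebra k F]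
    (ψ : A.HPs →ₗ[k] A.HPs) (hψ : strP A (S ∘ₗ ψ) ≠ 0) : ¬ A.AlgExt F ψ := by
  rintro ⟨n, c, φ, h1, h2⟩
  have := HP_fd A 0
  have := HP_fd A 1
  let L : ((F ⊗[k] A.HPs) →ₗ[F] (F ⊗[k] A.HPs)) →ₗ[F] F :=
    LinearMap.trace F (F ⊗[k] A.HPs) ∘ₗ
      LinearMap.llcomp F (F ⊗[k] A.HPs) (F ⊗[k] A.HPs) (F ⊗[k] A.HPs)
        ((A.gam ∘ₗ S).baseChange F)
  have key : ∀ χ : A.HPs →ₗ[k] A.HPs,
      L (χ.baseChange F) = algebraMap k F (strP A (S ∘ₗ χ)) := by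
    intro χ
    rw [strP_eq_trace, ← LinearMap.comp_assoc, ← LinearMap.trace_baseChange,
      LinearMap.baseChange_comp]
    rfl
  have h3 := key ψ
  rw [h2, map_sum] at h3
  have h4 : ∀ i, L (c i • (φ i).baseChange F) = 0 := by
    intro i
    rw [map_smul, key, h0 _ (h1 i), map_zero, smul_zero]
  rw [Finset.sum_eq_zero (fun i _ => h4 i)] at h3
  exact hψ ((algebraMap k F).injective (by rw [← h3, map_zero]))

end NC
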