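import Mathlib
import Pool.Agent.H16.NC.TD
import Pool.Agent.H16.NC.CommS
import Pool.Agent.H16.NC.HC

/-!
# XBar : structures on the bar complex coming from the FIRST factor

`Bar ρ l = X ⊗ T(R) ⊗ Y`.  A bimodule structure `c` on `X` which commutes with the given one gives
a bimodule structure `xBar` on the bar complex: the left action acts on the head (`barLA`), the
right action acts on the head too, it crosses the word and `Y` (Koszul sign).

Proofs: the algebraic laws are those of `(a.words ρ h).tensL Y` (same underlying space);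
`D_act`: the differential is `tD - lam`, and `lam (v · s) = (lam v) · s` by induction on words
(`lam_snoc`, `hr_snoc`, `hr_EW`, `LA.E_act`), compare `barLN` and `dBar`, `dBar_comm` in
H16/NC/TD.lean.
-/

set_option autoImplicit false

open scoped TensorProduct

noncomputable section

namespace NC

variable {k : Type} [Field k] {R S T S' T' : DGA k} {X Y : SD k}

private theorem lam_rX (ρ : RA R X) (l : LA R Y) (a : RA S X) (h : RR ρ a)
    (v : Wd k X.V R.V ⊗[k] Y.V) (s : S.V) :
    lam (X := X) l (rcl (a.words ρ h) Y v s) = rcl (a.words ρ h) Y (lam (X := X) l v) s := by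
  refine tens_ext (f := lam (X := X) l ∘ₗ (rcl (a.words ρ h) Y).flip s)
    (g := (rcl (a.words ρ h) Y).flip s ∘ₗ lam (X := X) l) (fun w y => ?_) v
  have e1 : ∀ (w : Wd k X.V R.V) (y : Y.V), rcl (a.words ρ h) Y (w ⊗ₜ y) s =
      hr R a w (S.P s) ⊗ₜ[k] y + hr R a w (s - S.P s) ⊗ₜ[k] Y.E y := fun w y => rfl
  simp only [LinearMap.comp_apply, LinearMap.flip_apply]
  induction w using Wd.induction with
  | hadd u v hu hv =>
    rw [TensorProduct.add_tmul, map_add, LinearMap.add_apply, map_add, hu, hv, map_add, map_add,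
      LinearMap.add_apply]
  | hnil n =>
    rw [e1, map_add, hr_nil, hr_nil, lam_nil, lam_nil, lam_nil, map_zero, LinearMap.zero_apply,
      add_zero]
  | hsnoc w _ r =>
    rw [e1, map_add, hr_snoc, hr_snoc, S.PP, sub_self, map_zero, map_zero, LinearMap.zero_apply,
      sub_zero, map_sub S.P, S.PP, sub_self, map_zero, map_zero, LinearMap.zero_apply, zero_sub,
      sub_zero, TensorProduct.neg_tmul, map_neg, lam_snoc, lam_snoc, lam_snoc, hr_EW, hr_EW,
      e1, S.EP, S.E_odd, map_neg, TensorProduct.neg_tmul, neg_neg, l.E_act]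

/-- right action of `S` on `Bar(X, R, Y)` through `X`; it crosses the word and `Y` -/
def barRX (ρ : RA R X) (l : LA R Y) (a : RA S X) (h : RR ρ a) : RA S (Bar ρ l) where
  act := ((a.words ρ h).tensL Y).act
  act_mul := ((a.words ρ h).tensL Y).act_mul
  P_act := ((a.words ρ h).tensL Y).P_act
  D_act := fun v s => by
    have h1 := ((a.words ρ h).tensL Y).D_act v s
    have h2 := lam_rX ρ l a h v s
    change barD0 (Y := Y) ρ (rcl (a.words ρ h) Y v s) -
        lam (X := X) l (rcl (a.words ρ h) Y v s) =
      rcl (a.words ρ h) Y (barD0 (Y := Y) ρ v - lam (X := X) l v) s +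
        rcl (a.words ρ h) Y ((Bar ρ l).E v) (S.D s)
    rw [h2, map_sub, LinearMap.sub_apply]
    change barD0 (Y := Y) ρ (rcl (a.words ρ h) Y v s) =
      rcl (a.words ρ h) Y (barD0 (Y := Y) ρ v) s +
        rcl (a.words ρ h) Y ((Bar ρ l).E v) (S.D s) at h1
    rw [h1]
    abel

theorem barRX_act (ρ : RA R X) (l : LA R Y) (a : RA S X) (h : RR ρ a) (w : Wd k X.V R.V)
    (y : Y.V) (s : S.V) : (barRX ρ l a h).act (w ⊗ₜ y) s =
      hr R a w (S.P s) ⊗ₜ[k] y + hr R a w (s - S.P s) ⊗ₜ[k] Y.E y := rfl

/-- the structure on the bar complex from a structure `c` of the first factor which commutes with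
the given one -/
def xBar (bX : Bi S R X) (bY : Bi R T Y) (c : Bi S' T' X) (h : Comm bX c) :
    Bi S' T' (Bar bX.r bY.l) where
  l := barLA bX.r bY.l c.l h.rl
  r := barRX bX.r bY.l c.r h.rr
  lr := fun s v t =>
    (Bi.tensL (⟨c.l.words bX.r h.rl, c.r.words bX.r h.rr,
      fun a w b => hd_hr c.l c.r c.lr w a b⟩ : Bi S' T' (words bX.r)) Y).lr s v t

theorem xBar_comm (bX : Bi S R X) (bY : Bi R T Y) (c : Bi S' T' X) (h : Comm bX c) :
    Comm (bX.bar bY) (xBar bX bY c h) where
  ll := by
    have h1 : LL (bX.l.words bX.r bX.lr) (c.l.words bX.r h.rl) := by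
      intro a b w
      change hd R bX.l a (hd R c.l b w) = hd R c.l b (hd R bX.l (S.P a) w) +
        hd R c.l (S'.E b) (hd R bX.l (a - S.P a) w)
      induction w using Wd.induction with
      | hadd u v hu hv => simp only [map_add, hu, hv]; abel
      | hnil n => simp only [hd_nil, ← map_add]; rw [h.ll a b n]
      | hsnoc w hw r => simp only [hd_snoc, hw, map_add, LinearMap.add_apply]
    exact fun a b v => (h1.tensLL Y) a b v
  lr := by
    have h1 : LR (bX.l.words bX.r bX.lr) (c.r.words bX.r h.rr) :=
      fun a w b => hd_hr bX.l c.r h.lr w a b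
    exact fun a v b => (h1.tensLL Y) a v b
  rl := fun a v b => (LR.tensLR (c.l.words bX.r h.rl) bY.r) a v b
  rr := fun v a b => (RR.tensRL (c.r.words bX.r h.rr) bY.r) v a b

end NC
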