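import Mathlib
import Pool.Agent.H94.NT.XBar
import Pool.Agent.H94.NC.TwoBa

/-!
# BPair : pairings on the first factor of the bar complex

`ν : Z ⊗ X → N` a pairing.  It acts on the heads: `hb ν z (w ⊗ y) = hn ν z w ⊗ y`.  All lemmas
follow by `tens_ext` from the lemmas about `hn` (H16/NC/EvB.lean, H94/NC/TwoBa.lean,
`hn_hdS`, `hn_m1`, `hn_m2`, `hn_hn`, `hn_rY`).
-/

set_option autoImplicit false

open scoped TensorProduct

noncomputable section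

namespace NC

variable {k : Type} [Field k] {R S T S' : DGA k} {X Y N Z : SD k}

/-- `ν` on the head of the bar complex -/
def hb (R : DGA k) (Y : SD k) (ν : SD.Hom (Z.tens X) N) :
    Z.V →ₗ[k] (Wd k X.V R.V ⊗[k] Y.V) →ₗ[k] (Wd k N.V R.V ⊗[k] Y.V) :=
  LinearMap.rTensorHom Y.V ∘ₗ hn R ν

@[simp] theorem hb_tmul (ν : SD.Hom (Z.tens X) N) (z : Z.V) (w : Wd k X.V R.V) (y : Y.V) :
    hb R Y ν z (w ⊗ₜ y) = hn R ν z w ⊗ₜ y := rfl

/-! private lemmas on `hb` -/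

private theorem lam_hn (l : LA R Y) (ν : SD.Hom (Z.tens X) N) (z : Z.V)
    (t : Wd k X.V R.V ⊗[k] Y.V) :
    lam (X := N) l (hb R Y ν z t) = hb R Y ν (Z.E z) (lam (X := X) l t) := by
  refine tens_ext (f := lam (X := N) l ∘ₗ hb R Y ν z) (g := hb R Y ν (Z.E z) ∘ₗ lam (X := X) l)
    (fun w y => ?_) t
  induction w using Wd.induction with
  | hadd a b ha hb' => rw [TensorProduct.add_tmul, map_add, map_add, ha, hb']
  | hnil x => simp only [LinearMap.comp_apply, hb_tmul, hn_nil, lam_nil, map_zero]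
  | hsnoc w _ r =>
    simp only [LinearMap.comp_apply, hb_tmul, hn_snoc, lam_snoc, hn_EW]

private theorem hb_D (bX : Bi S R X) (bN : Bi S R N) (bY : Bi R T Y) (ν : SD.Hom (Z.tens X) N)
    (h : (bX.tensR Z).IsHom bN ν) (z : Z.V) (t : Wd k X.V R.V ⊗[k] Y.V) :
    barD bN.r bY.l (hb R Y ν z t) =
      hb R Y ν (Z.D z) t + hb R Y ν (Z.E z) (barD bX.r bY.l t) := by
  have hr : ∀ y x r, ν.f (y ⊗ₜ bX.r.act x r) = bN.r.act (ν.f (y ⊗ₜ x)) r :=
    fun y x r => h.r (y ⊗ₜ x) r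
  have h1 : ∀ t, lam (X := N) bY.l (hb R Y ν z t) = hb R Y ν (Z.E z) (lam (X := X) bY.l t) :=
    lam_hn bY.l ν z
  refine tens_ext (f := barD bN.r bY.l ∘ₗ hb R Y ν z)
    (g := hb R Y ν (Z.D z) + hb R Y ν (Z.E z) ∘ₗ barD bX.r bY.l) (fun w y => ?_) t
  have h2 := h1 (w ⊗ₜ y)
  rw [hb_tmul] at h2
  rw [LinearMap.comp_apply, LinearMap.add_apply, LinearMap.comp_apply, hb_tmul, barD_tmul,
    barD_tmul, h2, Db_hn ν bX.r bN.r hr, hn_EW, map_sub, map_add, hb_tmul, hb_tmul, hb_tmul,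
    TensorProduct.add_tmul]
  abel

private theorem hb_P (ν : SD.Hom (Z.tens X) N) (z : Z.V) (t : Wd k X.V R.V ⊗[k] Y.V) :
    barP N Y R (hb R Y ν z t) =
      hb R Y ν (Z.P z) (barP X Y R t) + hb R Y ν (z - Z.P z) (t - barP X Y R t) := by
  refine tens_ext (f := barP N Y R ∘ₗ hb R Y ν z)
    (g := hb R Y ν (Z.P z) ∘ₗ barP X Y R + hb R Y ν (z - Z.P z) ∘ₗ (LinearMap.id - barP X Y R))
    (fun w y => ?_) t
  simp only [LinearMap.comp_apply, LinearMap.add_apply, LinearMap.sub_apply, LinearMap.id_apply,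
    hb_tmul, barP_tmul, hn_PW, map_add, map_sub, TensorProduct.add_tmul, TensorProduct.sub_tmul,
    TensorProduct.tmul_sub]
  abel

private theorem hn_hdL (bX : Bi S R X) (bN : Bi S R N) (ν : SD.Hom (Z.tens X) N)
    (h : (bX.tensR Z).IsHom bN ν) (s : S.V) (z : Z.V) (w : Wd k X.V R.V) :
    hn R ν z (hd R bX.l (S.P s) w) + hn R ν (Z.E z) (hd R bX.l (s - S.P s) w) =
      hd R bN.l s (hn R ν z w) := by
  induction w using Wd.induction with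
  | hadd a b ha hb' => rw [map_add, map_add, map_add, map_add, map_add, map_add, ← ha, ← hb']; abel
  | hnil x =>
    rw [hd_nil, hd_nil, hn_nil, hn_nil, hn_nil, hd_nil, bl_apply, bl_apply, bl_apply, ← map_add,
      ← map_add]
    congr 1
    exact h.l s (z ⊗ₜ x)
  | hsnoc w hw r =>
    rw [hd_snoc, hd_snoc, hn_snoc, hn_snoc, hn_snoc, hd_snoc, ← hw, map_add, LinearMap.add_apply]

/-- the pairing `Z ⊗ Bar(X, R, Y) → Bar(N, R, Y)` -/
def barT (bX : Bi S R X) (bN : Bi S R N) (bY : Bi R T Y) (ν : SD.Hom (Z.tens X) N)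
    (h : (bX.tensR Z).IsHom bN ν) : SD.Hom (Z.tens (Bar bX.r bY.l)) (Bar bN.r bY.l) where
  f := TensorProduct.lift (hb R Y ν)
  D := fun v => by
    refine tens_ext (f := TensorProduct.lift (hb R Y ν) ∘ₗ SD.tD Z (Bar bX.r bY.l))
      (g := barD bN.r bY.l ∘ₗ TensorProduct.lift (hb R Y ν)) (fun z t => ?_) v
    rw [LinearMap.comp_apply, LinearMap.comp_apply, SD.tD_tmul, map_add, TensorProduct.lift.tmul,
      TensorProduct.lift.tmul, TensorProduct.lift.tmul, hb_D bX bN bY ν h]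
  P := fun v => by
    refine tens_ext (f := TensorProduct.lift (hb R Y ν) ∘ₗ SD.tP Z (Bar bX.r bY.l))
      (g := barP N Y R ∘ₗ TensorProduct.lift (hb R Y ν)) (fun z t => ?_) v
    rw [LinearMap.comp_apply, LinearMap.comp_apply, SD.tP_tmul, map_add, TensorProduct.lift.tmul,
      TensorProduct.lift.tmul, TensorProduct.lift.tmul, hb_P]

theorem barT_tmul (bX : Bi S R X) (bN : Bi S R N) (bY : Bi R T Y) (ν : SD.Hom (Z.tens X) N)
    (h : (bX.tensR Z).IsHom bN ν) (z : Z.V) (v : (Bar bX.r bY.l).V) :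
    (barT bX bN bY ν h).f (z ⊗ₜ v) = hb R Y ν z v := rfl

theorem barT_isHom (bX : Bi S R X) (bN : Bi S R N) (bY : Bi R T Y) (ν : SD.Hom (Z.tens X) N)
    (h : (bX.tensR Z).IsHom bN ν) :
    ((bX.bar bY).tensR Z).IsHom (bN.bar bY) (barT bX bN bY ν h) := by
  constructor
  · intro s v
    refine tens_ext (f := (barT bX bN bY ν h).f ∘ₗ ((bX.bar bY).tensR Z).l.act s)
      (g := (bN.bar bY).l.act s ∘ₗ (barT bX bN bY ν h).f) (fun z t => ?_) v
    have h1 : ((bX.bar bY).tensR Z).l.act s (z ⊗ₜ t) = z ⊗ₜ (bX.bar bY).l.act (S.P s) t +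
      Z.E z ⊗ₜ (bX.bar bY).l.act (s - S.P s) t := rfl
    rw [LinearMap.comp_apply, LinearMap.comp_apply, h1, map_add, barT_tmul, barT_tmul, barT_tmul]
    refine tens_ext (f := hb R Y ν z ∘ₗ (bX.bar bY).l.act (S.P s) +
      hb R Y ν (Z.E z) ∘ₗ (bX.bar bY).l.act (s - S.P s))
      (g := (bN.bar bY).l.act s ∘ₗ hb R Y ν z) (fun w y => ?_) t
    change hn R ν z (hd R bX.l (S.P s) w) ⊗ₜ[k] y +
      hn R ν (Z.E z) (hd R bX.l (s - S.P s) w) ⊗ₜ[k] y = hd R bN.l s (hn R ν z w) ⊗ₜ[k] y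
    rw [← TensorProduct.add_tmul, hn_hdL bX bN ν h]
  · intro v s
    refine tens_ext (f := (barT bX bN bY ν h).f ∘ₗ ((bX.bar bY).tensR Z).r.act.flip s)
      (g := (bN.bar bY).r.act.flip s ∘ₗ (barT bX bN bY ν h).f) (fun z t => ?_) v
    refine tens_ext (f := hb R Y ν z ∘ₗ (bX.bar bY).r.act.flip s)
      (g := (bN.bar bY).r.act.flip s ∘ₗ hb R Y ν z) (fun w y => ?_) t
    rfl

theorem hb_hb {U V W N' : SD k} (ν1 : SD.Hom (U.tens N) N') (ν2 : SD.Hom (V.tens X) N)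
    (ν3 : SD.Hom (W.tens X) N') (u : U.V) (v : V.V) (p : W.V)
    (h : ∀ x, ν1.f (u ⊗ₜ ν2.f (v ⊗ₜ x)) = ν3.f (p ⊗ₜ x)) (t : Wd k X.V R.V ⊗[k] Y.V) :
    hb R Y ν1 u (hb R Y ν2 v t) = hb R Y ν3 p t := by
  refine tens_ext (f := hb R Y ν1 u ∘ₗ hb R Y ν2 v) (g := hb R Y ν3 p) (fun w y => ?_) t
  rw [LinearMap.comp_apply, hb_tmul, hb_tmul, hb_tmul, hn_hn ν1 ν2 ν3 u v p h]

theorem hb_m1 (ν : SD.Hom (Z.tens X) N) (r : RA S Z) (bX : Bi S' R X) (bY : Bi R T Y)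
    (a : LA S X) (ha : LR a bX.r)
    (h : ∀ z s x, ν.f (r.act z s ⊗ₜ x) = ν.f (z ⊗ₜ a.act s x)) (z : Z.V) (s : S.V)
    (t : Wd k X.V R.V ⊗[k] Y.V) :
    hb R Y ν (r.act z s) t = hb R Y ν z ((barLA bX.r bY.l a ha).act s t) := by
  refine tens_ext (f := hb R Y ν (r.act z s))
    (g := hb R Y ν z ∘ₗ (barLA bX.r bY.l a ha).act s) (fun w y => ?_) t
  rw [LinearMap.comp_apply, barLA_act, hb_tmul, hb_tmul, hn_m1 ν r a h]

theorem hb_m2 (ν : SD.Hom (Z.tens X) N) (l : LA S Z) (bX : Bi S' R X) (bY : Bi R T Y)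
    (a : RA S X) (ha : RR bX.r a)
    (h : ∀ z x s, ν.f (z ⊗ₜ a.act x s) = ν.f (l.act (S.P s) z ⊗ₜ x) +
      ν.f (l.act (s - S.P s) (Z.E z) ⊗ₜ X.E x)) (z : Z.V) (s : S.V)
    (t : Wd k X.V R.V ⊗[k] Y.V) :
    hb R Y ν z ((barRX bX.r bY.l a ha).act t s) = hb R Y ν (l.act (S.P s) z) t +
      hb R Y ν (l.act (s - S.P s) (Z.E z)) ((Bar bX.r bY.l).E t) := by
  refine tens_ext (f := hb R Y ν z ∘ₗ (barRX bX.r bY.l a ha).act.flip s)
    (g := hb R Y ν (l.act (S.P s) z) +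
      hb R Y ν (l.act (s - S.P s) (Z.E z)) ∘ₗ (Bar bX.r bY.l).E) (fun w y => ?_) t
  have hE : (Bar bX.r bY.l).E (w ⊗ₜ[k] y) = EW X R.toSD w ⊗ₜ[k] Y.E y := by
    rw [Bar_E, TensorProduct.map_tmul]
  rw [LinearMap.comp_apply, LinearMap.flip_apply, barRX_act, LinearMap.add_apply,
    LinearMap.comp_apply, hE, map_add, hb_tmul, hb_tmul, hb_tmul, hb_tmul,
    hn_m2 ν l a h z (S.P s), hn_m2 ν l a h z (s - S.P s)]
  simp only [S.PP, map_sub, sub_self, map_zero, LinearMap.zero_apply, add_zero, zero_add,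
    sub_zero]

theorem hb_hdS (ν : SD.Hom (Z.tens X) N) (l : LA S Z) (bN : Bi S' R N) (bY : Bi R T Y)
    (a : LA S N) (ha : LR a bN.r)
    (h : ∀ s z x, ν.f (l.act s z ⊗ₜ x) = a.act s (ν.f (z ⊗ₜ x))) (s : S.V) (z : Z.V)
    (t : Wd k X.V R.V ⊗[k] Y.V) :
    hb R Y ν (l.act s z) t = (barLA bN.r bY.l a ha).act s (hb R Y ν z t) := by
  refine tens_ext (f := hb R Y ν (l.act s z))
    (g := (barLA bN.r bY.l a ha).act s ∘ₗ hb R Y ν z) (fun w y => ?_) t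
  rw [LinearMap.comp_apply, hb_tmul, hb_tmul, barLA_act, hn_hdS ν l a h]

theorem hb_rY (ν : SD.Hom (Z.tens X) N) (r : RA S Z)
    (cX : Bi S' R X) (cN : Bi S' R N) (bY : Bi R T Y) (a : RA S N) (ha : RR cN.r a)
    (h : ∀ z x s, ν.f (r.act z s ⊗ₜ x) = a.act (ν.f (z ⊗ₜ x)) (S.P s) +
      a.act (ν.f (z ⊗ₜ X.E x)) (s - S.P s)) (z : Z.V) (s : S.V)
    (t : Wd k X.V R.V ⊗[k] Y.V) :
    hb R Y ν (r.act z s) t = (barRX cN.r bY.l a ha).act (hb R Y ν z t) (S.P s) +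
      (barRX cN.r bY.l a ha).act (hb R Y ν z ((Bar cX.r bY.l).E t)) (s - S.P s) := by
  refine tens_ext (f := hb R Y ν (r.act z s))
    (g := (barRX cN.r bY.l a ha).act.flip (S.P s) ∘ₗ hb R Y ν z +
      (barRX cN.r bY.l a ha).act.flip (s - S.P s) ∘ₗ hb R Y ν z ∘ₗ (Bar cX.r bY.l).E)
    (fun w y => ?_) t
  have hE : (Bar cX.r bY.l).E (w ⊗ₜ[k] y) = EW X R.toSD w ⊗ₜ[k] Y.E y := by
    rw [Bar_E, TensorProduct.map_tmul]
  rw [LinearMap.add_apply, LinearMap.comp_apply, LinearMap.comp_apply, LinearMap.comp_apply, hE,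
    hb_tmul, hb_tmul, hb_tmul, LinearMap.flip_apply, LinearMap.flip_apply, barRX_act, barRX_act,
    hn_rY ν r a h z s w]
  simp only [S.PP, map_sub, sub_self, map_zero, TensorProduct.zero_tmul,
    add_zero, zero_add, sub_zero, Y.EE, TensorProduct.add_tmul]

end NC
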