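import Mathlib
import Pool.Agent.H94.NC.BarZ
import Pool.Agent.H94.NC.Conv
import Pool.Agent.H28.NC.BarMap
import Pool.Agent.H36.NX.RPB

/-!
# BarR : the bar resolution of the diagonal bimodule is perfect as a right module

`bar_rpf`: the contraction is `iotaL (unit) ⊗ 1` (`htpyL`, H28/NC/BarMap.lean, compare `qi_augL`),
`F = A`, `s = augL`, `r = nilB ∘ unitL`.
`exists_diag_res`: `M = BMod.bar (diag) (diag)` or `(barZ A).bm`, `barZ_semiFree`, `.super`.
-/

set_option autoImplicit false

open scoped TensorProduct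

noncomputable section

namespace NC

variable {k : Type} [Field k]

/-- the zero object -/
private def barR_Z (k : Type) [Field k] : SD k where
  V := PUnit
  D := 0
  P := 0
  DD := fun _ => rfl
  PP := fun _ => rfl
  DP := fun _ => rfl

/-- the zero module -/
private def barR_rZ (A : DGA k) : RA A (barR_Z k) where
  act := 0
  act_mul := fun _ _ _ => rfl
  P_act := fun _ _ => rfl
  D_act := fun _ _ => rfl

private theorem barR_fin (A : DGA k) : FinSF A A.toSD A.diag.r :=
  FinSF.ext (N' := barR_Z k) (r' := barR_rZ A)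
    { f := 0
      D := fun _ => (map_zero A.D).symm
      P := fun _ => (map_zero A.P).symm }
    (fun _ a => (zero_mul a).symm)
    (SD.Hom.id A.toSD) (fun _ _ => rfl)
    ⟨fun _ _ => rfl, fun z => ⟨z, rfl⟩, fun _ => rfl, fun _ hy => ⟨PUnit.unit, hy.symm⟩⟩
    (FinSF.zero (fun _ => rfl))

theorem bar_rpf (A : DGA k) : RPf (A.diag.bar A.diag).r := by
  refine ⟨⟨A.toSD, A.diag.r, augL A.diag.l,
    (nilB A.diag.r A.diag.l).comp (unitL A A.toSD),
    -(TensorProduct.map (iotaL (R := A) (unitL A A.toSD).f) LinearMap.id), barR_fin A,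
    (augL_isHom A.diag).r, fun x a => rfl, fun x a => ?_, fun v => ?_⟩⟩
  · refine tens_ext (f := (-(TensorProduct.map (iotaL (R := A) (unitL A A.toSD).f)
        LinearMap.id)) ∘ₗ (A.diag.bar A.diag).r.act.flip a)
      (g := (A.diag.bar A.diag).r.act.flip a ∘ₗ
        (-(TensorProduct.map (iotaL (R := A) (unitL A A.toSD).f) LinearMap.id)))
      (fun w y => ?_) x
    simp only [LinearMap.comp_apply, LinearMap.neg_apply, map_neg]
    rfl
  · have h := htpyL A.diag.r A.diag.l (actL A.diag.l) (unitL A A.toSD) (fun x r => rfl)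
      (fun x => one_mul x) ((nilB A.diag.r A.diag.l).comp (unitL A A.toSD)) (fun x y => by
        change Wd.nil (1 : A.V) ⊗ₜ[k] A.diag.l.act x y =
          lam (X := A.toSD) A.diag.l (Wd.snoc (Wd.nil (A.E 1)) x ⊗ₜ y)
        rw [lam_snoc, EW_nil, A.EE]) v
    change ((nilB A.diag.r A.diag.l).comp (unitL A A.toSD)).f (augF (actL A.diag.l).f v) =
      v + barD A.diag.r A.diag.l
          ((-(TensorProduct.map (iotaL (R := A) (unitL A A.toSD).f) LinearMap.id)) v) +
        (-(TensorProduct.map (iotaL (R := A) (unitL A A.toSD).f) LinearMap.id))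
          (barD A.diag.r A.diag.l v)
    rw [LinearMap.neg_apply, LinearMap.neg_apply, map_neg]
    have key : ∀ a b g : Wd k A.V A.V ⊗[k] A.V, a + b = v - g → g = v + -a + -b := by
      intro a b g hab
      have h3 : g = v - (a + b) := by rw [hab]; abel
      rw [h3]
      abel
    exact key _ _ _ h

theorem exists_diag_res (A : ZDGA k) : ∃ (M : BMod A.toDGA A.toDGA)
    (q : BMod.Hom M (BMod.diag A.toDGA)), q.toHom.QI ∧ RPf M.b.r ∧
    ∃ I : Type, Nonempty (SemiFree M.b I) := by
  obtain ⟨I, hI⟩ := barZ_semiFree A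
  exact ⟨(barZ A).bm,
    { toHom := augL A.toDGA.diag.l
      isHom := augL_isHom A.toDGA.diag },
    qi_augL A.toDGA.diag.l (fun y => one_mul y), bar_rpf A.toDGA, I, hI.super⟩

end NC
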