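import Mathlib
import Pool.Agent.H16.NC.HL
import Pool.Agent.H16.NC.GMap
import Pool.Agent.H16.NC.Mg
import Pool.Agent.H94.NC.MCtx

/-!
# ResM : maps of Hochschild complexes over a homomorphism of dg algebras

`φ : N → N'` is compatible with `f : A → B` if `b.IsHom (b'.res f f) φ`.  `hcG` is
`Wd.map φ f` on `HC(A; N) → HC(B; N')`.
-/

set_option autoImplicit false

open scoped TensorProduct

noncomputable section

namespace NC

variable {k : Type} [Field k] {A A' B B' S S' T T' : DGA k} {N N' N'' : SD k}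

theorem Comm.res {b : Bi A A' N} {c : Bi S T N} (h : Comm b c) {C C' U U' : DGA k}
    (f : DGA.NHom C A) (g : DGA.NHom C' A') (s : DGA.NHom U S) (t : DGA.NHom U' T) :
    Comm (b.res f g) (c.res s t) := by
  constructor
  · intro x y n
    change b.l.act (f.f x) (c.l.act (s.f y) n) = c.l.act (s.f y) (b.l.act (f.f (C.P x)) n) +
      c.l.act (s.f (U.E y)) (b.l.act (f.f (x - C.P x)) n)
    rw [h.ll, map_sub f.f, f.P, s.E]
  · intro x n y
    exact h.lr (f.f x) n (t.f y)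
  · intro x n y
    exact h.rl (s.f x) n (g.f y)
  · intro n x y
    change b.r.act (c.r.act n (t.f y)) (g.f x) = c.r.act (b.r.act n (g.f (C'.P x))) (t.f y) +
      c.r.act (b.r.act n (g.f (x - C'.P x))) (t.f (U'.E y))
    rw [h.rr, map_sub g.f, g.P, t.E]

private theorem rm_hr {R R' T T' : DGA k} (φ : SD.Hom N N') (g : DGA.NHom R R')
    (t : DGA.NHom T T') (r : RA T N) (r' : RA T' N')
    (h : ∀ n a, φ.f (r.act n a) = r'.act (φ.f n) (t.f a)) (w : Wd k N.V R.V) (a : T.V) :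
    Wd.map φ.f g.f (hr R r w a) = hr R' r' (Wd.map φ.f g.f w) (t.f a) := by
  induction w using Wd.induction generalizing a with
  | hadd x y hx hy => simp only [map_add, LinearMap.add_apply, hx, hy]
  | hnil n => simp only [hr_nil, Wd.map_nil, h]
  | hsnoc w hw x =>
    simp only [hr_snoc, map_sub, Wd.map_snoc, hw, g.E, t.P, LinearMap.sub_apply]

/-- `Wd.map φ f` -/
def hcG (b : Bi A A N) (b' : Bi B B N') (f : DGA.NHom A B) (φ : SD.Hom N N')
    (h : b.IsHom (b'.res f f) φ) : SD.Hom (HC b) (HC b') where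
  f := Wd.map φ.f f.f
  D := fun w => by
    change Wd.map φ.f f.f (hcD b w) = hcD b' (Wd.map φ.f f.f w)
    rw [hcD_apply, hcD_apply, map_sub]
    have h1 := map_Db φ f b.r b'.r (fun n a => h.r n a) w
    have h2 := map_om φ f b.l b'.l (fun a n => h.l a n) w
    exact congrArg₂ (· - ·) h1 h2
  P := fun w => map_PW φ f w

theorem hcG_f (b : Bi A A N) (b' : Bi B B N') (f : DGA.NHom A B) (φ : SD.Hom N N')
    (h : b.IsHom (b'.res f f) φ) : (hcG b b' f φ h).f = Wd.map φ.f f.f := rfl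

theorem hcG_isHom {b : Bi A A N} {b' : Bi B B N'} {c : Bi S T N} {c' : Bi S' T' N'}
    (hc : Comm b c) (hc' : Comm b' c') (f : DGA.NHom A B) (s : DGA.NHom S S')
    (t : DGA.NHom T T') (φ : SD.Hom N N') (h1 : b.IsHom (b'.res f f) φ)
    (h2 : c.IsHom (c'.res s t) φ) :
    (b.hc c hc).IsHom ((b'.hc c' hc').res s t) (hcG b b' f φ h1) := by
  constructor
  · intro a w
    exact map_hd φ f s c.l c'.l h2.l a w
  · intro w a
    exact rm_hr φ f t c.r c'.r h2.r w a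

/-- the map on iterated Hochschild complexes -/
def hcG2 {b : Bi A A N} {b' : Bi B B N'} {c : Bi S S N} {c' : Bi T T N'}
    (hc : Comm b c) (hc' : Comm b' c') (f : DGA.NHom A B) (g : DGA.NHom S T)
    (φ : SD.Hom N N') (h1 : b.IsHom (b'.res f f) φ) (h2 : c.IsHom (c'.res g g) φ) :
    SD.Hom (HC2 b c hc) (HC2 b' c' hc') :=
  hcG (b.hc c hc) (b'.hc c' hc') g (hcG b b' f φ h1) (hcG_isHom hc hc' f g g φ h1 h2)

/-- the map `Q_A → Q_B`, `b ⊗ a ↦ f b ⊗ g a` -/
def qmap (f g : DGA.NHom A B) : SD.Hom (QQ A) (QQ B) := f.toHom.tens g.toHom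

theorem qmap_tmul (f g : DGA.NHom A B) (b a : A.V) :
    (qmap f g).f (b ⊗ₜ a) = f.f b ⊗ₜ g.f a := rfl

theorem qmap_1 (f g : DGA.NHom A B) : (bQ1 A).IsHom ((bQ1 B).res f f) (qmap f g) := by
  constructor
  · intro r v
    refine tens_ext (f := (qmap f g).f ∘ₗ (iL A).act r)
      (g := (iL B).act (f.f r) ∘ₗ (qmap f g).f) (fun b a => ?_) v
    change (qmap f g).f ((r * b) ⊗ₜ a) = (f.f r * f.f b) ⊗ₜ g.f a
    rw [qmap_tmul, f.mul]
  · intro v r
    refine tens_ext (f := (qmap f g).f ∘ₗ (oR A).act.flip r)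
      (g := (oR B).act.flip (f.f r) ∘ₗ (qmap f g).f) (fun b a => ?_) v
    change (qmap f g).f ((b * A.P r) ⊗ₜ a + (b * (r - A.P r)) ⊗ₜ A.E a) =
      (f.f b * B.P (f.f r)) ⊗ₜ g.f a + (f.f b * (f.f r - B.P (f.f r))) ⊗ₜ B.E (g.f a)
    rw [map_add, qmap_tmul, qmap_tmul, f.mul, f.mul, g.E, map_sub, f.P]

theorem qmap_2 (f g : DGA.NHom A B) : (bQ2 A).IsHom ((bQ2 B).res g g) (qmap f g) := by
  constructor
  · intro r v
    refine tens_ext (f := (qmap f g).f ∘ₗ (oL A).act r)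
      (g := (oL B).act (g.f r) ∘ₗ (qmap f g).f) (fun b a => ?_) v
    change (qmap f g).f (b ⊗ₜ (A.P r * a) + A.E b ⊗ₜ ((r - A.P r) * a)) =
      f.f b ⊗ₜ (B.P (g.f r) * g.f a) + B.E (f.f b) ⊗ₜ ((g.f r - B.P (g.f r)) * g.f a)
    rw [map_add, qmap_tmul, qmap_tmul, g.mul, g.mul, f.E, map_sub, g.P]
  · intro v r
    refine tens_ext (f := (qmap f g).f ∘ₗ (iR A).act.flip r)
      (g := (iR B).act.flip (g.f r) ∘ₗ (qmap f g).f) (fun b a => ?_) v
    change (qmap f g).f (b ⊗ₜ (a * r)) = f.f b ⊗ₜ (g.f a * g.f r)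
    rw [qmap_tmul, g.mul]

/-- the map on the homology of `Q` -/
def qF (f g : DGA.NHom A B) : SD.Hom (HC2 (bQ1 A) (bQ2 A) (Q1_Q2 A))
    (HC2 (bQ1 B) (bQ2 B) (Q1_Q2 B)) :=
  hcG2 (Q1_Q2 A) (Q1_Q2 B) f g (qmap f g) (qmap_1 f g) (qmap_2 f g)

private theorem rm_xl (f g : DGA.NHom A B) (x : Wd k A.V A.V) (y : A.V) :
    Wd.map (qmap f g).f f.f (xl A.toSD A.toSD A.toSD x y) =
      xl B.toSD B.toSD B.toSD (Wd.map f.f f.f x) (g.f y) := by
  induction x using Wd.induction generalizing y with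
  | hadd u v hu hv => simp only [map_add, LinearMap.add_apply, hu, hv]
  | hnil n => rw [xl_nil, Wd.map_nil, Wd.map_nil, xl_nil, qmap_tmul]
  | hsnoc w hw r =>
    rw [xl_snoc, map_sub, Wd.map_snoc, Wd.map_snoc, hw, hw, Wd.map_snoc, xl_snoc, map_sub g.f,
      g.P, f.E]

/-- `qF` is `hcA f × hcA g` on products -/
theorem qF_mg (f g : DGA.NHom A B) (x y : (HC A.diag).V) :
    (qF f g).f ((mgG A.diag A.diag).f (x ⊗ₜ y)) =
      (mgG B.diag B.diag).f ((hcA f).f x ⊗ₜ (hcA g).f y) := by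
  induction y using Wd.induction with
  | hadd u v hu hv => simp only [TensorProduct.tmul_add, map_add, hu, hv]
  | hnil n =>
    have h1 : (hcA g).f (Wd.nil n) = Wd.nil (g.f n) := Wd.map_nil _ _ _
    rw [mgG_nil, h1, mgG_nil]
    have h2 : (qF f g).f (Wd.nil (xl A.toSD A.toSD A.toSD x n)) =
        Wd.nil (Wd.map (qmap f g).f f.f (xl A.toSD A.toSD A.toSD x n)) := Wd.map_nil _ _ _
    rw [h2, rm_xl]
    rfl
  | hsnoc w hw r =>
    have h1 : (hcA g).f (Wd.snoc w r) = Wd.snoc ((hcA g).f w) (g.f r) := Wd.map_snoc _ _ _ _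
    rw [mgG_snoc, h1, mgG_snoc, ← hw]
    exact Wd.map_snoc _ _ _ _

end NC
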