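import Mathlib
import Pool.Agent.H94.NC.TwoBd
import Pool.Agent.H16.NC.Gam

/-!
# GamG : the action of `Q = A ⊗ A` on a bimodule

`rxR r c : v ↦ ± v c`; `gamG bV (a ⊗ c) : v ↦ ± a v c`, generalises `gam A` (H16/NC/Gam.lean).
Proofs: copy of `rxA_E2`, `rxA_cen` (`rx_preR`, `rx_postR`, `rx_central` in H16/NC/RxL.lean) with
the right action of `V`; then `actC_isHom`, `actC_isHomR`.
-/

set_option autoImplicit false

open scoped TensorProduct

noncomputable section

namespace NC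

variable {k : Type} [Field k] {A : DGA k} {V W : SD k}

/-- `c ↦ (v ↦ ± v c)` -/
def rxR (r : RA A V) : SD.Hom A.toSD (SD.hom V V) := ((actR r).comp (brS A.toSD V)).curry

theorem rxR_apply' (r : RA A V) (c : A.V) (v : V.V) :
    (rxR r).f c v = r.act (V.P v) c + r.act (v - V.P v) (A.E c) := rfl

theorem rxR_apply (r : RA A V) (c : A.V) (v : V.V) :
    (rxR r).f c v = r.act v (A.P c) + r.act (V.E v) (c - A.P c) := by
  rw [rxR_apply']
  simp only [V.E_apply, A.E_apply, map_add, map_sub, LinearMap.add_apply, LinearMap.sub_apply]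
  abel

theorem rxR_E2 (bV : Bi A A V) : A.diag.IsHom (E2 bV) (rxR bV.r) := by
  have hP : ∀ x y : A.V, A.P (x * y) = A.P x * A.P y + (x - A.P x) * (y - A.P y) := A.P_mul
  constructor
  · intro s c
    refine LinearMap.ext (fun v => ?_)
    change (rxR bV.r).f (s * c) v = (rxR bV.r).f c (bV.r.act v (A.P s)) -
      V.E ((rxR bV.r).f c (bV.r.act v (s - A.P s)))
    rw [rxR_apply, rxR_apply, rxR_apply]
    simp only [map_add, map_sub, bV.r.E_act, V.EE, hP, bV.r.act_mul, A.E_apply, A.PP,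
      LinearMap.add_apply, LinearMap.sub_apply, mul_sub, sub_mul, add_mul]
    abel
  · intro c s
    refine LinearMap.ext (fun v => ?_)
    change (rxR bV.r).f (c * s) v = bV.r.act ((rxR bV.r).f c v) (A.P s) +
      bV.r.act ((rxR bV.r).f c (V.E v)) (s - A.P s)
    rw [rxR_apply, rxR_apply, rxR_apply]
    simp only [map_add, map_sub, V.EE, hP, bV.r.act_mul,
      LinearMap.add_apply, LinearMap.sub_apply, mul_sub, sub_mul]
    abel

theorem rxR_cen (bV : Bi A A V) : Central (E1 bV) (rxR bV.r) := by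
  intro s c
  refine LinearMap.ext (fun v => ?_)
  change bV.l.act s ((rxR bV.r).f c v) = (rxR bV.r).f (A.P c) (bV.l.act s v) +
    (rxR bV.r).f (c - A.P c) (bV.l.act (A.E s) v)
  rw [rxR_apply, rxR_apply, rxR_apply]
  simp only [map_add, map_sub, bV.l.E_act, A.EE, A.PP, bV.lr, LinearMap.add_apply,
    LinearMap.sub_apply]
  abel

/-- `a ⊗ c ↦ (v ↦ ± a v c)` -/
def gamG (bV : Bi A A V) : SD.Hom (QQ A) (SD.hom V V) := actC (E1 bV) (rxR bV.r)

theorem gamG_tmul (bV : Bi A A V) (a c : A.V) (v : V.V) :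
    (gamG bV).f (a ⊗ₜ c) v = bV.l.act a (bV.r.act (V.P v) c + bV.r.act (v - V.P v) (A.E c)) :=
  rfl

theorem gamG_E1 (bV : Bi A A V) : (bQ1 A).IsHom (E1 bV) (gamG bV) := actC_isHom (rxR_cen bV)

theorem gamG_E2 (bV : Bi A A V) : (bQ2 A).IsHom (E2 bV) (gamG bV) :=
  actC_isHomR (E1_E2 bV) (rxR_E2 bV)

/-- for the diagonal bimodule this is `gam` -/
theorem gamG_diag (q : (QQ A).V) : (gamG A.diag).f q = (gam A).f q :=
  tens_ext (f := (gamG A.diag).f) (g := (gam A).f) (fun _ _ => rfl) q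

/-- bimodule maps are compatible with the action of `Q` -/
theorem gamG_nat (bV : Bi A A V) (bW : Bi A A W) (q : SD.Hom V W) (hq : bV.IsHom bW q)
    (x : (QQ A).V) (v : V.V) : q.f ((gamG bV).f x v) = (gamG bW).f x (q.f v) := by
  have hl : ∀ a n, q.f (bV.l.act a n) = bW.l.act a (q.f n) := hq.l
  have hr : ∀ n a, q.f (bV.r.act n a) = bW.r.act (q.f n) a := hq.r
  refine tens_ext (f := q.f ∘ₗ (gamG bV).f.flip v) (g := (gamG bW).f.flip (q.f v))
    (fun a c => ?_) x
  change q.f ((gamG bV).f (a ⊗ₜ c) v) = (gamG bW).f (a ⊗ₜ c) (q.f v)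
  rw [gamG_tmul, gamG_tmul, hl, map_add, hr, hr, map_sub, q.P]

end NC
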