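import Mathlib
import Pool.Agent.H94.NT.BPair
import Pool.Agent.H94.NC.TwoBb

/-!
# TwoT : the pairings of Two-B with coefficients in a bimodule `Θ` (definitions)

`Φ(X) = GG X Θ = HC(A; Bar(X, A, Θ))` instead of `HC(A; X)`.  A structure on `X` which commutes
with the given one gives a structure `xG` on `Φ(X)`.  The pairing `gT ν` is `hnT` of `barT ν`.
-/

set_option autoImplicit false

open scoped TensorProduct

noncomputable section

namespace NC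

variable {k : Type} [Field k] {A S T : DGA k} {X Y Z N Θ : SD k}

/-- a further structure on `HC(A; Bar(X, A, Θ))` from a structure on `X` -/
abbrev xG (bX : Bi A A X) (bT : Bi A A Θ) (c : Bi S T X) (h : Comm bX c) : Bi S T (GG bX bT) :=
  (bX.bar bT).hc (xBar bX bT c h) (xBar_comm bX bT c h)

/-- the pairing `Z ⊗ Φ(X) → Φ(N)` -/
def gT (bX : Bi A A X) (bN : Bi A A N) (bT : Bi A A Θ) (ν : SD.Hom (Z.tens X) N)
    (h : (bX.tensR Z).IsHom bN ν) : SD.Hom (Z.tens (GG bX bT)) (GG bN bT) :=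
  hnT (bX.bar bT) (bN.bar bT) (barT bX bN bT ν h) (barT_isHom bX bN bT ν h)

theorem gT_tmul (bX : Bi A A X) (bN : Bi A A N) (bT : Bi A A Θ) (ν : SD.Hom (Z.tens X) N)
    (h : (bX.tensR Z).IsHom bN ν) (z : Z.V) (w : (GG bX bT).V) :
    (gT bX bN bT ν h).f (z ⊗ₜ w) = hn A (barT bX bN bT ν h) z w := hnT_tmul _ _ _ _ _ _

/-- the bimodule `W = Φ(Q)` -/
abbrev bWT (bT : Bi A A Θ) : Bi A A (GG (bOut A) bT) := xG (bOut A) bT (bIn A) (out_in A)

/-- the pairing `Z ⊗ W → Φ(Z)` -/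
def hatPT (bZ : Bi A A Z) (bT : Bi A A Θ) : SD.Hom (Z.tens (GG (bOut A) bT)) (GG bZ bT) :=
  gT (bOut A) bZ bT (kap bZ) (kap_isHom bZ)

/-- the action of `Q` on `W` -/
def hatT (bT : Bi A A Θ) :
    SD.Hom (QQ A) (SD.hom (GG (bOut A) bT) (GG (bOut A) bT)) := (hatPT (bOut A) bT).curry

/-- functoriality of `Φ` for bimodule maps of any parity -/
def HCT (bY : Bi A A Y) (bZ : Bi A A Z) (bT : Bi A A Θ) :
    SD.Hom (HomBi bY bZ) (SD.hom (GG bY bT) (GG bZ bT)) :=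
  (gT bY bZ bT (evBi bY bZ) (evBi_isHom bY bZ)).curry

theorem hatPT_tmul (bZ : Bi A A Z) (bT : Bi A A Θ) (z : Z.V) (w : (GG (bOut A) bT).V) :
    (hatPT bZ bT).f (z ⊗ₜ w) =
      hn A (barT (bOut A) bZ bT (kap bZ) (kap_isHom bZ)) z w := gT_tmul _ _ _ _ _ _ _

theorem hatT_apply (bT : Bi A A Θ) (q : (QQ A).V) (w : (GG (bOut A) bT).V) :
    (hatT bT).f q w =
      hn A (barT (bOut A) (bOut A) bT (kap (bOut A)) (kap_isHom (bOut A))) q w :=
  gT_tmul _ _ _ _ _ _ _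

theorem HCT_apply (bY : Bi A A Y) (bZ : Bi A A Z) (bT : Bi A A Θ) (ξ : (HomBi bY bZ).V)
    (w : (GG bY bT).V) :
    (HCT bY bZ bT).f ξ w = hn A (barT bY bZ bT (evBi bY bZ) (evBi_isHom bY bZ)) ξ w :=
  gT_tmul _ _ _ _ _ _ _

end NC
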