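import Mathlib
import Pool.Agent.H94.NT.TwoT
import Pool.Agent.H94.NC.TwoBc

/-!
# TwoTa : `hatPT` is balanced, `hatT` is compatible with the structures of `Q`

Copy of `hatP_muD`, `hat_Q1`, `hat_Q2` (H94/NC/TwoBb.lean): the same lemmas `hn_m1`, `hn_m2`,
`hn_hdS`, `hn_rY` for the words of the outer complex, their hypotheses are `hb_m1`, `hb_m2`,
`hb_hdS`, `hb_rY` (BPair.lean, with `barT_tmul`), applied to `kap` (`kap_m1`, `kap_m2`,
`kap_comm (bOut A) (bIn A) (out_in A)`, `RA.tensL_isHom_iff`).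
-/

set_option autoImplicit false

open scoped TensorProduct

noncomputable section

namespace NC

variable {k : Type} [Field k] {A : DGA k} {Z Θ : SD k}

private theorem twoTa_m1 (bZ : Bi A A Z) (bT : Bi A A Θ) (y : Z.V) (r : A.V)
    (v : (Bar (bOut A).r bT.l).V) :
    (barT (bOut A) bZ bT (kap bZ) (kap_isHom bZ)).f (bZ.r.act y r ⊗ₜ v) =
      (barT (bOut A) bZ bT (kap bZ) (kap_isHom bZ)).f
        (y ⊗ₜ (xBar (bOut A) bT (bIn A) (out_in A)).l.act r v) := by
  rw [barT_tmul, barT_tmul]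
  exact hb_m1 (kap bZ) bZ.r (bOut A) bT (iL A) (out_in A).rl (fun z s x => kap_m1 bZ z s x) y r v

private theorem twoTa_m2 (bZ : Bi A A Z) (bT : Bi A A Θ) (y : Z.V)
    (v : (Bar (bOut A).r bT.l).V) (t : A.V) :
    (barT (bOut A) bZ bT (kap bZ) (kap_isHom bZ)).f
        (y ⊗ₜ (xBar (bOut A) bT (bIn A) (out_in A)).r.act v t) =
      (barT (bOut A) bZ bT (kap bZ) (kap_isHom bZ)).f (bZ.l.act (A.P t) y ⊗ₜ v) +
      (barT (bOut A) bZ bT (kap bZ) (kap_isHom bZ)).f
        (bZ.l.act (t - A.P t) (Z.E y) ⊗ₜ (Bar (bOut A).r bT.l).E v) := by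
  rw [barT_tmul, barT_tmul, barT_tmul]
  exact hb_m2 (kap bZ) bZ.l (bOut A) bT (iR A) (out_in A).rr (fun z x s => kap_m2 bZ z x s) y t v

theorem hatPT_muD (bZ : Bi A A Z) (bT : Bi A A Θ) : MuD bZ (bWT bT) (hatPT bZ bT) where
  m1 := fun x r w => by
    refine (hatPT_tmul bZ bT _ _).trans (Eq.trans ?_ (hatPT_tmul bZ bT _ _).symm)
    exact hn_m1 (barT (bOut A) bZ bT (kap bZ) (kap_isHom bZ)) bZ.r
      (xBar (bOut A) bT (bIn A) (out_in A)).l (fun y r v => twoTa_m1 bZ bT y r v) x r w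
  m2 := fun x w t => by
    have h1 := hn_m2 (barT (bOut A) bZ bT (kap bZ) (kap_isHom bZ)) bZ.l
      (xBar (bOut A) bT (bIn A) (out_in A)).r (fun y v t => twoTa_m2 bZ bT y v t) x t w
    have e1 := hatPT_tmul bZ bT x (hr A (xBar (bOut A) bT (bIn A) (out_in A)).r w t)
    have e2 := hatPT_tmul bZ bT (bZ.l.act (A.P t) x) w
    have e3 := hatPT_tmul bZ bT (bZ.l.act (t - A.P t) (Z.E x))
      (EW (Bar (bOut A).r bT.l) A.toSD w)
    exact e1.trans (h1.trans (congrArg₂ (fun a b => a + b) e2.symm e3.symm))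

theorem hatT_Q1 (bT : Bi A A Θ) : (bQ1 A).IsHom (E1 (bWT bT)) (hatT bT) := by
  constructor
  · intro s q
    refine LinearMap.ext (fun w => ?_)
    have h := kap_comm (bOut A) (bIn A) (out_in A)
    refine (hatT_apply bT _ w).trans ?_
    refine Eq.trans ?_ (congrArg (hd A (xBar (bOut A) bT (bIn A) (out_in A)).l s)
      (hatT_apply bT q w)).symm
    refine hn_hdS (barT (bOut A) (bOut A) bT (kap (bOut A)) (kap_isHom (bOut A))) (iL A)
      (xBar (bOut A) bT (bIn A) (out_in A)).l (fun r y v => ?_) s q w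
    rw [barT_tmul, barT_tmul]
    exact hb_hdS (kap (bOut A)) (iL A) (bOut A) bT (iL A) (out_in A).rl
      (fun r y x => h.l r (y ⊗ₜ x)) r y v
  · intro q t
    refine LinearMap.ext (fun w => ?_)
    exact (hatPT_muD (bOut A) bT).m1 q t w

theorem hatT_Q2 (bT : Bi A A Θ) : (bQ2 A).IsHom (E2 (bWT bT)) (hatT bT) := by
  constructor
  · intro s q
    refine LinearMap.ext (fun w => ?_)
    have hm2 := hn_m2 (R := A) (barT (bOut A) (bOut A) bT (kap (bOut A)) (kap_isHom (bOut A))) (oL A)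
      (xBar (bOut A) bT (bIn A) (out_in A)).r (fun y v t => twoTa_m2 (bOut A) bT y v t)
    have e1 : (E2 (bWT bT)).l.act s ((hatT bT).f q) w =
      (hatT bT).f q (hr A (xBar (bOut A) bT (bIn A) (out_in A)).r w (A.P s)) -
        EW (Bar (bOut A).r bT.l) A.toSD ((hatT bT).f q
          (hr A (xBar (bOut A) bT (bIn A) (out_in A)).r w (s - A.P s))) := rfl
    have hA : hn A (barT (bOut A) (bOut A) bT (kap (bOut A)) (kap_isHom (bOut A))) q
          (hr A (xBar (bOut A) bT (bIn A) (out_in A)).r w (A.P s)) =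
        hn A (barT (bOut A) (bOut A) bT (kap (bOut A)) (kap_isHom (bOut A)))
          ((oL A).act (A.P s) q) w := by
      rw [hm2, A.PP, sub_self, map_zero, LinearMap.zero_apply, map_zero, LinearMap.zero_apply,
        add_zero]
    have hB : EW (Bar (bOut A).r bT.l) A.toSD
          (hn A (barT (bOut A) (bOut A) bT (kap (bOut A)) (kap_isHom (bOut A))) q
            (hr A (xBar (bOut A) bT (bIn A) (out_in A)).r w (s - A.P s))) =
        - hn A (barT (bOut A) (bOut A) bT (kap (bOut A)) (kap_isHom (bOut A)))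
          ((oL A).act (s - A.P s) q) w := by
      have h1 : A.P (s - A.P s) = 0 := by rw [map_sub, A.PP, sub_self]
      rw [hm2, h1, map_zero,
        LinearMap.zero_apply, map_zero, LinearMap.zero_apply, zero_add, sub_zero, hn_EW, EW_EW,
        (oL A).E_act, (QQ A).EE, A.E_odd, map_neg, LinearMap.neg_apply, map_neg,
        LinearMap.neg_apply]
    rw [e1, hatT_apply, hatT_apply, hatT_apply, hA, hB, sub_neg_eq_add, ← LinearMap.add_apply,
      ← map_add, ← LinearMap.add_apply, ← map_add, add_sub_cancel]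
    rfl
  · intro q t
    refine LinearMap.ext (fun w => ?_)
    have h := kap_comm (bOut A) (bIn A) (out_in A)
    have e1 : (E2 (bWT bT)).r.act ((hatT bT).f q) t w =
      hr A (xBar (bOut A) bT (bIn A) (out_in A)).r ((hatT bT).f q w) (A.P t) +
        hr A (xBar (bOut A) bT (bIn A) (out_in A)).r
          ((hatT bT).f q (EW (Bar (bOut A).r bT.l) A.toSD w)) (t - A.P t) := rfl
    rw [e1, hatT_apply, hatT_apply, hatT_apply]
    refine hn_rY (barT (bOut A) (bOut A) bT (kap (bOut A)) (kap_isHom (bOut A))) (iR A)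
      (xBar (bOut A) bT (bIn A) (out_in A)).r (fun y v s => ?_) q t w
    rw [barT_tmul, barT_tmul, barT_tmul]
    exact hb_rY (kap (bOut A)) (iR A) (bOut A) (bOut A) bT (iR A) (out_in A).rr
      (fun y x s => RA.tensL_isHom_iff (iR A) (iR A) (kap (bOut A)) h.r y x s) y s v

end NC
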