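import Mathlib
import Pool.Agent.H36.NX.DDF
import Pool.Agent.H16.NC.ZB
import Pool.Agent.H94.NT.TwoTa
import Pool.Agent.H94.NT.GamG

/-!
# QW : the bimodule `W = HC(A; Bar(Q, A, Θ))` is quasi-isomorphic to `Θ`

`qW` is `b ⊗ a ⊗ θ ↦ ± b θ a` on the empty words and zero on the others: first exchange the two
factors of `Q` (`swQ`, `swQ_isHom : bOut → bIn`), then `ddFr` (H36/NX/DDF.lean: contraction of
`(A ⊗ A) ⊗ T(A) ⊗ Θ` to `A ⊗ Θ` and `frAug`).  Compare `qV`, `qV_qi`, `qV_isHom`, `qV_kap`,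
`qV_hat` in H28/NC/TwoC.lean.  `qW_qi`: `swQ` is an involution (`BM.qi_of_bij`), `qi_bar`,
`QI_hc`, `ddFr_qi`.  First prove `qW_nil_nil` and `qW_nil_snoc`, `qW_snoc`, the other statements
follow by induction on words (`hd_nil`, `hr_nil`, `hn_nil`, `hb_tmul`, `barRX_act`, ...).
-/

set_option autoImplicit false

open scoped TensorProduct

noncomputable section

namespace NC

variable {k : Type} [Field k] {A : DGA k}

/-- the exchange of the factors of `Q` on the bar complexes -/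
def swB (T : BMod A A) : SD.Hom (GG (bOut A) T.b) (GG (bIn A) T.b) :=
  hcN ((bOut A).bar T.b) ((bIn A).bar T.b)
    (barMap (swQ A) (SD.Hom.id T.N) swQ_isHom.r (LA.isHom_id T.b.l))
    (barMap_isHom swQ_isHom (Bi.isHom_id T.b))

/-- `W → Θ` -/
def qW (T : BMod A A) : SD.Hom (GG (bOut A) T.b) T.N := (ddFr T).comp (swB T)

theorem qW_nil_nil (T : BMod A A) (b a : A.V) (y : T.N.V) :
    (qW T).f (Wd.nil (Wd.nil (b ⊗ₜ a) ⊗ₜ y)) =
      T.b.r.act (T.b.l.act b (T.N.P y)) a + T.b.r.act (T.b.l.act b (y - T.N.P y)) (A.E a) := by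
  have e5 : A.P (a - A.P a) = 0 := by rw [map_sub, A.PP, sub_self]
  change (frAug T.b.r).f (Wd.nil ((augVL A.toSD T.b.l).f
    (Wd.nil ((swQ A).f (b ⊗ₜ a)) ⊗ₜ[k] y))) = _
  rw [swQ_tmul, map_add, TensorProduct.add_tmul, map_add, augVL_nil, augVL_nil, map_add, map_add,
    frAug_nil, frAug_nil, e5, A.PP, sub_self, sub_zero, map_zero, map_zero, T.b.l.E_act, A.EE,
    add_zero, zero_add]
  simp only [SD.E_apply, map_add, map_sub, LinearMap.add_apply, LinearMap.sub_apply]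
  abel

theorem qW_nil_snoc (T : BMod A A) (w : Wd k (QQ A).V A.V) (r : A.V) (y : T.N.V) :
    (qW T).f (Wd.nil (Wd.snoc w r ⊗ₜ y)) = 0 := by
  have h1 : ∀ (u : Wd k (A.V ⊗[k] A.V) A.V) (r : A.V), (augVL A.toSD T.b.l).f
      (Wd.snoc u r ⊗ₜ[k] y) = 0 := fun u r => augF_snoc (actVL A.toSD T.b.l).f u r y
  change (frAug T.b.r).f (Wd.mh A.V (augVL A.toSD T.b.l).f
    (Wd.mh A.V (barMap (swQ A) (SD.Hom.id T.N) swQ_isHom.r (LA.isHom_id T.b.l)).f
      (Wd.nil (Wd.snoc w r ⊗ₜ[k] y)))) = 0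
  rw [Wd.mh_nil, Wd.mh_nil, barMap_tmul, Wd.map_snoc, SD.Hom.id_f, h1, map_zero, map_zero]

theorem qW_snoc (T : BMod A A) (w : (GG (bOut A) T.b).V) (r : A.V) :
    (qW T).f (Wd.snoc w r) = 0 := by
  change (frAug T.b.r).f (Wd.mh A.V (augVL A.toSD T.b.l).f
    (Wd.mh A.V (barMap (swQ A) (SD.Hom.id T.N) swQ_isHom.r (LA.isHom_id T.b.l)).f
      (Wd.snoc w r))) = 0
  rw [Wd.mh_snoc, Wd.mh_snoc, frAug_snoc]

theorem qW_qi (T : BMod A A) : (qW T).QI := by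
  have q1 : (swB T).QI := QI_hc _ _ _ _ (qi_bar swQ_isHom.r (LA.isHom_id T.b.l)
    (BM.qi_of_bij (swQ A) (swQ A).f (fun x => swQ_swQ x) (fun x => swQ_swQ x))
    (SD.Hom.QI.id T.N))
  exact (ddFr_qi T).comp q1

/-- the value of `qW` on `nil t`, `t` in the bar complex -/
private def qWt (T : BMod A A) : Wd k (A.V ⊗[k] A.V) A.V ⊗[k] T.N.V →ₗ[k] T.N.V :=
  (qW T).f ∘ₗ Wd.nil

private theorem qWt_nil (T : BMod A A) (b a : A.V) (y : T.N.V) :
    qWt T (Wd.nil (b ⊗ₜ a) ⊗ₜ y) =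
      T.b.r.act (T.b.l.act b (T.N.P y)) a + T.b.r.act (T.b.l.act b (y - T.N.P y)) (A.E a) :=
  qW_nil_nil T b a y

private theorem qWt_snoc (T : BMod A A) (w : Wd k (A.V ⊗[k] A.V) A.V) (r : A.V) (y : T.N.V) :
    qWt T (Wd.snoc w r ⊗ₜ y) = 0 := qW_nil_snoc T w r y

/-- `n ↦ qW (nil (nil n ⊗ y))` -/
private def qWy (T : BMod A A) (y : T.N.V) : A.V ⊗[k] A.V →ₗ[k] T.N.V :=
  qWt T ∘ₗ (TensorProduct.mk k (Wd k (A.V ⊗[k] A.V) A.V) T.N.V).flip y ∘ₗ Wd.nil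

private theorem qWy_eq (T : BMod A A) (y : T.N.V) (n : A.V ⊗[k] A.V) :
    qWt T (Wd.nil n ⊗ₜ y) = qWy T y n := rfl

private theorem qWy_tmul (T : BMod A A) (b a : A.V) (y : T.N.V) :
    qWy T y (b ⊗ₜ a) =
      T.b.r.act (T.b.l.act b (T.N.P y)) a + T.b.r.act (T.b.l.act b (y - T.N.P y)) (A.E a) :=
  qW_nil_nil T b a y

private theorem qWy_l (T : BMod A A) (s : A.V) (y : T.N.V) (n : A.V ⊗[k] A.V) :
    qWy T y ((iL A).act s n) = T.b.l.act s (qWy T y n) := by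
  refine tens_ext (f := qWy T y ∘ₗ (iL A).act s) (g := T.b.l.act s ∘ₗ qWy T y)
    (fun b a => ?_) n
  change qWy T y ((s * b) ⊗ₜ[k] a) = T.b.l.act s (qWy T y (b ⊗ₜ a))
  rw [qWy_tmul, qWy_tmul, map_add, ← T.b.lr, ← T.b.lr, ← T.b.l.mul_act, ← T.b.l.mul_act]

private theorem qWy_r (T : BMod A A) (s : A.V) (y : T.N.V) (n : A.V ⊗[k] A.V) :
    qWy T y ((iR A).act n (A.P s)) + qWy T (T.N.E y) ((iR A).act n (s - A.P s)) =
      T.b.r.act (qWy T y n) s := by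
  refine tens_ext (f := qWy T y ∘ₗ (iR A).act.flip (A.P s) +
      qWy T (T.N.E y) ∘ₗ (iR A).act.flip (s - A.P s))
    (g := T.b.r.act.flip s ∘ₗ qWy T y) (fun b a => ?_) n
  change qWy T y (b ⊗ₜ[k] (a * A.P s)) + qWy T (T.N.E y) (b ⊗ₜ[k] (a * (s - A.P s))) =
    T.b.r.act (qWy T y (b ⊗ₜ a)) s
  rw [qWy_tmul, qWy_tmul, qWy_tmul, map_add, LinearMap.add_apply, T.b.r.act_mul,
    T.b.r.act_mul, T.N.PE, A.E_mul, A.E_mul, A.EP, A.E_odd]
  simp only [T.N.E_apply, mul_sub, mul_neg, map_sub, map_add, map_neg, LinearMap.sub_apply,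
    LinearMap.add_apply, LinearMap.neg_apply]
  abel

private theorem qWt_l (T : BMod A A) (s : A.V) (t : Wd k (A.V ⊗[k] A.V) A.V ⊗[k] T.N.V) :
    qWt T ((xBar (bOut A) T.b (bIn A) (out_in A)).l.act s t) = T.b.l.act s (qWt T t) := by
  refine tens_ext (f := qWt T ∘ₗ (xBar (bOut A) T.b (bIn A) (out_in A)).l.act s)
    (g := T.b.l.act s ∘ₗ qWt T) (fun w y => ?_) t
  change qWt T (hd A (iL A) s w ⊗ₜ[k] y) = T.b.l.act s (qWt T (w ⊗ₜ y))
  induction w using Wd.induction with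
  | hadd u v hu hv => rw [map_add, TensorProduct.add_tmul, map_add, hu, hv,
      TensorProduct.add_tmul, map_add, map_add]
  | hsnoc w _ r => rw [hd_snoc, qWt_snoc, qWt_snoc, map_zero]
  | hnil n => rw [hd_nil, qWy_eq, qWy_eq, qWy_l]

private theorem qWt_r (T : BMod A A) (t : Wd k (A.V ⊗[k] A.V) A.V ⊗[k] T.N.V) (s : A.V) :
    qWt T ((xBar (bOut A) T.b (bIn A) (out_in A)).r.act t s) = T.b.r.act (qWt T t) s := by
  refine tens_ext (f := qWt T ∘ₗ (xBar (bOut A) T.b (bIn A) (out_in A)).r.act.flip s)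
    (g := T.b.r.act.flip s ∘ₗ qWt T) (fun w y => ?_) t
  change qWt T (hr A (iR A) w (A.P s) ⊗ₜ[k] y + hr A (iR A) w (s - A.P s) ⊗ₜ[k] T.N.E y) =
    T.b.r.act (qWt T (w ⊗ₜ y)) s
  rw [map_add]
  induction w using Wd.induction with
  | hadd u v hu hv =>
    rw [map_add, LinearMap.add_apply, LinearMap.add_apply, TensorProduct.add_tmul,
      TensorProduct.add_tmul, TensorProduct.add_tmul, map_add, map_add, map_add, map_add,
      LinearMap.add_apply, ← hu, ← hv]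
    abel
  | hsnoc w _ r =>
    rw [hr_snoc, hr_snoc, TensorProduct.sub_tmul, TensorProduct.sub_tmul, map_sub (qWt T),
      map_sub (qWt T), qWt_snoc, qWt_snoc, qWt_snoc, qWt_snoc, qWt_snoc, sub_zero, add_zero, map_zero,
      LinearMap.zero_apply]
  | hnil n => rw [hr_nil, hr_nil, qWy_eq, qWy_eq, qWy_eq, qWy_r]

theorem qW_isHom (T : BMod A A) : (bWT T.b).IsHom T.b (qW T) := by
  constructor
  · intro s w
    change (qW T).f (hd A (xBar (bOut A) T.b (bIn A) (out_in A)).l s w) =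
      T.b.l.act s ((qW T).f w)
    induction w using Wd.induction with
    | hadd a b ha hb => simp only [map_add, ha, hb]
    | hsnoc w _ r => rw [hd_snoc, qW_snoc, qW_snoc, map_zero]
    | hnil t =>
      rw [hd_nil]
      exact qWt_l T s t
  · intro w s
    change (qW T).f (hr A (xBar (bOut A) T.b (bIn A) (out_in A)).r w s) =
      T.b.r.act ((qW T).f w) s
    induction w using Wd.induction with
    | hadd a b ha hb => simp only [map_add, LinearMap.add_apply, ha, hb]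
    | hsnoc w _ r =>
      rw [hr_snoc, map_sub, qW_snoc, qW_snoc, qW_snoc, map_zero, LinearMap.zero_apply, sub_zero]
    | hnil t =>
      rw [hr_nil]
      exact qWt_r T t s

/-- the key identity on pure tensors -/
private theorem qWy_kap (T : BMod A A) (y : T.N.V) (x n : (QQ A).V) :
    qWy T y ((kap (bOut A)).f (x ⊗ₜ n)) = (gamG T.b).f x (qWy T y n) := by
  refine tens_ext (f := qWy T y ∘ₗ (kap (bOut A)).f ∘ₗ
      (TensorProduct.mk k (QQ A).V (QQ A).V).flip n)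
    (g := LinearMap.applyₗ (qWy T y n) ∘ₗ (gamG T.b).f) (fun b' a' => ?_) x
  refine tens_ext (f := qWy T y ∘ₗ (kap (bOut A)).f ∘ₗ
      (TensorProduct.mk k (QQ A).V (QQ A).V) (b' ⊗ₜ a'))
    (g := (gamG T.b).f (b' ⊗ₜ a') ∘ₗ qWy T y)
    (fun b a => ?_) n
  have e1 : ∀ (s b a : A.V), (oR A).act (b ⊗ₜ a) s = (b * A.P s) ⊗ₜ[k] a +
    (b * (s - A.P s)) ⊗ₜ[k] A.E a := fun _ _ _ => rfl
  have e2 : ∀ (s b a : A.V), (oL A).act s (b ⊗ₜ a) = b ⊗ₜ[k] (A.P s * a) +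
    A.E b ⊗ₜ[k] ((s - A.P s) * a) := fun _ _ _ => rfl
  have e3 : ∀ (b a : A.V), (QQ A).E (b ⊗ₜ a) = A.E b ⊗ₜ A.E a :=
    fun b a => SD.tens_E A.toSD A.toSD b a
  have e5 : ∀ s : A.V, A.P (s - A.P s) = 0 := fun s => by rw [map_sub, A.PP, sub_self]
  change qWy T y ((kap (bOut A)).f ((b' ⊗ₜ a') ⊗ₜ (b ⊗ₜ a))) =
    (gamG T.b).f (b' ⊗ₜ a') (qWy T y (b ⊗ₜ a))
  rw [kap_tmul, gamG_tmul]
  change qWy T y ((oL A).act (A.P a) ((oR A).act (b' ⊗ₜ a') b) +
    (oL A).act (a - A.P a) ((QQ A).E ((oR A).act (b' ⊗ₜ a') b))) = _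
  rw [e1, map_add (oL A |>.act (A.P a)), map_add (QQ A).E, map_add (oL A |>.act (a - A.P a)),
    e3, e3, e2, e2, e2, e2, e5, A.PP, sub_self, sub_zero]
  simp only [zero_mul, TensorProduct.tmul_zero, add_zero, zero_add]
  simp only [map_add, qWy_tmul, A.EE, A.E_mul, A.EP, A.E_odd, map_zero, add_zero, zero_add]
  simp only [map_sub, map_neg, T.b.r.P_act, T.b.l.P_act, A.E_apply, A.PP, T.N.PP, mul_add,
    add_mul, mul_sub, sub_mul, mul_neg, neg_mul, T.b.l.mul_act, ← T.b.r.act_mul, T.b.lr,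
    LinearMap.add_apply, LinearMap.sub_apply, LinearMap.neg_apply, map_add, sub_self, map_zero,
    add_zero, zero_add, LinearMap.zero_apply]
  abel

theorem qW_hat (T : BMod A A) (x : (QQ A).V) (w : (GG (bOut A) T.b).V) :
    (qW T).f ((hatT T.b).f x w) = (gamG T.b).f x ((qW T).f w) := by
  rw [hatT_apply]
  induction w using Wd.induction with
  | hadd a b ha hb => simp only [map_add, ha, hb]
  | hsnoc w _ r => rw [hn_snoc, qW_snoc, qW_snoc, map_zero]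
  | hnil t =>
    rw [hn_nil, bl_apply, barT_tmul]
    refine tens_ext (f := qWt T ∘ₗ hb A T.N (kap (bOut A)) x)
      (g := (gamG T.b).f x ∘ₗ qWt T) (fun w y => ?_) t
    change qWt T (hn A (kap (bOut A)) x w ⊗ₜ[k] y) = (gamG T.b).f x (qWt T (w ⊗ₜ[k] y))
    induction w using Wd.induction with
    | hadd u v hu hv => rw [map_add, TensorProduct.add_tmul, map_add, hu, hv,
        TensorProduct.add_tmul, map_add, map_add]
    | hsnoc w _ r => rw [hn_snoc, qWt_snoc, qWt_snoc, map_zero]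
    | hnil n => rw [hn_nil, bl_apply, qWy_eq, qWy_eq, qWy_kap]

theorem finH_WT (T : BMod A A) (hT : T.N.FinH) : (GG (bOut A) T.b).FinH := (qW_qi T).finH' hT

end NC
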