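import Mathlib
import Pool.Agent.H94.NT.TwoT
import Pool.Agent.H94.NC.TwoBf

/-!
# TwoTb : the bimodule maps `M → Q` act on `Φ`

Copy of `iota_isHom`, `HCf_muE`, `hat_nuE`, `HCf_id` (H94/NC/TwoBf.lean) with one more level:
`hn_hn` for the outer words, its hypothesis is `hb_hb` (BPair.lean), whose hypothesis is
`muE_apply` resp. `kap_nat`.
-/

set_option autoImplicit false

open scoped TensorProduct

noncomputable section

namespace NC

variable {k : Type} [Field k] {A : DGA k} {M Θ : SD k}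

theorem iotaT_isHom (bM : Bi A A M) (bT : Bi A A Θ) :
    (bMv bM).IsHom (Nb (bWT bT) (GG bM bT)) (HCT bM (bOut A) bT) := by
  constructor
  · intro s ξ
    refine LinearMap.ext (fun w => ?_)
    refine (HCT_apply bM (bOut A) bT _ w).trans ?_
    refine Eq.trans ?_ (congrArg (hd A (xBar (bOut A) bT (bIn A) (out_in A)).l s)
      (HCT_apply bM (bOut A) bT ξ w)).symm
    refine hn_hdS (barT bM (bOut A) bT (evBi bM (bOut A)) (evBi_isHom bM (bOut A))) (bMv bM).l
      (xBar (bOut A) bT (bIn A) (out_in A)).l (fun r y x => ?_) s ξ w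
    rw [barT_tmul, barT_tmul]
    exact hb_hdS (evBi bM (bOut A)) (bMv bM).l (bOut A) bT (iL A) (out_in A).rl
      (fun r y x => rfl) r y x
  · intro ξ t
    refine LinearMap.ext (fun w => ?_)
    have e1 : (Nb (bWT bT) (GG bM bT)).r.act ((HCT bM (bOut A) bT).f ξ) t w =
      hr A (xBar (bOut A) bT (bIn A) (out_in A)).r ((HCT bM (bOut A) bT).f ξ w) (A.P t) +
        hr A (xBar (bOut A) bT (bIn A) (out_in A)).r
          ((HCT bM (bOut A) bT).f ξ (EW (Bar bM.r bT.l) A.toSD w)) (t - A.P t) := rfl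
    rw [e1, HCT_apply, HCT_apply, HCT_apply]
    refine hn_rY (barT bM (bOut A) bT (evBi bM (bOut A)) (evBi_isHom bM (bOut A))) (bMv bM).r
      (xBar (bOut A) bT (bIn A) (out_in A)).r (fun y x s => ?_) ξ t w
    rw [barT_tmul, barT_tmul, barT_tmul]
    exact hb_rY (evBi bM (bOut A)) (bMv bM).r bM (bOut A) bT (iR A) (out_in A).rr
      (fun y x s => rfl) y s x

theorem HCT_muE (bM : Bi A A M) (bT : Bi A A Θ) (x : M.V) (ξ : (Mv bM).V) :
    (HCT bM bM bT).f ((muE bM bM).f (x ⊗ₜ ξ)) =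
      (muN (hatPT bM bT)).f (x ⊗ₜ (HCT bM (bOut A) bT).f ξ) := by
  refine LinearMap.ext (fun w => ?_)
  change _ = (hatPT bM bT).f (x ⊗ₜ (HCT bM (bOut A) bT).f ξ w)
  refine (HCT_apply bM bM bT _ w).trans ?_
  refine Eq.trans ?_ (hatPT_tmul bM bT x ((HCT bM (bOut A) bT).f ξ w)).symm
  rw [HCT_apply]
  refine (hn_hn (barT (bOut A) bM bT (kap bM) (kap_isHom bM))
    (barT bM (bOut A) bT (evBi bM (bOut A)) (evBi_isHom bM (bOut A)))
    (barT bM bM bT (evBi bM bM) (evBi_isHom bM bM)) x ξ ((muE bM bM).f (x ⊗ₜ ξ))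
    (fun y => ?_) w).symm
  rw [barT_tmul, barT_tmul, barT_tmul]
  exact hb_hb (kap bM) (evBi bM (bOut A)) (evBi bM bM) x ξ ((muE bM bM).f (x ⊗ₜ ξ))
    (fun y => (muE_apply bM bM x ξ y).symm) y

theorem hatT_nuE (bM : Bi A A M) (bT : Bi A A Θ) (ξ : (Mv bM).V) (x : M.V) :
    (hatT bT).f ((nuE bM).f (ξ ⊗ₜ x)) =
      (nuN (hatPT bM bT)).f ((HCT bM (bOut A) bT).f ξ ⊗ₜ x) := by
  refine LinearMap.ext (fun w => ?_)
  change _ = (HCT bM (bOut A) bT).f ξ ((hatPT bM bT).f (x ⊗ₜ w))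
  rw [hatT_apply, hatPT_tmul, HCT_apply]
  refine (hn_hn (barT bM (bOut A) bT (evBi bM (bOut A)) (evBi_isHom bM (bOut A)))
    (barT (bOut A) bM bT (kap bM) (kap_isHom bM))
    (barT (bOut A) (bOut A) bT (kap (bOut A)) (kap_isHom (bOut A))) ξ x
    ((nuE bM).f (ξ ⊗ₜ x)) (fun q => ?_) w).symm
  rw [barT_tmul, barT_tmul, barT_tmul]
  exact hb_hb (evBi bM (bOut A)) (kap bM) (kap (bOut A)) ξ x ((nuE bM).f (ξ ⊗ₜ x))
    (fun q => kap_nat bM (bOut A) ξ x q) q

theorem HCT_id (bM : Bi A A M) (bT : Bi A A Θ) :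
    (HCT bM bM bT).f (EndBi bM).one = LinearMap.id := by
  refine LinearMap.ext (fun w => ?_)
  rw [HCT_apply]
  change hn A (barT bM bM bT (evBi bM bM) (evBi_isHom bM bM)) (EndBi bM).one w = w
  have h0 : ∀ v : (Bar bM.r bT.l).V,
      (barT bM bM bT (evBi bM bM) (evBi_isHom bM bM)).f ((EndBi bM).one ⊗ₜ v) = v := by
    intro v
    rw [barT_tmul]
    refine tens_ext (f := hb A Θ (evBi bM bM) (EndBi bM).one) (g := LinearMap.id)
      (fun u y => ?_) v
    rw [hb_tmul, LinearMap.id_apply]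
    congr 1
    induction u using Wd.induction with
    | hadd a b ha hb => rw [map_add, ha, hb]
    | hnil x => rw [hn_nil]; rfl
    | hsnoc w hw r => rw [hn_snoc, hw]
  induction w using Wd.induction with
  | hadd a b ha hb => rw [map_add, ha, hb]
  | hnil x => rw [hn_nil, bl_apply, h0]
  | hsnoc w hw r => rw [hn_snoc, hw]

end NC
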