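import Mathlib
import Pool.Agent.H94.NT.TwoTa
import Pool.Agent.H94.NT.TwoTb

/-!
# TwoTc : Two-B with coefficients

Copy of `twoB` (H94/NC/TwoBf.lean): `hat`, `hatP`, `HCf`, `bVQ` become `hatT`, `hatPT`, `HCT`,
`bWT`; `HC bM` becomes `GG bM bT`, `HC (bOut A)` becomes `GG (bOut A) bT`.
-/

set_option autoImplicit false

open scoped TensorProduct

noncomputable section

namespace NC

variable {k : Type} [Field k] {A : DGA k} {M Θ : SD k}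

/-- **Two-B with coefficients** -/
theorem twoBT (bM : Bi A A M) (bT : Bi A A Θ) (hQ : (GG (bOut A) bT).FinH)
    (hM : (GG bM bT).FinH) (z : (GG bM (bMv bM)).V) (hz : (GG bM (bMv bM)).D z = 0)
    (h : (HomBi bM bM).V) (hc : (contrE bM bM).f z = (EndBi bM).one + (HomBi bM bM).D h) :
    SD.chi (GG bM bT) = tau (bWT bT) hQ (SD.Coh.map (hc2 (Q1_Q2 A) (E1_E2 (bWT bT))
      (hatT bT) (hatT_Q1 bT) (hatT_Q2 bT)) (SD.Coh.map (rotE bM) (SD.Coh.mk z hz))) := by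
  have hd := hatPT_muD bM bT
  let g := gMap (bX := bM) (bX' := bM) (SD.Hom.id M) (Bi.isHom_id bM) (HCT bM (bOut A) bT)
    (iotaT_isHom bM bT)
  have h1 := contrG_gMap (SD.Hom.id M) (Bi.isHom_id bM) (HCT bM (bOut A) bT) (iotaT_isHom bM bT)
    (muD_E bM bM) (muN_D bM (bWT bT) (hatPT bM bT) hd) (HCT bM bM bT)
    (fun x ξ => HCT_muE bM bT x ξ) z
  have h2 := bG_gMap (SD.Hom.id M) (Bi.isHom_id bM) (HCT bM (bOut A) bT) (iotaT_isHom bM bT)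
    (Q1_Q2 A) (E1_E2 (bWT bT)) (nuD_E bM) (nuN_D bM (bWT bT) (hatPT bM bT) hd) (hatT bT)
    (hatT_Q1 bT) (hatT_Q2 bT) (fun ξ x => hatT_nuE bM bT ξ x) z
  have h3 := pair_tr bM (bWT bT) (hatPT bM bT) hd hM hQ (SD.Coh.map g (SD.Coh.mk z hz))
  rw [SD.Coh.map_mk, SD.Coh.map_mk, SD.Coh.map_mk] at h3
  rw [SD.Coh.map_mk, SD.Coh.map_mk]
  have h4 : SD.Coh.mk (N := HC2 (E1 (bWT bT)) (E2 (bWT bT)) (E1_E2 (bWT bT)))
      ((bG bM (Nb (bWT bT) (GG bM bT)) (E1 (bWT bT)) (E2 (bWT bT)) (E1_E2 (bWT bT))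
        (nuN (hatPT bM bT)) (nuN_D bM (bWT bT) (hatPT bM bT) hd)).f (g.f z)) (by
          rw [← SD.Hom.D, ← SD.Hom.D, hz, map_zero, map_zero]) =
      SD.Coh.mk ((hc2 (Q1_Q2 A) (E1_E2 (bWT bT)) (hatT bT) (hatT_Q1 bT) (hatT_Q2 bT)).f
        ((rotE bM).f z)) (by rw [← SD.Hom.D, ← SD.Hom.D, hz, map_zero, map_zero]) :=
    SD.Coh.mk_congr _ _ h2.symm
  rw [← h4]
  refine Eq.trans ?_ h3
  rw [← tauV_id (GG bM bT) hM]
  refine congrArg (tauV (GG bM bT) hM) ?_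
  refine (SD.Coh.mk_eq_mk _ _).2 ?_
  have h5 : (contrG bM (Nb (bWT bT) (GG bM bT)) (muN (hatPT bM bT))
      (muN_D bM (bWT bT) (hatPT bM bT) hd)).f (g.f z) =
      LinearMap.id + (SD.hom (GG bM bT) (GG bM bT)).D ((HCT bM bM bT).f h) := by
    rw [← h1]
    have h6 : (HCT bM bM bT).f ((contrE bM bM).f z) =
      (HCT bM bM bT).f (EndBi bM).one + (HCT bM bM bT).f ((HomBi bM bM).D h) := by
      rw [hc, map_add]
    rw [HCT_id, (HCT bM bM bT).D] at h6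
    exact h6
  rw [h5]
  exact ⟨-(HCT bM bM bT).f h, by rw [map_neg]; abel⟩

end NC
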