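import Mathlib
import Pool.Agent.H94.NT.TwoTc
import Pool.Agent.H94.NT.QW
import Pool.Agent.H28.NC.TwoC
import Pool.Agent.H16.NC.Lef

/-!
# TwoTd : the Euler characteristic of `HC(A; Bar(M, A, Θ))` as a pairing with `Θ`

`twoBT`, then `tau_comp` (H28/NC/TwoC.lean) along `qW` as in `tau_hat`, `twoC`.
-/

set_option autoImplicit false

open scoped TensorProduct

noncomputable section

namespace NC

variable {k : Type} [Field k] {A : DGA k} {M : SD k}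

/-- the pairing of the homology of `Q` with the bimodule `Θ` -/
def tauQ (T : BMod A A) (hT : T.N.FinH) : (HC2 (bQ1 A) (bQ2 A) (Q1_Q2 A)).Coh →ₗ[k] k :=
  tau T.b hT ∘ₗ SD.Coh.map (hc2 (Q1_Q2 A) (E1_E2 T.b) (gamG T.b) (gamG_E1 T.b) (gamG_E2 T.b))

/-- **Two-B and Two-C with coefficients** -/
theorem chi_GG (bM : Bi A A M) (T : BMod A A) (hT : T.N.FinH)
    (hM : (GG bM T.b).FinH) (z : (GG bM (bMv bM)).V) (hz : (GG bM (bMv bM)).D z = 0)
    (h : (HomBi bM bM).V) (hc : (contrE bM bM).f z = (EndBi bM).one + (HomBi bM bM).D h) :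
    SD.chi (GG bM T.b) = tauQ T hT (SD.Coh.map (rotE bM) (SD.Coh.mk z hz)) := by
  refine (twoBT bM T.b (finH_WT T hT) hM z hz h hc).trans ?_
  rw [tauQ, LinearMap.comp_apply, SD.Coh.map_mk, SD.Coh.map_mk, SD.Coh.map_mk]
  exact tau_comp (Q1_Q2 A) (finH_WT T hT) hT (qW_isHom T) (qW_qi T) (hatT T.b) (hatT_Q1 T.b)
    (hatT_Q2 T.b) (gamG T.b) (gamG_E1 T.b) (gamG_E2 T.b) (fun x w => qW_hat T x w) _ _

/-- bimodule quasi-isomorphisms do not change the pairing -/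
theorem tauQ_qi (T T' : BMod A A) (hT : T.N.FinH) (hT' : T'.N.FinH) (q : BMod.Hom T T')
    (hq : q.toHom.QI) (c : (HC2 (bQ1 A) (bQ2 A) (Q1_Q2 A)).Coh) :
    tauQ T hT c = tauQ T' hT' c := by
  obtain ⟨z, hz, rfl⟩ := SD.Coh.exists_mk c
  rw [tauQ, tauQ, LinearMap.comp_apply, LinearMap.comp_apply, SD.Coh.map_mk, SD.Coh.map_mk]
  exact tau_comp (Q1_Q2 A) hT hT' q.isHom hq (gamG T.b) (gamG_E1 T.b) (gamG_E2 T.b)
    (gamG T'.b) (gamG_E1 T'.b) (gamG_E2 T'.b)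
    (fun x v => gamG_nat T.b T'.b q.toHom q.isHom x v) _ _

/-- for the diagonal bimodule this is `tauZ` -/
theorem tauQ_diag (hA : A.toSD.FinH) (c : (HC2 (bQ1 A) (bQ2 A) (Q1_Q2 A)).Coh) :
    tauQ (BMod.diag A) hA c = tauZ hA c := by
  obtain ⟨z, hz, rfl⟩ := SD.Coh.exists_mk c
  rw [tauQ, tauZ, LinearMap.comp_apply, LinearMap.comp_apply, SD.Coh.map_mk, SD.Coh.map_mk]
  have e : (gamG A.diag).f = (gam A).f := LinearMap.ext gamG_diag
  refine congrArg (tau A.diag hA) (SD.Coh.mk_congr _ _ ?_)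
  change Wd.mh A.V (Wd.mh A.V (gamG A.diag).f) z = Wd.mh A.V (Wd.mh A.V (gam A).f) z
  rw [e]

end NC
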