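import Mathlib
import Pool.Agent.H94.NT.ResM
import Pool.Agent.H94.NT.TwoTd

/-!
# CnrT : corners

`f g : A → B` homomorphisms of dg algebras, `V` an `(A, A)`-bimodule which sits in `B` as a corner:
`io : V → B`, `pr : B → V`, `pr io = 1`, everything compatible with `f` on the left, with `g` on
the right.  Then the pairing of `V` is the pairing of `B` along `qF f g`.

Proof of `tau_cnr`: `φ ↦ io φ pr` is `SD.hom V V → SD.hom B B`, compatible with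
`E1 bV → (E1 B.diag).res f f`, `E2 bV → (E2 B.diag).res g g`; by `c` it maps `gamG bV (a ⊗ a')` to
`gam B (f a ⊗ g a')`, hence (functoriality of `Wd.map`, induction on words) `hcG2 (io·pr) ∘
hc2 gamG = hc2 gam ∘ qF f g`.  The dual version `λ ⊗ v ↦ (λ ∘ pr) ⊗ io v` is compatible with
`dualTens` and `trD` (`pi`).  Choose `p` with `cE p ~ y` (`cE_qi`), use `tauG_mk` on both sides
(compare `tau_comp` in H28/NC/TwoC.lean).
-/

set_option autoImplicit false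

open scoped TensorProduct

noncomputable section

namespace NC

variable {k : Type} [Field k] {A B : DGA k}

/-- `V` is a corner of `B` -/
structure Cnr (f g : DGA.NHom A B) {V : SD k} (bV : Bi A A V) where
  io : SD.Hom V B.toSD
  pr : SD.Hom B.toSD V
  pi : ∀ v, pr.f (io.f v) = v
  il : ∀ (a : A.V) (v : V.V), io.f (bV.l.act a v) = f.f a * io.f v
  ir : ∀ (v : V.V) (a : A.V), io.f (bV.r.act v a) = io.f v * g.f a
  pl : ∀ (a : A.V) (w : B.V), pr.f (f.f a * w) = bV.l.act a (pr.f w)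
  pR : ∀ (w : B.V) (a : A.V), pr.f (w * g.f a) = bV.r.act (pr.f w) a
  c : ∀ (a : A.V) (w : B.V) (a' : A.V), f.f a * io.f (pr.f w) * g.f a' = f.f a * w * g.f a'

/-! ### auxiliary lemmas on words -/

section words

variable {N N' N'' R R' : Type} [AddCommGroup N] [Module k N] [AddCommGroup N'] [Module k N']
  [AddCommGroup N''] [Module k N''] [AddCommGroup R] [Module k R] [AddCommGroup R'] [Module k R']

private theorem cn_wm_mh (G : N →ₗ[k] N') (F : N' →ₗ[k] N'') (h : R →ₗ[k] R') (w : Wd k N R) :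
    Wd.map F h (Wd.mh R G w) = Wd.map (F ∘ₗ G) h w := by
  induction w using Wd.induction with
  | hadd a b ha hb => simp only [map_add, ha, hb]
  | hnil n => rw [Wd.mh_nil, Wd.map_nil, Wd.map_nil, LinearMap.comp_apply]
  | hsnoc w hw r => rw [Wd.mh_snoc, Wd.map_snoc, Wd.map_snoc, hw]

private theorem cn_mh_wm (F : N →ₗ[k] N') (G : N' →ₗ[k] N'') (h : R →ₗ[k] R') (w : Wd k N R) :
    Wd.mh R' G (Wd.map F h w) = Wd.map (G ∘ₗ F) h w := by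
  induction w using Wd.induction with
  | hadd a b ha hb => simp only [map_add, ha, hb]
  | hnil n => rw [Wd.map_nil, Wd.mh_nil, Wd.map_nil, LinearMap.comp_apply]
  | hsnoc w hw r => rw [Wd.map_snoc, Wd.mh_snoc, Wd.map_snoc, hw]

private theorem cn_wm_congr {F F' : N →ₗ[k] N'} (h : R →ₗ[k] R') (e : ∀ n, F n = F' n)
    (w : Wd k N R) : Wd.map F h w = Wd.map F' h w := by
  rw [LinearMap.ext e]

end words

/-- the square of iterated Hochschild complexes -/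
private theorem cn_sq {f g : DGA.NHom A B} {N N' M M' : SD k} {b₁ b₂ : Bi A A N}
    {b₁' b₂' : Bi A A N'} {c₁ c₂ : Bi B B M} {c₁' c₂' : Bi B B M'} (h : Comm b₁ b₂)
    (h' : Comm b₁' b₂') (i : Comm c₁ c₂) (i' : Comm c₁' c₂') (φ : SD.Hom N N')
    (h1 : b₁.IsHom b₁' φ) (h2 : b₂.IsHom b₂' φ) (ψ : SD.Hom N' M')
    (h3 : b₁'.IsHom (c₁'.res f f) ψ) (h4 : b₂'.IsHom (c₂'.res g g) ψ) (φ' : SD.Hom N M)
    (h5 : b₁.IsHom (c₁.res f f) φ') (h6 : b₂.IsHom (c₂.res g g) φ') (ψ' : SD.Hom M M')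
    (h7 : c₁.IsHom c₁' ψ') (h8 : c₂.IsHom c₂' ψ')
    (he : ∀ n, ψ.f (φ.f n) = ψ'.f (φ'.f n)) (z : (HC2 b₁ b₂ h).V) :
    (hcG2 h' i' f g ψ h3 h4).f ((hc2 h h' φ h1 h2).f z) =
      (hc2 i i' ψ' h7 h8).f ((hcG2 h i f g φ' h5 h6).f z) := by
  change Wd.map (Wd.map ψ.f f.f) g.f (Wd.mh A.V (Wd.mh A.V φ.f) z) =
    Wd.mh B.V (Wd.mh B.V ψ'.f) (Wd.map (Wd.map φ'.f f.f) g.f z)
  rw [cn_wm_mh, cn_mh_wm]
  refine cn_wm_congr _ (fun w => ?_) z
  change Wd.map ψ.f f.f (Wd.mh A.V φ.f w) = Wd.mh B.V ψ'.f (Wd.map φ'.f f.f w)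
  rw [cn_wm_mh, cn_mh_wm]
  exact cn_wm_congr _ (fun n => he n) w

/-! ### the maps `Φ` and `Ψ` -/

section maps

variable {f g : DGA.NHom A B} {V : SD k} {bV : Bi A A V}

/-- `φ ↦ io φ pr` -/
private def cnPhi (C : Cnr f g bV) : SD.Hom (SD.hom V V) (SD.hom B.toSD B.toSD) :=
  (homPreK C.pr B.toSD).comp (homPost V C.io)

private theorem cnPhi_apply (C : Cnr f g bV) (φ : V.V →ₗ[k] V.V) (w : B.V) :
    (cnPhi C).f φ w = C.io.f (φ (C.pr.f w)) := rfl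

private theorem cnPhi_1 (C : Cnr f g bV) :
    (E1 bV).IsHom ((E1 B.diag).res f f) (cnPhi C) := by
  constructor
  · intro a φ
    refine LinearMap.ext (fun w => ?_)
    exact C.il a (φ (C.pr.f w))
  · intro φ a
    refine LinearMap.ext (fun w => ?_)
    change C.io.f (φ (bV.l.act a (C.pr.f w))) = C.io.f (φ (C.pr.f (f.f a * w)))
    rw [C.pl]

private theorem cnPhi_2 (C : Cnr f g bV) :
    (E2 bV).IsHom ((E2 B.diag).res g g) (cnPhi C) := by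
  constructor
  · intro a φ
    refine LinearMap.ext (fun w => ?_)
    change C.io.f (φ (bV.r.act (C.pr.f w) (A.P a)) - V.E (φ (bV.r.act (C.pr.f w) (a - A.P a)))) =
      C.io.f (φ (C.pr.f (w * B.P (g.f a)))) -
        B.E (C.io.f (φ (C.pr.f (w * (g.f a - B.P (g.f a))))))
    rw [map_sub, C.io.E, ← g.P, ← map_sub g.f, C.pR, C.pR]
  · intro φ a
    refine LinearMap.ext (fun w => ?_)
    change C.io.f (bV.r.act (φ (C.pr.f w)) (A.P a) +
        bV.r.act (φ (V.E (C.pr.f w))) (a - A.P a)) =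
      C.io.f (φ (C.pr.f w)) * B.P (g.f a) + C.io.f (φ (C.pr.f (B.E w))) * (g.f a - B.P (g.f a))
    rw [map_add, C.ir, C.ir, C.pr.E, ← g.P, ← map_sub g.f]

/-- `λ ⊗ v ↦ λ pr ⊗ io v` -/
private def cnPsi (C : Cnr f g bV) : SD.Hom (V.dual.tens V) (B.toSD.dual.tens B.toSD) :=
  (homPreK C.pr (SD.unit k)).tens C.io

private theorem cnPsi_tmul (C : Cnr f g bV) (μ : V.V →ₗ[k] k) (v : V.V) :
    (cnPsi C).f (μ ⊗ₜ v) = (homPreK C.pr (SD.unit k)).f μ ⊗ₜ C.io.f v := rfl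

private theorem cnPsi_1 (C : Cnr f g bV) :
    (E1d bV).IsHom ((E1d B.diag).res f f) (cnPsi C) := by
  have hc : ∀ (a : A.V) (μ : V.V →ₗ[k] k), (homPreK C.pr (SD.unit k)).f
      ((LA.pre (SD.unit k) bV.l).act μ a) =
      (LA.pre (SD.unit k) B.diag.l).act ((homPreK C.pr (SD.unit k)).f μ) (f.f a) := by
    intro a μ
    refine LinearMap.ext (fun w => ?_)
    change μ (bV.l.act a (C.pr.f w)) = μ (C.pr.f (f.f a * w))
    rw [C.pl]
  constructor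
  · intro a v
    refine tens_ext (f := (cnPsi C).f ∘ₗ (E1d bV).l.act a)
      (g := ((E1d B.diag).res f f).l.act a ∘ₗ (cnPsi C).f) (fun μ v => ?_) v
    have e1 : (E1d bV).l.act a (μ ⊗ₜ v) = μ ⊗ₜ[k] bV.l.act (A.P a) v +
      V.dual.E μ ⊗ₜ[k] bV.l.act (a - A.P a) v := rfl
    have e2 : ∀ (μ : B.V →ₗ[k] k) (w : B.V), ((E1d B.diag).res f f).l.act a (μ ⊗ₜ w) =
      μ ⊗ₜ[k] (B.P (f.f a) * w) + B.toSD.dual.E μ ⊗ₜ[k] ((f.f a - B.P (f.f a)) * w) :=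
      fun _ _ => rfl
    rw [LinearMap.comp_apply, LinearMap.comp_apply, e1, map_add, cnPsi_tmul, cnPsi_tmul,
      cnPsi_tmul, e2, C.il, C.il, (homPreK C.pr (SD.unit k)).E, ← f.P, ← map_sub f.f]
  · intro v a
    refine tens_ext (f := (cnPsi C).f ∘ₗ (E1d bV).r.act.flip a)
      (g := ((E1d B.diag).res f f).r.act.flip a ∘ₗ (cnPsi C).f) (fun μ v => ?_) v
    have e1 : (E1d bV).r.act (μ ⊗ₜ v) a = (LA.pre (SD.unit k) bV.l).act μ (A.P a) ⊗ₜ[k] v +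
      (LA.pre (SD.unit k) bV.l).act μ (a - A.P a) ⊗ₜ[k] V.E v := rfl
    have e2 : ∀ (μ : B.V →ₗ[k] k) (w : B.V), ((E1d B.diag).res f f).r.act (μ ⊗ₜ w) a =
      (LA.pre (SD.unit k) B.diag.l).act μ (B.P (f.f a)) ⊗ₜ[k] w +
      (LA.pre (SD.unit k) B.diag.l).act μ (f.f a - B.P (f.f a)) ⊗ₜ[k] B.E w := fun _ _ => rfl
    change (cnPsi C).f ((E1d bV).r.act (μ ⊗ₜ v) a) =
      ((E1d B.diag).res f f).r.act ((cnPsi C).f (μ ⊗ₜ v)) a
    rw [e1, map_add, cnPsi_tmul, cnPsi_tmul, cnPsi_tmul, e2, hc, hc, C.io.E, ← f.P,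
      ← map_sub f.f]

private theorem cnPsi_2 (C : Cnr f g bV) :
    (E2d bV).IsHom ((E2d B.diag).res g g) (cnPsi C) := by
  have hc : ∀ (a : A.V) (μ : V.V →ₗ[k] k), (homPreK C.pr (SD.unit k)).f
      ((bV.r.pre (SD.unit k)).act a μ) =
      (B.diag.r.pre (SD.unit k)).act (g.f a) ((homPreK C.pr (SD.unit k)).f μ) := by
    intro a μ
    refine LinearMap.ext (fun w => ?_)
    change μ (bV.r.act (C.pr.f w) (A.P a)) - (SD.unit k).E (μ (bV.r.act (C.pr.f w) (a - A.P a))) =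
      μ (C.pr.f (w * B.P (g.f a))) - (SD.unit k).E (μ (C.pr.f (w * (g.f a - B.P (g.f a)))))
    rw [← g.P, ← map_sub g.f, C.pR, C.pR]
  constructor
  · intro a v
    refine tens_ext (f := (cnPsi C).f ∘ₗ (E2d bV).l.act a)
      (g := ((E2d B.diag).res g g).l.act a ∘ₗ (cnPsi C).f) (fun μ v => ?_) v
    change (cnPsi C).f ((bV.r.pre (SD.unit k)).act a μ ⊗ₜ v) =
      (B.diag.r.pre (SD.unit k)).act (g.f a) ((homPreK C.pr (SD.unit k)).f μ) ⊗ₜ C.io.f v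
    rw [cnPsi_tmul, hc]
  · intro v a
    refine tens_ext (f := (cnPsi C).f ∘ₗ (E2d bV).r.act.flip a)
      (g := ((E2d B.diag).res g g).r.act.flip a ∘ₗ (cnPsi C).f) (fun μ v => ?_) v
    change (cnPsi C).f (μ ⊗ₜ bV.r.act v a) =
      (homPreK C.pr (SD.unit k)).f μ ⊗ₜ (C.io.f v * g.f a)
    rw [cnPsi_tmul, C.ir]

private theorem cn_dual (C : Cnr f g bV) (v : (V.dual.tens V).V) :
    (cnPhi C).f ((dualTens V V).f v) = (dualTens B.toSD B.toSD).f ((cnPsi C).f v) := by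
  refine tens_ext (f := (cnPhi C).f ∘ₗ (dualTens V V).f)
    (g := (dualTens B.toSD B.toSD).f ∘ₗ (cnPsi C).f) (fun μ v => ?_) v
  refine LinearMap.ext (fun w => ?_)
  change C.io.f ((dualTens V V).f (μ ⊗ₜ v) (C.pr.f w)) =
    (dualTens B.toSD B.toSD).f ((homPreK C.pr (SD.unit k)).f μ ⊗ₜ C.io.f v) w
  rw [dualTens_tmul, dualTens_tmul]
  change C.io.f (μ (V.P (C.pr.f w)) • v + μ (C.pr.f w - V.P (C.pr.f w)) • V.E v) =
    μ (C.pr.f (B.P w)) • C.io.f v + μ (C.pr.f (w - B.P w)) • B.E (C.io.f v)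
  rw [map_add, map_smul, map_smul, C.io.E, map_sub C.pr.f, C.pr.P]

private theorem cn_trD (C : Cnr f g bV) (v : (V.dual.tens V).V) :
    (trD B.toSD).f ((cnPsi C).f v) = (trD V).f v := by
  refine tens_ext (f := (trD B.toSD).f ∘ₗ (cnPsi C).f) (g := (trD V).f) (fun μ v => ?_) v
  change μ (C.pr.f (C.io.f v)) = μ v
  rw [C.pi]

private theorem cn_trE (C : Cnr f g bV) (p : (HC2 (E1d bV) (E2d bV) (E1d_E2d bV)).V) :
    (trE B.diag).f ((hcG2 (E1d_E2d bV) (E1d_E2d B.diag) f g (cnPsi C) (cnPsi_1 C)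
      (cnPsi_2 C)).f p) = (trE bV).f p := by
  change (trE B.diag).f (Wd.map (Wd.map (cnPsi C).f f.f) g.f p) = (trE bV).f p
  induction p using Wd.induction with
  | hadd a b ha hb => simp only [map_add, ha, hb]
  | hnil w =>
    rw [Wd.map_nil]
    induction w using Wd.induction with
    | hadd a b ha hb => simp only [map_add, ha, hb]
    | hnil v =>
      rw [Wd.map_nil]
      refine (tr2_nil_nil _ _ (trD_cyc1 B.diag) (trD_cyc2 B.diag) _).trans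
        (Eq.trans ?_ (tr2_nil_nil _ _ (trD_cyc1 bV) (trD_cyc2 bV) _).symm)
      exact cn_trD C v
    | hsnoc w _ r =>
      rw [Wd.map_snoc]
      exact (tr2_nil_snoc _ _ (trD_cyc1 B.diag) (trD_cyc2 B.diag) _ _).trans
        (tr2_nil_snoc _ _ (trD_cyc1 bV) (trD_cyc2 bV) _ _).symm
  | hsnoc w _ r =>
    rw [Wd.map_snoc]
    exact (tr2_snoc _ _ (trD_cyc1 B.diag) (trD_cyc2 B.diag) _ _).trans
      (tr2_snoc _ _ (trD_cyc1 bV) (trD_cyc2 bV) _ _).symm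

private theorem cn_gam (C : Cnr f g bV) (q : (QQ A).V) :
    (cnPhi C).f ((gamG bV).f q) = (gam B).f ((qmap f g).f q) := by
  refine tens_ext (f := (cnPhi C).f ∘ₗ (gamG bV).f) (g := (gam B).f ∘ₗ (qmap f g).f)
    (fun a c => ?_) q
  refine LinearMap.ext (fun w => ?_)
  change C.io.f ((gamG bV).f (a ⊗ₜ c) (C.pr.f w)) = (gam B).f (f.f a ⊗ₜ g.f c) w
  rw [gamG_tmul, gam_tmul, C.il, map_add, C.ir, C.ir, ← C.pr.P, ← map_sub C.pr.f, g.E,
    mul_add, mul_add, ← mul_assoc, ← mul_assoc, ← mul_assoc, ← mul_assoc]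
  have e1 := C.c a (B.P w) c
  have e2 := C.c a (w - B.P w) (A.E c)
  rw [g.E] at e2
  rw [e1, e2]

end maps

theorem tau_cnr {f g : DGA.NHom A B} (T : BMod A A) (C : Cnr f g T.b) (hT : T.N.FinH)
    (hB : B.toSD.FinH) (c : (HC2 (bQ1 A) (bQ2 A) (Q1_Q2 A)).Coh) :
    tauQ T hT c = tauZ hB (SD.Coh.map (qF f g) c) := by
  obtain ⟨z, hz, rfl⟩ := SD.Coh.exists_mk c
  rw [tauQ, LinearMap.comp_apply, tauZ, LinearMap.comp_apply, SD.Coh.map_mk, SD.Coh.map_mk,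
    SD.Coh.map_mk]
  have hy : (HC2 (E1 T.b) (E2 T.b) (E1_E2 T.b)).D ((hc2 (Q1_Q2 A) (E1_E2 T.b) (gamG T.b)
      (gamG_E1 T.b) (gamG_E2 T.b)).f z) = 0 := by
    rw [← SD.Hom.D, hz, map_zero]
  have hz' : (HC2 (bQ1 B) (bQ2 B) (Q1_Q2 B)).D ((qF f g).f z) = 0 := by
    rw [← SD.Hom.D, hz, map_zero]
  have hy' : (HC2 (E1 B.diag) (E2 B.diag) (E1_E2 B.diag)).D ((hc2 (Q1_Q2 B) (E1_E2 B.diag)
      (gam B) (gam_E1 B) (gam_E2 B)).f ((qF f g).f z)) = 0 := by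
    rw [← SD.Hom.D, hz', map_zero]
  have e1 : (hcG2 (E1_E2 T.b) (E1_E2 B.diag) f g (cnPhi C) (cnPhi_1 C) (cnPhi_2 C)).f
      ((hc2 (Q1_Q2 A) (E1_E2 T.b) (gamG T.b) (gamG_E1 T.b) (gamG_E2 T.b)).f z) =
      (hc2 (Q1_Q2 B) (E1_E2 B.diag) (gam B) (gam_E1 B) (gam_E2 B)).f ((qF f g).f z) :=
    cn_sq (Q1_Q2 A) (E1_E2 T.b) (Q1_Q2 B) (E1_E2 B.diag) (gamG T.b) (gamG_E1 T.b)
      (gamG_E2 T.b) (cnPhi C) (cnPhi_1 C) (cnPhi_2 C) (qmap f g) (qmap_1 f g) (qmap_2 f g)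
      (gam B) (gam_E1 B) (gam_E2 B) (fun n => cn_gam C n) z
  obtain ⟨p, u, hp, hpu⟩ := (cE_qi T.b hT).surj _ hy
  have h1 : (HC2 (E1 T.b) (E2 T.b) (E1_E2 T.b)).Hml ((cE T.b).f p)
      ((hc2 (Q1_Q2 A) (E1_E2 T.b) (gamG T.b) (gamG_E1 T.b) (gamG_E2 T.b)).f z) :=
    ⟨-u, by rw [map_neg, hpu]; abel⟩
  have e2 : (hcG2 (E1_E2 T.b) (E1_E2 B.diag) f g (cnPhi C) (cnPhi_1 C) (cnPhi_2 C)).f
      ((cE T.b).f p) = (cE B.diag).f ((hcG2 (E1d_E2d T.b) (E1d_E2d B.diag) f g (cnPsi C)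
        (cnPsi_1 C) (cnPsi_2 C)).f p) :=
    cn_sq (E1d_E2d T.b) (E1_E2 T.b) (E1d_E2d B.diag) (E1_E2 B.diag) (dualTens T.N T.N)
      (dualTens_E1 T.b) (dualTens_E2 T.b) (cnPhi C) (cnPhi_1 C) (cnPhi_2 C) (cnPsi C)
      (cnPsi_1 C) (cnPsi_2 C) (dualTens B.toSD B.toSD) (dualTens_E1 B.diag)
      (dualTens_E2 B.diag) (fun n => cn_dual C n) p
  have hp' : (HC2 (E1d B.diag) (E2d B.diag) (E1d_E2d B.diag)).D
      ((hcG2 (E1d_E2d T.b) (E1d_E2d B.diag) f g (cnPsi C) (cnPsi_1 C) (cnPsi_2 C)).f p) = 0 := by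
    rw [← SD.Hom.D, hp, map_zero]
  have h2 : (HC2 (E1 B.diag) (E2 B.diag) (E1_E2 B.diag)).Hml ((cE B.diag).f
      ((hcG2 (E1d_E2d T.b) (E1d_E2d B.diag) f g (cnPsi C) (cnPsi_1 C) (cnPsi_2 C)).f p))
      ((hc2 (Q1_Q2 B) (E1_E2 B.diag) (gam B) (gam_E1 B) (gam_E2 B)).f ((qF f g).f z)) := by
    obtain ⟨u', hu'⟩ := h1
    refine ⟨(hcG2 (E1_E2 T.b) (E1_E2 B.diag) f g (cnPhi C) (cnPhi_1 C) (cnPhi_2 C)).f u', ?_⟩
    rw [← SD.Hom.D, hu', map_sub, e1, e2]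
  have t1 := tauG_mk (cE T.b) (cE_qi T.b hT) (trE T.b) hp hy h1
  have t2 := tauG_mk (cE B.diag) (cE_qi B.diag hB) (trE B.diag) hp' hy' h2
  have t3 := cn_trE C p
  exact t1.trans (t3.symm.trans t2.symm)

end NC
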