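import Mathlib
import Pool.Agent.H94.NC.Main
import Pool.Agent.H94.NT.CnrT
import Pool.Agent.H94.NT.NEnd

/-!
# ExT : the data of the example in characteristic two

`A` proper and smooth, all `χ(HC(A; X))` of perfect `X` vanish; homomorphisms `i h : A → B` (not
unital), `i` induces a quasi-isomorphism on Hochschild complexes; `Θ` and `Θ0` are the corners
`e' B e` and `e B e`; `e0` is a cycle of degree zero such that `HC(h)` of every even class is a
multiple of `i e0`; `e ∈ HP₀(A)` is not zero and `HP(i) e = HP(h) e`.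
-/

set_option autoImplicit false

noncomputable section

namespace NC

variable {k : Type} [Field k]

/-- the data -/
structure ExT (A B : ZDGA k) (i h : ZHom A B) where
  pf : PF A.toDGA (BMod.diag A.toDGA)
  finA : FiniteDimensional k A.toSD.Coh
  finB : B.toDGA.toSD.FinH
  qi : (hcA i.nh).QI
  Θ : BMod A.toDGA A.toDGA
  cn : Cnr h.nh i.nh Θ.b
  finΘ : Θ.N.FinH
  pfR : PF A.toDGA (BMod.tR Θ.b.r Θ.r_one)
  Θ0 : BMod A.toDGA A.toDGA
  cn0 : Cnr i.nh i.nh Θ0.b
  q : BMod.Hom (BMod.diag A.toDGA) Θ0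
  hq : q.toHom.QI
  chi : ∀ X : BMod A.toDGA A.toDGA, PF A.toDGA X → SD.chi (HC X.b) = 0
  e0 : A.V
  he0 : e0 ∈ A.gr 0
  De0 : A.D e0 = 0
  ev : ∀ x : (HC A.toDGA.diag).V, (HC A.toDGA.diag).P x = x → (HC A.toDGA.diag).D x = 0 →
    ∃ c : k, (HC B.toDGA.diag).Hml ((hcA h.nh).f x) (c • (hcA i.nh).f (Wd.nil e0))
  e : A.HP 0
  ene : e ≠ 0
  ie : i.HP 0 e = h.HP 0 e

end NC
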