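import Mathlib
import Pool.Agent.H94.NT.ExT
import Pool.Agent.H94.NC.Link

/-!
# HHg : the operator `T = HH(i)⁻¹ HH(h)` on the graded Hochschild homology

`x ∈ HH_m(A)`, `m` even, is the class of `v ∈ gr m` (`hcls_surj`), an even cycle of `HC(A)`
(`A.cyc.b = hcD`, see H94/NC/Link.lean, Bridge.lean: `wgr` of even degree is the even part).  By
`X.ev` there is `c` with `h v ~ c i(e0)` in `HC(B)`, i.e. in `B.cyc.HT`:
`h.cyc.HT (A.cyc.hinc m x) = c i.cyc.HT (A.cyc.hinc 0 [e0])` (`e0 ∈ gr 0`, `nil e0 ∈ wgr 0`).  By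
`i.cyc.HT` bijective, `T.ht (hinc m x) = c hinc 0 [e0]`, hence `hinc m (T.hh m x) =
c hinc 0 [e0]`: `T.hh m x = 0` for `m ≠ 0` (`hinc_internal`) and `= c [e0]` for `m = 0`
(`hinc_inj`).
-/

set_option autoImplicit false

noncomputable section

namespace NC

variable {k : Type} [Field k] {A B : ZDGA k} {i h : ZHom A B}

theorem ExT.ht_bij (X : ExT A B i h) : Function.Bijective i.cyc.HT :=
  HT_bij_of_QI i X.qi

/-- the operator `T` -/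
def ExT.T (X : ExT A B i h) : CycMod.NEnd A.cyc :=
  CycMod.NEnd.zz A.cyc_Bex B.cyc_Bex A.cyc_internal B.cyc_internal h.cyc i.cyc X.ht_bij

private theorem hhg_P (A : ZDGA k) {m : ℤ} (hm : Even m) {v : Wd k A.V A.V}
    (hv : v ∈ Wd.wg A m) : (HC A.toDGA.diag).P v = v := by
  have h1 := Wd.hs_wg hv
  unfold Wd.Hs at h1
  rw [decide_eq_true hm, if_pos rfl, Wd.wP_eq_PW] at h1
  exact h1

private theorem hhg_e0 (X : ExT A B i h) :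
    (Wd.nil X.e0 : A.cyc.V) ∈ LinearMap.ker A.cyc.b ⊓ A.cyc.gr 0 := by
  refine ⟨?_, ?_⟩
  · change Wd.bb A.toDGA (Wd.nil X.e0) = 0
    rw [Wd.bb_apply, Wd.bp_nil, Wd.cc_nil, X.De0, map_zero]
    simp
  · have h1 := Wd.nil_mem_wgr A.gr A.gr X.he0
    rw [neg_zero] at h1
    exact h1

private theorem hhg_key (X : ExT A B i h) {m : ℤ} (hm : Even m) (x : A.cyc.HH m) :
    ∃ c : k, A.cyc.hinc m (X.T.hh m x) = A.cyc.hinc 0 (c • A.cyc.hcls _ (hhg_e0 X)) := by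
  obtain ⟨v, hv, rfl⟩ := A.cyc.hcls_surj x
  have hb : A.cyc.b v = 0 := hv.1
  obtain ⟨c, hc⟩ := X.ev v (hhg_P A hm hv.2) ((A.cyc_b v).symm.trans hb)
  refine ⟨c, ?_⟩
  rw [← X.T.hinc]
  apply X.ht_bij.1
  have h1 : i.cyc.HT (X.T.ht (A.cyc.hinc m (A.cyc.hcls v hv))) =
      h.cyc.HT (A.cyc.hinc m (A.cyc.hcls v hv)) := CycMod.NEnd.zz_ht _ _ _ _ _ _ _ _
  rw [h1, map_smul, map_smul, A.cyc.hinc_hcls, A.cyc.hinc_hcls]
  have hb1 : B.cyc.b (h.cyc.f v) = 0 := by rw [← h.cyc.b, hb, map_zero]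
  have hb2 : B.cyc.b (i.cyc.f (Wd.nil X.e0)) = 0 := by
    have := (hhg_e0 X).1
    rw [← i.cyc.b, this, map_zero]
  rw [CycMod.HT_tcls h.cyc v hb hb1, CycMod.HT_tcls i.cyc _ (hhg_e0 X).1 hb2]
  have hb3 : B.cyc.b (h.cyc.f v - c • i.cyc.f (Wd.nil X.e0)) = 0 := by
    rw [map_sub, map_smul, hb1, hb2, smul_zero, sub_zero]
  have h2 : B.cyc.tcls (h.cyc.f v) hb1 - c • B.cyc.tcls (i.cyc.f (Wd.nil X.e0)) hb2 =
      B.cyc.tcls (h.cyc.f v - c • i.cyc.f (Wd.nil X.e0)) hb3 := rfl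
  refine sub_eq_zero.1 (h2.trans ((B.cyc.tcls_eq_zero _ _).2 ?_))
  obtain ⟨w, hw⟩ := hc
  exact ⟨w, (B.cyc_b w).trans hw⟩

/-- `T` vanishes on `HH_m`, `m ≠ 0` even, and has rank one on `HH_0` -/
theorem ExT.hh_even (X : ExT A B i h) : (∀ m, Even m → m ≠ 0 → ∀ x : A.cyc.HH m,
    X.T.hh m x = 0) ∧ ∃ e0 : A.cyc.HH 0, ∀ x : A.cyc.HH 0, ∃ c : k, X.T.hh 0 x = c • e0 := by
  refine ⟨fun m hm hm0 x => ?_, A.cyc.hcls _ (hhg_e0 X), fun x => ?_⟩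
  · obtain ⟨c, hc⟩ := hhg_key X hm x
    rw [← A.cyc.hprj_hinc A.cyc_internal m (X.T.hh m x), hc,
      A.cyc.hprj_hinc_ne A.cyc_internal (Ne.symm hm0)]
  · obtain ⟨c, hc⟩ := hhg_key X Even.zero x
    exact ⟨c, A.cyc.hinc_inj A.cyc_internal 0 hc⟩

end NC
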