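import Mathlib
import Pool.Agent.H36.NX.FH
import Pool.Agent.H16.QE.PFbar

/-!
# PFT : the bar product with a bimodule whose right module is perfect

`PF_bar'` is proved in H16/QE/PFbar.lean (helper16).
-/

set_option autoImplicit false

noncomputable section

namespace NC

variable {k : Type} [Field k] {A : DGA k}

/-- the Hochschild complex of a perfect bimodule has finite homology -/
theorem finH_HC_PF (hA : A.toSD.FinH) (_hPF : PF A (BMod.diag A)) {X : BMod A A} (hX : PF A X) :
    (HC X.b).FinH := finH_HC_of_PF hA hX

end NC
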