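import Mathlib
import Pool.Agent.H94.NT.CnrT
import Pool.Agent.H94.NC.LefM

/-!
# StrT : the Lefschetz formula with an operator

`trace_capz_S`: copy of `trace_capz` (H16/NC/Lef.lean).  On products `x ⊗ y`, `x` homogeneous,
choose `x'` homogeneous of the same parity with `S [x] = [x']` (`hSE`); then
`S ∘ capz (mg (x ⊗ y)) = capz (mg (x' ⊗ y))` by `capz_mg_even`, `capz_mg_odd`, and `trace_mg`.
`eq_capz`: first part of the proof of `lefschetz_of`.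
-/

set_option autoImplicit false

open scoped TensorProduct

noncomputable section

namespace NC

variable {k : Type} [Field k] {A B : DGA k}

private theorem trace_mg_S (hA : A.toSD.FinH) [FiniteDimensional k (HC A.diag).Coh]
    (S : (HC A.diag).Coh →ₗ[k] (HC A.diag).Coh)
    (hSE : ∀ c, SD.cohE (HC A.diag) (S c) = S (SD.cohE (HC A.diag) c))
    {x y x' : (HC A.diag).V} (hx : (HC A.diag).D x = 0) (hy : (HC A.diag).D y = 0)
    (hx' : (HC A.diag).D x' = 0) (hS : S (SD.Coh.mk x hx) = SD.Coh.mk x' hx')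
    (hP : (HC A.diag).P x = x ∨ (HC A.diag).P x = 0) :
    LinearMap.trace k _ (SD.cohE (HC A.diag) ∘ₗ S ∘ₗ
      capz hA ((mgQ A).f (x ⊗ₜ y)) (mgG_cyc hx hy)) =
      tauZ hA (SD.Coh.mk ((mgQ A).f (x' ⊗ₜ y)) (mgG_cyc hx' hy)) := by
  have hR : tauZ hA (SD.Coh.mk ((mgQ A).f (x' ⊗ₜ y)) (mgG_cyc hx' hy)) =
      tau' A.diag hA (SD.Coh.mk ((CWp A).f (x' ⊗ₜ y)) (capC_cyc (CWp A) hy hx')) := by
    rw [tauZ, LinearMap.comp_apply, SD.Coh.map_mk]
    exact (tau'_CWp hA x' y _ _).symm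
  have hs : ∀ (f : (HC A.diag).Coh →ₗ[k] k) (c : (HC A.diag).Coh),
      SD.cohE (HC A.diag) ∘ₗ S ∘ₗ f.smulRight c =
        f.smulRight (SD.cohE (HC A.diag) (S c)) := fun f c =>
    LinearMap.ext (fun a => by
      change SD.cohE (HC A.diag) (S (f a • c)) = f a • SD.cohE (HC A.diag) (S c)
      rw [map_smul, map_smul])
  rw [hR]
  rcases hP with hP | hP
  · have hE : (HC A.diag).E x = x := by rw [SD.E_apply, hP]; abel
    have hc : SD.cohE (HC A.diag) (SD.Coh.mk x hx) = SD.Coh.mk x hx := by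
      rw [SD.cohE_mk]
      exact SD.Coh.mk_congr _ _ hE
    rw [capz_mg_even hA hx hy hP, hs, LinearMap.trace_smulRight, hSE, hc, hS,
      LinearMap.comp_apply, capC_mk]
  · rw [capz_mg_odd hA hx hy hP, hs, LinearMap.trace_smulRight, LinearMap.comp_apply,
      LinearMap.comp_apply, SD.cohE_cohE, hS, capC_mk]

theorem trace_capz_S (hA : A.toSD.FinH) (hH : (HC A.diag).FinH)
    (S : (HC A.diag).Coh →ₗ[k] (HC A.diag).Coh)
    (hSE : ∀ c, SD.cohE (HC A.diag) (S c) = S (SD.cohE (HC A.diag) c))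
    (τ : (HC2 (bQ1 A) (bQ2 A) (Q1_Q2 A)).Coh →ₗ[k] k)
    (hτ : ∀ (x y x' : (HC A.diag).V) (hx : (HC A.diag).D x = 0) (hy : (HC A.diag).D y = 0)
      (hx' : (HC A.diag).D x' = 0), S (SD.Coh.mk x hx) = SD.Coh.mk x' hx' →
      τ (SD.Coh.mk ((mgQ A).f (x ⊗ₜ y)) (mgG_cyc hx hy)) =
        tauZ hA (SD.Coh.mk ((mgQ A).f (x' ⊗ₜ y)) (mgG_cyc hx' hy)))
    (z : (HC2 (bQ1 A) (bQ2 A) (Q1_Q2 A)).V)
    (hz : (HC2 (bQ1 A) (bQ2 A) (Q1_Q2 A)).D z = 0) :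
    LinearMap.trace k _ (SD.cohE (HC A.diag) ∘ₗ S ∘ₗ capz hA z hz) = τ (SD.Coh.mk z hz) := by
  have : FiniteDimensional k (HC A.diag).Coh := SD.coh_finite_iff.2 hH
  obtain ⟨ζ, rfl⟩ := (mgQ_bij A).2 z
  have hζ : ((HC A.diag).tens (HC A.diag)).D ζ = 0 := by
    refine (mgQ_bij A).1 ?_
    rw [(mgQ A).D, map_zero]
    exact hz
  obtain ⟨ζ', hmem, hhml⟩ := SD.kuenneth (HC A.diag) (HC A.diag) ζ hζ
  have hD : ∀ t ∈ SD.cyc (HC A.diag) (HC A.diag),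
      (HC2 (bQ1 A) (bQ2 A) (Q1_Q2 A)).D ((mgQ A).f t) = 0 := fun t ht => by
    have h := (mgQ A).D t
    rw [cyc_D ht, map_zero] at h
    exact h.symm
  have key : ∀ ζ' ∈ SD.cyc (HC A.diag) (HC A.diag),
      ∀ h : (HC2 (bQ1 A) (bQ2 A) (Q1_Q2 A)).D ((mgQ A).f ζ') = 0,
      LinearMap.trace k _ (SD.cohE (HC A.diag) ∘ₗ S ∘ₗ capz hA ((mgQ A).f ζ') h) =
        τ (SD.Coh.mk ((mgQ A).f ζ') h) := by
    intro ζ' hmem
    induction hmem using Submodule.span_induction with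
    | mem t ht =>
      obtain ⟨x, y, hP, -, hx, hy, rfl⟩ := ht
      intro h
      obtain ⟨x', hx', hS⟩ := SD.Coh.exists_mk (S (SD.Coh.mk x hx))
      exact (trace_mg_S hA S hSE hx hy hx' hS.symm hP).trans
        (hτ x y x' hx hy hx' hS.symm).symm
    | zero =>
      intro h
      have h0 : (HC2 (bQ1 A) (bQ2 A) (Q1_Q2 A)).D 0 = 0 := map_zero _
      have e1 : capz hA ((mgQ A).f 0) h = capz hA 0 h0 := by
        unfold capz
        rw [capC_hml (CWK A) h h0 ⟨0, by rw [map_zero, map_zero, sub_zero]⟩]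
      have e2 : capz hA (0 : (HC2 (bQ1 A) (bQ2 A) (Q1_Q2 A)).V) h0 = 0 := by
        unfold capz
        have h3 : capC (CWK A) 0 h0 = 0 := capC_ext _ _ (fun x hx => by
          rw [LinearMap.zero_apply]
          exact (SD.Coh.mk_congr _ (map_zero _) (by
            rw [TensorProduct.tmul_zero, map_zero])).trans SD.Coh.mk_zero)
        rw [h3, LinearMap.comp_zero]
      have e3 : SD.Coh.mk ((mgQ A).f 0) h = 0 :=
        (SD.Coh.mk_congr _ (map_zero _) (map_zero _)).trans SD.Coh.mk_zero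
      rw [e1, e2, e3, LinearMap.comp_zero, LinearMap.comp_zero, map_zero, map_zero]
    | add a b ha hb iha ihb =>
      intro h
      have h1 := hD a ha
      have h2 := hD b hb
      have h3 : (HC2 (bQ1 A) (bQ2 A) (Q1_Q2 A)).D ((mgQ A).f a +
        (mgQ A).f b) = 0 := by rw [map_add, h1, h2, add_zero]
      have e1 : capz hA ((mgQ A).f (a + b)) h =
          capz hA ((mgQ A).f a) h1 + capz hA ((mgQ A).f b) h2 := by
        unfold capz
        rw [← LinearMap.comp_add, ← capC_add _ _ _ h3]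
        congr 1
        exact capC_hml _ _ _ ⟨0, by rw [map_add, map_zero, sub_self]⟩
      have e3 : SD.Coh.mk ((mgQ A).f (a + b)) h =
          SD.Coh.mk ((mgQ A).f a) h1 + SD.Coh.mk ((mgQ A).f b) h2 := by
        rw [SD.Coh.mk_add]
        exact SD.Coh.mk_congr _ _ (map_add _ _ _)
      rw [e1, e3, LinearMap.comp_add, LinearMap.comp_add, map_add, map_add, iha h1, ihb h2]
    | smul c a ha iha =>
      intro h
      have h1 := hD a ha
      have h3 : (HC2 (bQ1 A) (bQ2 A) (Q1_Q2 A)).D (c • (mgQ A).f a) = 0 := by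
        rw [map_smul, h1, smul_zero]
      have e1 : capz hA ((mgQ A).f (c • a)) h =
          c • capz hA ((mgQ A).f a) h1 := by
        unfold capz
        rw [← LinearMap.comp_smul, ← capC_smul _ _ _ h3]
        congr 1
        exact capC_hml _ _ _ ⟨0, by rw [map_smul, map_zero, sub_self]⟩
      have e3 : SD.Coh.mk ((mgQ A).f (c • a)) h =
          c • SD.Coh.mk ((mgQ A).f a) h1 := by
        rw [SD.Coh.mk_smul]
        exact SD.Coh.mk_congr _ _ (map_smul _ _ _)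
      rw [e1, e3, LinearMap.comp_smul, LinearMap.comp_smul, map_smul, map_smul, iha h1]
  have h' := hD ζ' hmem
  obtain ⟨u, hu⟩ := hhml
  have hh : (HC2 (bQ1 A) (bQ2 A) (Q1_Q2 A)).Hml ((mgQ A).f ζ)
      ((mgQ A).f ζ') := ⟨(mgQ A).f u, by
    rw [← map_sub, ← hu]
    exact ((mgQ A).D u).symm⟩
  have e1 : capz hA ((mgQ A).f ζ) hz = capz hA ((mgQ A).f ζ') h' := by
    unfold capz
    congr 1
    exact capC_hml _ _ _ hh
  rw [e1, key ζ' hmem h']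
  exact congrArg _ ((SD.Coh.mk_eq_mk _ _).2 hh).symm

/-- the operator of `M` is a cap product -/
theorem eq_capz (hA : A.toSD.FinH) (M : BMod A A) (z0 : (GG M.b (bMv M.b)).V)
    (hone : OneLift M z0) (hz : (HC2 (bQ1 A) (bQ2 A) (Q1_Q2 A)).D ((rotE M.b).f z0) = 0)
    (T : (HC A.diag).Coh →ₗ[k] (HC A.diag).Coh)
    (hT : ∀ c, SD.Coh.map (hcA (iE M)) (T c) = SD.Coh.map (hcA (rhoE M)) c) :
    T = capz hA ((rotE M.b).f z0) hz := by
  refine LinearMap.ext (fun c => ?_)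
  obtain ⟨w, hw, rfl⟩ := SD.Coh.exists_mk c
  obtain ⟨w', hw', hTw⟩ := SD.Coh.exists_mk (T (SD.Coh.mk w hw))
  have h1 := hT (SD.Coh.mk w hw)
  rw [← hTw, SD.Coh.map_mk, SD.Coh.map_mk] at h1
  obtain ⟨kp, hkp, h2, h3⟩ := hone w w' hw hw' ((SD.Coh.mk_eq_mk _ _).1 h1)
  rw [← hTw]
  unfold capz
  rw [LinearMap.comp_apply, capC_mk, psiT_mk hA hkp _ h3]
  exact ((SD.Coh.mk_eq_mk _ _).2 h2).symm

theorem lefschetz_S (hPF : PF A (BMod.diag A)) (hA : A.toSD.FinH) (M : BMod A A) (I : Type)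
    (hSF : SemiFree M.b I) (hR : RPf M.b.r) (Θ : BMod A A) (hΘ : Θ.N.FinH)
    (hG : (GG M.b Θ.b).FinH) (S : (HC A.diag).Coh →ₗ[k] (HC A.diag).Coh)
    (hSE : ∀ c, SD.cohE (HC A.diag) (S c) = S (SD.cohE (HC A.diag) c))
    (hτ : ∀ (x y x' : (HC A.diag).V) (hx : (HC A.diag).D x = 0) (hy : (HC A.diag).D y = 0)
      (hx' : (HC A.diag).D x' = 0), S (SD.Coh.mk x hx) = SD.Coh.mk x' hx' →
      tauQ Θ hΘ (SD.Coh.mk ((mgQ A).f (x ⊗ₜ y)) (mgG_cyc hx hy)) =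
        tauZ hA (SD.Coh.mk ((mgQ A).f (x' ⊗ₜ y)) (mgG_cyc hx' hy)))
    (T : (HC A.diag).Coh →ₗ[k] (HC A.diag).Coh)
    (hT : ∀ c, SD.Coh.map (hcA (iE M)) (T c) = SD.Coh.map (hcA (rhoE M)) c) :
    LinearMap.trace k _ (SD.cohE (HC A.diag) ∘ₗ S ∘ₗ T) = SD.chi (GG M.b Θ.b) := by
  obtain ⟨z0, h0, hz0, hh⟩ := exists_lift_id hPF M hSF hR
  have hz : (HC2 (bQ1 A) (bQ2 A) (Q1_Q2 A)).D ((rotE M.b).f z0) = 0 := by
    have h := (rotE M.b).D z0
    rw [hz0, map_zero] at h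
    exact h.symm
  rw [eq_capz hA M z0 (one_lift M hR z0 hz0 h0 hh) hz T hT,
    trace_capz_S hA (finH_HC_of_PF hA hPF) S hSE (tauQ Θ hΘ) hτ,
    chi_GG M.b Θ hΘ hG z0 hz0 h0 hh, SD.Coh.map_mk]

/-- **the Lefschetz formula for `S = HC(i)⁻¹ HC(h)`** -/
theorem lefschetz_cnr (hPF : PF A (BMod.diag A)) (hA : A.toSD.FinH) (hB : B.toSD.FinH)
    (i h : DGA.NHom A B) (hi : (hcA i).QI) (Θ V : BMod A A) (CΘ : Cnr h i Θ.b)
    (CV : Cnr i i V.b) (q : BMod.Hom (BMod.diag A) V) (hq : q.toHom.QI) (hΘ : Θ.N.FinH)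
    (hV : V.N.FinH) (S : (HC A.diag).Coh →ₗ[k] (HC A.diag).Coh)
    (hS : ∀ c, SD.Coh.map (hcA i) (S c) = SD.Coh.map (hcA h) c)
    (M : BMod A A) (I : Type) (hSF : SemiFree M.b I) (hR : RPf M.b.r)
    (hG : (GG M.b Θ.b).FinH)
    (T : (HC A.diag).Coh →ₗ[k] (HC A.diag).Coh)
    (hT : ∀ c, SD.Coh.map (hcA (iE M)) (T c) = SD.Coh.map (hcA (rhoE M)) c) :
    LinearMap.trace k _ (SD.cohE (HC A.diag) ∘ₗ S ∘ₗ T) = SD.chi (GG M.b Θ.b) := by
  have hSE : ∀ c, SD.cohE (HC A.diag) (S c) = S (SD.cohE (HC A.diag) c) := by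
    intro c
    refine ((SD.Coh.map_bijective_iff _).2 hi).1 ?_
    rw [SD.Coh.map_cohE, hS, hS, SD.Coh.map_cohE]
  refine lefschetz_S hPF hA M I hSF hR Θ hΘ hG S hSE ?_ T hT
  intro x y x' hx hy hx' hSx
  have hxx : (HC B.diag).Hml ((hcA h).f x) ((hcA i).f x') := by
    have h1 := hS (SD.Coh.mk x hx)
    rw [hSx, SD.Coh.map_mk, SD.Coh.map_mk] at h1
    exact ((SD.Coh.mk_eq_mk _ _).1 h1).symm
  rw [tau_cnr Θ CΘ hΘ hB, ← tauQ_diag hA, tauQ_qi (BMod.diag A) V hA hV q hq,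
    tau_cnr V CV hV hB, SD.Coh.map_mk, SD.Coh.map_mk]
  refine congrArg _ ((SD.Coh.mk_eq_mk _ _).2 ?_)
  have e1 : (qF h i).f ((mgQ A).f (x ⊗ₜ y)) =
      (mgG B.diag B.diag).f ((hcA h).f x ⊗ₜ (hcA i).f y) := qF_mg h i x y
  have e2 : (qF i i).f ((mgQ A).f (x' ⊗ₜ y)) =
      (mgG B.diag B.diag).f ((hcA i).f x' ⊗ₜ (hcA i).f y) := qF_mg i i x' y
  rw [e1, e2]
  obtain ⟨u, hu⟩ := hxx
  have hy' : (HC B.diag).D ((hcA i).f y) = 0 := by rw [← (hcA i).D, hy, map_zero]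
  refine ⟨(mgG B.diag B.diag).f (u ⊗ₜ (hcA i).f y), ?_⟩
  have h2 : ((HC B.diag).tens (HC B.diag)).D (u ⊗ₜ (hcA i).f y) =
      (HC B.diag).D u ⊗ₜ[k] (hcA i).f y + (HC B.diag).E u ⊗ₜ[k] (HC B.diag).D ((hcA i).f y) := rfl
  refine ((mgQ B).D (u ⊗ₜ (hcA i).f y)).symm.trans ?_
  rw [h2, hy', TensorProduct.tmul_zero, add_zero, hu, TensorProduct.sub_tmul, map_sub]
  rfl

end NC
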