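import Mathlib
import Pool.Agent.H94.NC.TRf
import Pool.Agent.H94.NC.BarZ
import Pool.Agent.H94.NC.Conv
import Pool.Agent.H28.NC.BarMap
import Pool.Agent.H36.NX.RPB

/-!
# UniT : the operator of a resolution of the diagonal bimodule is the identity

`unit_lift`: `Mst = HomR M.b.r A.diag.r`.  Choose a cycle `z` of `HC(A; Bar(M, A, A))` with
`HC(q)(HC(augR) z) ~ w` (`qi_augR`, `QI_hc`, `hq`).  `κ : A → Mst, a ↦ (m ↦ a q(m))` is a bimodule
map (`A.diag.IsHom (bMst M) κ`).  Put `γ = HC(1 ⊗ κ) z ∈ HC(M.b.bar (bMst M))` and use `TR_rpf`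
(H94/NC/TRf.lean):
* `h2`: `contrH γ` is the image of `x = HC(augR) z ∈ HC(M)` under `m ↦ (v ↦ m q(v))`.  After
  composition with `q` (`HomR(M, M) → HomR(M, A)` is a quasi-isomorphism: naturality of `contrR`
  in the second argument, `contrR_qi`, `qi_bar`), `q(m q(v)) = q(m) q(v) = q(q(m) v)`, i.e. it
  agrees with `lamM (q m)`, and `HC(q) x ~ w`.
* `evM γ = evL (q, id) z ~ contrL (q, id) z = HC(q) x`-part: the homotopy lemma `hh_D`
  (H16/NC/HL.lean) with `L = A`, `fR = fS = id`, `φX = q`, `φY = id`; `contrL` is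
  `HC(A)`-valued: `contrL z = HC(q) (HC(augR) z) ~ w`.
-/

set_option autoImplicit false

open scoped TensorProduct

noncomputable section

namespace NC

variable {k : Type} [Field k]

section unit

variable {A : DGA k} (M : BMod A A) (q : SD.Hom M.N A.toSD) (hm : M.b.IsHom A.diag q)

/-- composition with `q` as a map `HomR(M, M) → HomR(M, A)` -/
private def uPo : SD.Hom (HomR M.b.r M.b.r) (HomR M.b.r A.diag.r) where
  f :=
    { toFun := fun φ => ⟨q.f ∘ₗ φ.1, fun x b => by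
        change q.f (φ.1 (M.b.r.act x b)) = A.diag.r.act (q.f (φ.1 x)) b
        rw [φ.2 x b]
        exact hm.r _ _⟩
      map_add' := fun a b => Subtype.ext (LinearMap.ext fun m => map_add q.f _ _)
      map_smul' := fun c a => Subtype.ext (LinearMap.ext fun m => map_smul q.f _ _) }
  D := fun φ => Subtype.ext (LinearMap.ext fun m => by
    refine Eq.trans ?_ (homR_D M.b.r A.diag.r _ m).symm
    change q.f (((HomR M.b.r M.b.r).D φ).1 m) =
      A.D (q.f (φ.1 m)) - A.E (q.f (φ.1 (M.N.E (M.N.D m))))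
    rw [homR_D, map_sub, q.D, q.E])
  P := fun φ => Subtype.ext (LinearMap.ext fun m => by
    refine Eq.trans ?_ (homR_P M.b.r A.diag.r _ m).symm
    change q.f (((HomR M.b.r M.b.r).P φ).1 m) =
      A.P (q.f (φ.1 (M.N.P m))) + (q.f (φ.1 (m - M.N.P m)) - A.P (q.f (φ.1 (m - M.N.P m))))
    rw [homR_P, map_add, map_sub, q.P, q.P])

private theorem uPo_apply (φ : (HomR M.b.r M.b.r).V) (m : M.N.V) :
    ((uPo M q hm).f φ).1 m = q.f (φ.1 m) := rfl

private theorem uPo_isHom : (bEnd M).IsHom (bMst M) (uPo M q hm) where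
  l := fun a φ => Subtype.ext (LinearMap.ext fun m => hm.l a (φ.1 m))
  r := fun _ _ => rfl

/-- `κ : a ↦ (m ↦ a q(m))` -/
private def uKa : SD.Hom A.toSD (HomR M.b.r A.diag.r) := (uPo M q hm).comp (lamM M)

private theorem uKa_apply (a : A.V) (m : M.N.V) :
    ((uKa M q hm).f a).1 m = a * q.f m := hm.l a m

private theorem uKa_isHom : A.diag.IsHom (bMst M) (uKa M q hm) :=
  (lamM_isHom M).comp (uPo_isHom M q hm)

/-- the contraction and `q` -/
private theorem uPo_contr (v : (Bar M.b.r (mstL M.b.r)).V) :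
    (uPo M q hm).f ((contrR M.b.r M.b.r).f v) =
      (contrR M.b.r A.diag.r).f ((barMap q (SD.Hom.id (HomR M.b.r A.diag.r)) hm.r
        (LA.isHom_id (mstL M.b.r))).f v) := by
  refine tens_ext (f := (uPo M q hm).f ∘ₗ (contrR M.b.r M.b.r).f)
    (g := (contrR M.b.r A.diag.r).f ∘ₗ (barMap q (SD.Hom.id (HomR M.b.r A.diag.r)) hm.r
        (LA.isHom_id (mstL M.b.r))).f) (fun w φ => ?_) v
  rw [LinearMap.comp_apply, LinearMap.comp_apply, barMap_tmul]
  induction w using Wd.induction with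
  | hadd a b ha hb =>
    rw [map_add, TensorProduct.add_tmul, TensorProduct.add_tmul, map_add, map_add, map_add, ha, hb]
  | hnil z =>
    refine Subtype.ext (LinearMap.ext fun x => ?_)
    rw [Wd.map_nil, uPo_apply, contrR_nil, contrR_nil]
    exact hm.r z (φ.1 x)
  | hsnoc w _ b =>
    have h1 : (contrR M.b.r M.b.r).f (Wd.snoc w b ⊗ₜ φ) = 0 := augB_snoc _ _ _ _ w b φ
    rw [h1, map_zero, Wd.map_snoc]
    exact (augB_snoc _ _ _ _ _ _ _).symm

/-- `HomR(M, M) → HomR(M, A)` is a quasi-isomorphism -/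
private theorem uPo_qi (hR : RPf M.b.r) (hq : q.QI) : (uPo M q hm).QI := by
  have h1 : (contrR M.b.r M.b.r).QI := contrR_qi hR M.b.r M.r_one
  have h2 : (contrR M.b.r A.diag.r).QI := contrR_qi hR A.diag.r fun z => mul_one (M := A.V) z
  have h3 : (barMap q (SD.Hom.id (HomR M.b.r A.diag.r)) hm.r
      (LA.isHom_id (mstL M.b.r))).QI := qi_bar hm.r (LA.isHom_id (mstL M.b.r)) hq (SD.Hom.QI.id _)
  exact SD.Hom.QI.of_comp_right h1 ((h2.comp h3).congr fun v => (uPo_contr M q hm v).symm)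

/-- the augmentation followed by `q` -/
private def uAu : SD.Hom (Bar M.b.r A.diag.l) A.toSD := q.comp (augR M.b.r)

include hm in
private theorem uAu_isHom : (M.b.bar A.diag).IsHom A.diag (uAu M q) :=
  (augR_isHom M.b).comp hm

/-- `1 ⊗ κ` -/
private def uBk : SD.Hom (Bar M.b.r A.diag.l) (Bar M.b.r (bMst M).l) :=
  barMap (SD.Hom.id M.N) (uKa M q hm) (RA.isHom_id M.b.r) (uKa_isHom M q hm).l

private theorem uBk_isHom : (M.b.bar A.diag).IsHom (M.b.bar (bMst M)) (uBk M q hm) :=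
  barMap_isHom (Bi.isHom_id M.b) (uKa_isHom M q hm)

private theorem uBk_tmul (w : Wd k M.N.V A.V) (a : A.V) :
    (uBk M q hm).f (w ⊗ₜ a) = w ⊗ₜ (uKa M q hm).f a := by
  have h1 : ∀ w : Wd k M.N.V A.V, Wd.map (SD.Hom.id M.N).f LinearMap.id w = w := by
    intro w
    induction w using Wd.induction with
    | hadd a b ha hb => rw [map_add, ha, hb]
    | hnil n => rw [Wd.map_nil]; rfl
    | hsnoc w hw b => rw [Wd.map_snoc, hw]; rfl
  have h2 : (uBk M q hm).f (w ⊗ₜ a) = Wd.map (SD.Hom.id M.N).f LinearMap.id w ⊗ₜ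
    (uKa M q hm).f a := rfl
  rw [h2, h1]

/-- the contraction of `1 ⊗ κ`, composed with `q` -/
private theorem u_contr (v : (Bar M.b.r A.diag.l).V) :
    (uPo M q hm).f ((contrR M.b.r M.b.r).f ((uBk M q hm).f v)) =
      (uPo M q hm).f ((lamM M).f ((uAu M q).f v)) := by
  refine tens_ext (f := (uPo M q hm).f ∘ₗ (contrR M.b.r M.b.r).f ∘ₗ (uBk M q hm).f)
    (g := (uPo M q hm).f ∘ₗ (lamM M).f ∘ₗ (uAu M q).f) (fun w a => ?_) v
  simp only [LinearMap.comp_apply]
  rw [uBk_tmul]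
  induction w using Wd.induction with
  | hadd x y hx hy => simp only [map_add, TensorProduct.add_tmul, hx, hy]
  | hnil m =>
    refine Subtype.ext (LinearMap.ext fun x => ?_)
    rw [uPo_apply, contrR_nil, uKa_apply, uPo_apply]
    have h1 : (uAu M q).f (Wd.nil m ⊗ₜ a) = q.f (M.b.r.act m a) :=
      congrArg q.f (augB_nil M.b.r A.diag.l _ _ m a)
    have h2 : q.f (M.b.r.act m (a * q.f x)) = q.f m * (a * q.f x) := hm.r m (a * q.f x)
    have h3 : q.f (M.b.r.act m a) = q.f m * a := hm.r m a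
    have h4 : ((lamM M).f (q.f m * a)).1 x = M.b.l.act (q.f m * a) x := rfl
    have h5 : q.f (M.b.l.act (q.f m * a) x) = (q.f m * a) * q.f x := hm.l _ _
    rw [h1, h2, h3, h4, h5, mul_assoc]
  | hsnoc w _ r =>
    have h1 : (contrR M.b.r M.b.r).f (Wd.snoc w r ⊗ₜ (uKa M q hm).f a) = 0 :=
      augB_snoc _ _ _ _ w r _
    have h2 : (uAu M q).f (Wd.snoc w r ⊗ₜ a) = 0 := by
      have h3 : (augR M.b.r).f (Wd.snoc w r ⊗ₜ a) = 0 := augB_snoc M.b.r A.diag.l _ _ w r a
      exact (congrArg q.f h3).trans (map_zero q.f)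
    rw [h1, h2, map_zero, map_zero, map_zero]

include hm in
/-- the data of the homotopy lemma -/
private theorem u_hdata : HData M.b A.diag (DGA.NHom.id A) (DGA.NHom.id A) q
    (SD.Hom.id A.toSD) where
  sx := fun s x => hm.l s x
  xr := fun x r => hm.r x r
  ry := fun _ _ => rfl
  ys := fun _ _ => rfl

include hm in
private theorem u_contrL (z : Wd k (Wd k M.N.V A.V ⊗[k] A.V) A.V) :
    contrL (R := A) (DGA.NHom.id A) q (SD.Hom.id A.toSD) z = Wd.mh A.V (uAu M q).f z := by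
  induction z using Wd.induction with
  | hadd a b ha hb => rw [map_add, map_add, ha, hb]
  | hnil v =>
    rw [Wd.mh_nil]
    refine (Wd.map_nil _ _ _).trans (congrArg Wd.nil ?_)
    refine tens_ext (f := TensorProduct.lift (Wd.recW (A.mul.compl₁₂ q.f (SD.Hom.id A.toSD).f)
      0 0)) (g := (uAu M q).f) (fun w a => ?_) v
    rw [TensorProduct.lift.tmul]
    induction w using Wd.induction with
    | hadd x y hx hy => rw [map_add, TensorProduct.add_tmul, map_add, LinearMap.add_apply, hx, hy]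
    | hnil m =>
      have h1 : (uAu M q).f (Wd.nil m ⊗ₜ a) = q.f (M.b.r.act m a) :=
        congrArg q.f (augB_nil M.b.r A.diag.l _ _ m a)
      rw [h1, Wd.recW_nil]
      exact (hm.r m a).symm
    | hsnoc w _ r =>
      have h3 : (augR M.b.r).f (Wd.snoc w r ⊗ₜ a) = 0 := augB_snoc M.b.r A.diag.l _ _ w r a
      have h2 : (uAu M q).f (Wd.snoc w r ⊗ₜ a) = 0 :=
        (congrArg q.f h3).trans (map_zero q.f)
      rw [h2, Wd.recW_snoc]
      simp
  | hsnoc z hz r =>
    rw [Wd.mh_snoc, ← hz]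
    exact Wd.map_snoc _ _ _ _

private theorem u_hn (y : A.V) (w : Wd k M.N.V A.V) :
    hn A (evR M.b.r) ((uKa M q hm).f y) w = hn A (mulHom (SD.Hom.id A.toSD) q) y w := by
  induction w using Wd.induction with
  | hadd a b ha hb => rw [map_add, map_add, ha, hb]
  | hnil x =>
    rw [hn_nil, hn_nil, bl_apply, bl_apply, mulHom_tmul, evR_tmul, uKa_apply]
    rfl
  | hsnoc w hw r => rw [hn_snoc, hn_snoc, hw]

private theorem u_evL (z : Wd k (Wd k M.N.V A.V ⊗[k] A.V) A.V) :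
    evL (S := A) (DGA.NHom.id A) q (SD.Hom.id A.toSD) z =
      (evM M).f (Wd.mh A.V (uBk M q hm).f z) := by
  refine Wd.ext_apply (f := evL (S := A) (DGA.NHom.id A) q (SD.Hom.id A.toSD))
    (g := (evM M).f ∘ₗ Wd.mh A.V (uBk M q hm).f) (fun v => ?_) (fun z _ r => ?_) z
  · refine tens_ext (f := evL (S := A) (DGA.NHom.id A) q (SD.Hom.id A.toSD) ∘ₗ Wd.nil)
      (g := (evM M).f ∘ₗ Wd.mh A.V (uBk M q hm).f ∘ₗ Wd.nil) (fun w y => ?_) v
    simp only [LinearMap.comp_apply]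
    rw [Wd.mh_nil, uBk_tmul]
    have h1 : (evM M).f (Wd.nil (w ⊗ₜ (uKa M q hm).f y)) =
        evB0 A (evR M.b.r) (w ⊗ₜ (uKa M q hm).f y) := by
      unfold evM evH
      exact (tr0_nil _ _ _ _).trans rfl
    have hid : ∀ w : Wd k A.V A.V, Wd.map LinearMap.id (DGA.NHom.id A).f w = w := by
      intro w
      induction w using Wd.induction with
      | hadd a b ha hb => rw [map_add, ha, hb]
      | hnil n => rw [Wd.map_nil]; rfl
      | hsnoc w hw b => rw [Wd.map_snoc, hw]; rfl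
    rw [h1, evB0_tmul, ← (uKa M q hm).P, ← map_sub, u_hn, u_hn, evL, Wd.recW_nil,
      LinearMap.comp_apply, evB0_tmul, hid]
  · have h1 : (evM M).f (Wd.snoc (Wd.mh A.V (uBk M q hm).f z) r) = 0 := by
      unfold evM evH
      exact tr0_snoc _ _ _ _ _
    rw [LinearMap.comp_apply, Wd.mh_snoc, h1, evL, Wd.recW_snoc]
    simp

end unit

theorem unit_lift {A : DGA k} (M : BMod A A) (hR : RPf M.b.r) (q : BMod.Hom M (BMod.diag A))
    (hq : q.toHom.QI) (w w' : (HC A.diag).V) (hw : (HC A.diag).D w = 0)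
    (hw' : (HC A.diag).D w' = 0)
    (h1 : (HC (EndR (AM M).b.r).diag).Hml ((hcA (iE M)).f w') ((hcA (rhoE M)).f w)) :
    (HC A.diag).Hml w' w := by
  let q' : SD.Hom M.N A.toSD := q.toHom
  have hm : M.b.IsHom A.diag q' := q.isHom
  have hq' : q'.QI := hq
  let g : SD.Hom (HC (M.b.bar A.diag)) (HC A.diag) :=
    hcN (M.b.bar A.diag) A.diag (uAu M q') (uAu_isHom M q' hm)
  have hg : g.QI := QI_hc _ _ _ _ (hq'.comp (qi_augR M.b.r M.r_one))
  obtain ⟨z, u, hz, hwz⟩ := hg.surj w hw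
  let j : SD.Hom (HC (M.b.bar A.diag)) (HC (M.b.bar (bMst M))) :=
    hcN (M.b.bar A.diag) (M.b.bar (bMst M)) (uBk M q' hm) (uBk_isHom M q' hm)
  have hγ : (HC (M.b.bar (bMst M))).D (j.f z) = 0 := by rw [← j.D, hz, map_zero]
  let lam' : SD.Hom (HC A.diag) (HC (bEnd M)) := hcN A.diag (bEnd M) (lamM M) (lamM_isHom M)
  let p : SD.Hom (HC (bEnd M)) (HC (bMst M)) :=
    hcN (bEnd M) (bMst M) (uPo M q' hm) (uPo_isHom M q' hm)
  have hp : p.QI := QI_hc _ _ _ _ (uPo_qi M q' hm hR hq')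
  have e1 : ∀ x, p.f ((contrH M).f (j.f x)) = p.f (lam'.f (g.f x)) := by
    intro x
    change Wd.mh A.V (uPo M q' hm).f (Wd.mh A.V (contrR M.b.r M.b.r).f
      (Wd.mh A.V (uBk M q' hm).f x)) = Wd.mh A.V (uPo M q' hm).f (Wd.mh A.V (lamM M).f
      (Wd.mh A.V (uAu M q').f x))
    rw [Wd.mh_comp, Wd.mh_comp, Wd.mh_comp, Wd.mh_comp]
    exact Wd.mh_congr (fun v => u_contr M q' hm v) x
  have h2 : (HC (bEnd M)).Hml ((contrH M).f (j.f z)) (lam'.f w) := by
    refine hp.inj _ (-(p.f (lam'.f u))) ?_ ?_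
    · rw [map_sub, ← (contrH M).D, hγ, map_zero, ← lam'.D, hw, map_zero, sub_zero]
    · rw [map_sub, e1, hwz, map_neg, ← p.D, ← lam'.D, map_add, map_add]
      abel
  have h3 := TR_rpf M hR (j.f z) hγ w w' hw' h1 h2
  have h4 := hh_D (u_hdata M q' hm) z
  have h5 : hcD (M.b.bar A.diag) z = 0 := hz
  rw [h5, map_zero, add_zero, u_contrL M q' hm, u_evL M q' hm] at h4
  have h6 : (HC A.diag).Hml w ((evM M).f (j.f z)) := by
    refine ⟨hh (DGA.NHom.id A) (DGA.NHom.id A) q' (SD.Hom.id A.toSD) z + u, ?_⟩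
    rw [map_add]
    refine (congrArg (· + (HC A.diag).D u) h4).trans ?_
    rw [hwz]
    change Wd.mh A.V (uAu M q').f z - (evM M).f (Wd.mh A.V (uBk M q' hm).f z) +
      (HC A.diag).D u = Wd.mh A.V (uAu M q').f z + (HC A.diag).D u -
      (evM M).f (Wd.mh A.V (uBk M q' hm).f z)
    abel
  exact (h6.trans h3).symm

end NC
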