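import Mathlib
import Pool.Agent.H94.NT.StrT
import Pool.Agent.H94.NT.UniT
import Pool.Agent.H94.NT.BarR
import Pool.Agent.H94.NT.PFT
import Pool.Agent.H94.NT.ExT
import Pool.Agent.H94.NC.Asm
import Pool.Agent.H36.NX.FH

/-!
# LefZ : the supertraces of `T ∘ t_M` and of `T` vanish

`lefschetz_cnr` (StrT.lean) for `M.bm`: `trace (cohE ∘ S' ∘ t') = χ(GG M.bm.b Θ.b)`, and
`GG M.bm.b Θ.b = HC((BMod.bar M.bm Θ).b)` has `χ = 0` since `BMod.bar M.bm Θ` is perfect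
(`PF_of_RPf`, `PF_bar'`), `X.chi`.  Its finiteness: `finH` of `HC` of a perfect bimodule
(H36/NX/FH.lean).  Transport to `HT`: `ZDGA.trace_ht`, `ZDGA.htE_nat`, `htE`, and `M.jL`,
`jL_iM`, `jL_rhoM`, `Coh_hcA_comp` as in `hstr_of_lefschetz` (H94/NC/Asm.lean).  For `T` alone
take `M` from `exists_diag_res`; there the operator is the identity by `unit_lift`
(`iE_qi` gives `w'`).
-/

set_option autoImplicit false

noncomputable section

namespace NC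

variable {k : Type} [Field k] {A B : ZDGA k} {i h : ZHom A B}

/-- general form -/
theorem ExT.trace_zero (X : ExT A B i h) (M : BMod A.toDGA A.toDGA) (I : Type)
    (hSF : SemiFree M.b I) (hR : RPf M.b.r) (S t : (HC A.toDGA.diag).Coh →ₗ[k]
      (HC A.toDGA.diag).Coh)
    (hS : ∀ c, SD.Coh.map (hcA i.nh) (S c) = SD.Coh.map (hcA h.nh) c)
    (ht : ∀ c, SD.Coh.map (hcA (iE M)) (t c) = SD.Coh.map (hcA (rhoE M)) c) :
    LinearMap.trace k _ (SD.cohE (HC A.toDGA.diag) ∘ₗ S ∘ₗ t) = 0 := by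
  have hA : A.toDGA.toSD.FinH := SD.coh_finite_iff.1 X.finA
  have hΘ0 : X.Θ0.N.FinH := by
    have hf : FiniteDimensional k (BMod.diag A.toDGA).N.Coh := X.finA
    have hb : Function.Bijective (SD.Coh.map X.q.toHom) :=
      (SD.Coh.map_bijective_iff _).2 X.hq
    exact SD.coh_finite_iff.1 (Module.Finite.equiv (LinearEquiv.ofBijective _ hb))
  have hPFM : PF A.toDGA M := PF_of_RPf X.pf M hR
  have hbar : PF A.toDGA (BMod.bar M X.Θ) := PF_bar' hPFM X.Θ X.pfR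
  have hG : (GG M.b X.Θ.b).FinH := finH_HC_PF hA X.pf hbar
  exact (lefschetz_cnr X.pf hA X.finB i.nh h.nh X.qi X.Θ X.Θ0 X.cn X.cn0 X.q X.hq X.finΘ hΘ0
    S hS M I hSF hR hG t ht).trans (X.chi (BMod.bar M X.Θ) hbar)

/-- transport of an operator of `HT` to the homology of the Hochschild complex -/
private def lzT (A : ZDGA k) (S : A.cyc.HT →ₗ[k] A.cyc.HT) :
    A.toDGA.hh.Coh →ₗ[k] A.toDGA.hh.Coh :=
  A.htE.symm.toLinearMap ∘ₗ S ∘ₗ A.htE.toLinearMap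

private theorem lzT_htE (A : ZDGA k) (S : A.cyc.HT →ₗ[k] A.cyc.HT) (c : A.toDGA.hh.Coh) :
    A.htE (lzT A S c) = S (A.htE c) := by
  simp only [lzT, LinearMap.comp_apply, LinearEquiv.coe_coe, LinearEquiv.apply_symm_apply]

private theorem lzT_comp (A : ZDGA k) (S t : A.cyc.HT →ₗ[k] A.cyc.HT) :
    lzT A (S ∘ₗ t) = lzT A S ∘ₗ lzT A t := by
  refine LinearMap.ext (fun c => ?_)
  simp only [lzT, LinearMap.comp_apply, LinearEquiv.coe_coe, LinearEquiv.apply_symm_apply]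

private theorem lzT_hS {A B : ZDGA k} {i h : ZHom A B} (S : A.cyc.HT →ₗ[k] A.cyc.HT)
    (hS : ∀ x, i.cyc.HT (S x) = h.cyc.HT x) (c : A.toDGA.hh.Coh) :
    SD.Coh.map (hcA i.nh) (lzT A S c) = SD.Coh.map (hcA h.nh) c := by
  rw [← ZHom.hh_eq, ← ZHom.hh_eq]
  apply B.htE.injective
  rw [ZDGA.htE_nat, ZDGA.htE_nat, lzT_htE, hS]

theorem ExT.trace_corr (X : ExT A B i h) (M : ZBim A) (hM : M.IsCorr)
    (S t : A.cyc.HT →ₗ[k] A.cyc.HT) (hS : ∀ x, i.cyc.HT (S x) = h.cyc.HT x)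
    (ht : ∀ x, M.iM.cyc.HT (t x) = M.rhoM.cyc.HT x) :
    LinearMap.trace k _ (A.EHT ∘ₗ S ∘ₗ t) = 0 := by
  obtain ⟨I, ⟨hSF⟩⟩ := hM.semiFree
  rw [A.trace_ht]
  change LinearMap.trace k _ (SD.cohE A.toDGA.hh ∘ₗ lzT A (S ∘ₗ t)) = 0
  rw [lzT_comp]
  refine X.trace_zero M.bm I hSF hM.rpf (lzT A S) (lzT A t) (lzT_hS S hS) (fun c => ?_)
  rw [← Coh_hcA_comp M.jL M.iM.nh (iE M.bm) M.jL_iM,
    ← Coh_hcA_comp M.jL M.rhoM.nh (rhoE M.bm) M.jL_rhoM, lzT_hS t ht c]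

private theorem lz_id {A : DGA k} (M : BMod A A) (hR : RPf M.b.r) (q : BMod.Hom M (BMod.diag A))
    (hq : q.toHom.QI) (c : (HC A.diag).Coh) :
    SD.Coh.map (hcA (iE M)) c = SD.Coh.map (hcA (rhoE M)) c := by
  obtain ⟨w, hw, rfl⟩ := SD.Coh.exists_mk c
  have hy : (HC (EndR (AM M).b.r).diag).D ((hcA (rhoE M)).f w) = 0 := by
    have h0 := (hcA (rhoE M)).D w
    rw [hw, map_zero] at h0
    exact h0.symm
  obtain ⟨w', u, hw', hwu⟩ := (iE_qi M hR).surj _ hy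
  have h2 : (HC (EndR (AM M).b.r).diag).Hml ((hcA (iE M)).f w') ((hcA (rhoE M)).f w) :=
    ⟨-u, by rw [map_neg, hwu]; abel⟩
  obtain ⟨v, hv⟩ := unit_lift M hR q hq w w' hw hw' h2
  rw [SD.Coh.map_mk, SD.Coh.map_mk]
  refine (SD.Coh.mk_eq_mk _ _).2 ⟨-(hcA (iE M)).f v - u, ?_⟩
  rw [map_sub, map_neg, ← (hcA (iE M)).D v, hv, hwu, map_sub]
  abel

theorem ExT.trace_id (X : ExT A B i h) (S : A.cyc.HT →ₗ[k] A.cyc.HT)
    (hS : ∀ x, i.cyc.HT (S x) = h.cyc.HT x) :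
    LinearMap.trace k _ (A.EHT ∘ₗ S) = 0 := by
  obtain ⟨M, q, hq, hR, I, ⟨hSF⟩⟩ := exists_diag_res A
  rw [A.trace_ht]
  change LinearMap.trace k _ (SD.cohE A.toDGA.hh ∘ₗ lzT A S) = 0
  have h1 := X.trace_zero M I hSF hR (lzT A S) LinearMap.id (lzT_hS S hS)
    (fun c => lz_id M hR q hq c)
  rw [LinearMap.comp_id] at h1
  exact h1

end NC
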