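import Mathlib

/-!
# TrA : an endomorphism of trace one (linear algebra)

Proof: `T ^ N v = λ(v) e` with `λ` linear (`e ≠ 0`), `λ (T v) = λ v`, `λ e = 1`.  Put
`T' = T - λ(·) e`; then `T' ^ j v = T ^ j v - λ(v) e`, so `T' ^ N = 0` (for `N ≥ 1`; for `N = 0`
replace `N` by `N + 1`) and `trace T' = 0` (`LinearMap.isNilpotent_trace_of_isNilpotent`),
`trace (λ(·) e) = λ e = 1`.
-/

set_option autoImplicit false

noncomputable section

namespace NC

theorem trace_one_of_pow {k V : Type} [Field k] [AddCommGroup V] [Module k V]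
    [FiniteDimensional k V] (T : V →ₗ[k] V) (e : V) (he : e ≠ 0) (hT : T e = e) (N : ℕ)
    (h : ∀ v, ∃ c : k, (T ^ N) v = c • e) : LinearMap.trace k V T = 1 := by
  choose lam hlam using h
  have inj : ∀ a b : k, a • e = b • e → a = b := fun a b hab =>
    smul_left_injective k he hab
  let L : V →ₗ[k] k :=
    { toFun := lam
      map_add' := fun x y => inj _ _ (by rw [← hlam, map_add, hlam, hlam, add_smul])
      map_smul' := fun a x => inj _ _ (by
        rw [← hlam, map_smul, hlam, RingHom.id_apply, smul_eq_mul, mul_smul]) }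
  have hL : ∀ v, (T ^ N) v = L v • e := hlam
  have hTe : ∀ j : ℕ, (T ^ j) e = e := by
    intro j
    induction j with
    | zero => rfl
    | succ j ih => rw [pow_succ, Module.End.mul_apply, hT, ih]
  have hLe : L e = 1 := inj _ _ (by rw [← hL, hTe, one_smul])
  have hLT : ∀ v, L (T v) = L v := by
    intro v
    refine inj _ _ ?_
    rw [← hL, ← Module.End.mul_apply, ← pow_succ, pow_succ', Module.End.mul_apply, hL, map_smul,
      hT]
  have hLTj : ∀ (j : ℕ) v, L ((T ^ j) v) = L v := by
    intro j
    induction j with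
    | zero => intro v; rfl
    | succ j ih => intro v; rw [pow_succ', Module.End.mul_apply, hLT, ih]
  let S : V →ₗ[k] V := T - L.smulRight e
  have hS : ∀ v, S v = T v - L v • e := fun v => rfl
  have hSj : ∀ (j : ℕ) v, (S ^ (j + 1)) v = (T ^ (j + 1)) v - L v • e := by
    intro j
    induction j with
    | zero => intro v; rw [zero_add, pow_one, pow_one, hS]
    | succ j ih =>
      intro v
      rw [pow_succ', Module.End.mul_apply, ih, hS, map_sub, map_smul, hT, map_sub, hLTj, map_smul,
        hLe, smul_eq_mul, mul_one, sub_self, zero_smul, sub_zero, pow_succ' T (j + 1),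
        Module.End.mul_apply]
  have hnil : IsNilpotent S := by
    refine ⟨N + 1, LinearMap.ext (fun v => ?_)⟩
    rw [hSj, pow_succ', Module.End.mul_apply, hL, map_smul, hT, sub_self, LinearMap.zero_apply]
  have h0 : LinearMap.trace k V S = 0 :=
    (LinearMap.isNilpotent_trace_of_isNilpotent hnil).eq_zero
  have h1 : LinearMap.trace k V T = LinearMap.trace k V S + LinearMap.trace k V (L.smulRight e) := by
    rw [← map_add, sub_add_cancel]
  have h2 : LinearMap.trace k V (L.smulRight e) = L e := LinearMap.trace_smulRight L e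
  rw [h1, h0, h2, hLe, zero_add]

/-- nilpotence along an exact sequence -/
theorem pow_zero_of_exact {k U V W : Type} [Field k] [AddCommGroup U] [Module k U]
    [AddCommGroup V] [Module k V] [AddCommGroup W] [Module k W] (i : U →ₗ[k] V) (p : V →ₗ[k] W)
    (hex : ∀ v, p v = 0 → ∃ u, i u = v) (a : U →ₗ[k] U) (b : V →ₗ[k] V) (c : W →ₗ[k] W)
    (hi : ∀ u, b (i u) = i (a u)) (hp : ∀ v, c (p v) = p (b v)) (m n : ℕ) (ha : a ^ m = 0)
    (hc : c ^ n = 0) : b ^ (m + n) = 0 := by
  have hpn : ∀ (j : ℕ) v, p ((b ^ j) v) = (c ^ j) (p v) := by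
    intro j
    induction j with
    | zero => intro v; rfl
    | succ j ih => intro v; rw [pow_succ', Module.End.mul_apply, ← hp, ih, pow_succ',
        Module.End.mul_apply]
  have hin : ∀ (j : ℕ) u, (b ^ j) (i u) = i ((a ^ j) u) := by
    intro j
    induction j with
    | zero => intro u; rfl
    | succ j ih => intro u; rw [pow_succ', Module.End.mul_apply, ih, hi, pow_succ',
        Module.End.mul_apply]
  refine LinearMap.ext (fun v => ?_)
  obtain ⟨u, hu⟩ := hex ((b ^ n) v) (by rw [hpn, hc, LinearMap.zero_apply])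
  rw [pow_add, Module.End.mul_apply, ← hu, hin, ha, LinearMap.zero_apply, map_zero,
    LinearMap.zero_apply]

end NC
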