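import Mathlib
import Pool.Agent.H94.NT.NEnd
import Pool.Agent.H94.NT.TrA

/-!
# NilC : nilpotence on cyclic homology in negative degrees

`T : NEnd A` vanishes on `HH_m` for all even `m < 0`.  Then `T` is nilpotent on `H (Ici 0) m` for
all even `m < 0`.  Induction on `m` from below: `H (Ici 0) m = 0` for `m < lo` (`HC_zero`); step
with `adjC` (`inc : H (blk 0) m → H (Ici 0) m`, `pr : H (Ici 0) m → H (Ici 2) m`, `exact_mid`),
`T = 0` on `H (blk 0) m` (`toBlk_bij`), `H (Ici 2) m ≅ H (Ici 0) (m - 2)` (`A.sh`, `shS_Ici`,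
`sh_bij`), and `pow_zero_of_exact`.  `Win (blk 0)` has to be proved (`mem_blk`).
-/

set_option autoImplicit false

noncomputable section

namespace NC

namespace CycMod

variable {k : Type} [Field k] {A : CycMod k}

theorem nilC_blk0 : Win (blk 0) := by
  refine ⟨?_, Set.ordConnected_Ico⟩
  intro i p hp hp' q hq
  rw [mem_blk] at hp hp' hq ⊢
  omega

/-- transport of the vanishing of a power along a shift -/
theorem nilC_transport (T : NEnd A) (I I' : Set ℤ) (m n j : ℤ) (hI : I' = shS I j)
    (hn : n = m - 2 * j) (hW : Win I) (hW' : Win I') (N : ℕ) (h : T.e I' n ^ N = 0) :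
    T.e I m ^ N = 0 := by
  have key : ∀ (M : ℕ) (x : A.H I m),
      A.sh I I' m n j hI hn ((T.e I m ^ M) x) = (T.e I' n ^ M) (A.sh I I' m n j hI hn x) := by
    intro M
    induction M with
    | zero => intro x; simp
    | succ M ih =>
      intro x
      rw [pow_succ', pow_succ', Module.End.mul_apply, Module.End.mul_apply, ← ih x,
        T.sh I I' m n j hI hn hW hW']
  refine LinearMap.ext fun x => ?_
  apply (A.sh_bij I I' m n j hI hn).1
  rw [key, h, LinearMap.zero_apply, LinearMap.zero_apply, map_zero]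

theorem NEnd.nil_Ici (hA : A.Bex) (T : NEnd A) (lo : ℤ)
    (hlo : ∀ m, m < lo → ∀ x : A.HH m, x = 0)
    (h1 : ∀ m, Even m → m < 0 → ∀ x : A.HH m, T.hh m x = 0) (m : ℤ) (hm : Even m)
    (hm0 : m < 0) : ∃ n : ℕ, T.e (Set.Ici 0) m ^ n = 0 := by
  have main : ∀ (d : ℕ) (m : ℤ), Even m → m < 0 → m < lo + 2 * d →
      ∃ n : ℕ, T.e (Set.Ici 0) m ^ n = 0 := by
    intro d
    induction d with
    | zero =>
      intro m hm hm0 hd
      refine ⟨1, LinearMap.ext fun x => ?_⟩
      exact A.HC_zero hA hlo (by push_cast at hd; omega) _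
    | succ d ih =>
      intro m hm hm0 hd
      obtain ⟨n, hn⟩ := ih (m - 2) (hm.sub even_two) (by omega) (by push_cast at hd; omega)
      have hc : T.e (Set.Ici 2) m ^ n = 0 :=
        nilC_transport T (Set.Ici 2) (Set.Ici 0) m (m - 2) 1 shS_Ici (by ring)
          win_Ici2 win_Ici n hn
      have ha : T.e (blk 0) m ^ 1 = 0 := by
        refine LinearMap.ext fun x => ?_
        obtain ⟨y, rfl⟩ := (A.toBlk_bij hA m).2 x
        rw [pow_one, T.toBlk, h1 m hm hm0 y, map_zero, LinearMap.zero_apply]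
      refine ⟨1 + n, ?_⟩
      exact pow_zero_of_exact (adjC.inc A m) (adjC.pr A m)
        (fun v hv => adjC.exact_mid A m v hv) (T.e (blk 0) m) (T.e (Set.Ici 0) m)
        (T.e (Set.Ici 2) m)
        (fun u => T.inc adjC nilC_blk0 win_Ici2 win_Ici m u)
        (fun v => T.pr adjC nilC_blk0 win_Ici2 win_Ici m v) 1 n ha hc
  exact main (m - lo + 1).toNat m hm hm0 (by have := Int.self_le_toNat (m - lo + 1); omega)

end CycMod

end NC
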