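import Mathlib
import Pool.Agent.H94.NT.NEnd
import Pool.Agent.H94.NT.TrA

/-!
# NilI : nilpotence on the homology of the window `Iio 0`

`T : NEnd A` vanishes on `HH_m` for all even `m > 0`.  Then `T` is nilpotent on `H (Iio 0) m` for
all even `m ≥ 0`.  Downward induction on `m`: `H (Iio 0) m = 0` for `hi ≤ m + 1` (`Iio_zero`);
step with `Adj (Iio (-2)) (blk (-1)) (Iio 0)`: `H (blk (-1)) m ≅ H (blk 0) (m + 2)`
(`A.sh`, `shS_blk`), where `T = 0` by `toBlk_bij`, and `H (Iio (-2)) m ≅ H (Iio 0) (m + 2)`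
(`A.sh` with `j = -1`), and `pow_zero_of_exact`.  `Win (Iio (-2))`, `Win (blk (-1))` have to be
proved (`mem_blk`).
-/

set_option autoImplicit false

noncomputable section

namespace NC

namespace CycMod

variable {k : Type} [Field k] {A : CycMod k}

theorem nilI_win_Iio : Win (Set.Iio (-2)) := by
  refine ⟨?_, Set.ordConnected_Iio⟩
  intro i p hp hp' q hq
  rw [mem_blk] at hp hq
  rw [Set.mem_Iio] at hp' ⊢
  omega

theorem nilI_win_blk : Win (blk (-1)) := by
  refine ⟨?_, Set.ordConnected_Ico⟩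
  intro i p hp hp' q hq
  rw [mem_blk] at hp hp' hq ⊢
  omega

theorem nilI_adj : Adj (Set.Iio (-2)) (blk (-1)) (Set.Iio 0) where
  union := by
    ext p
    rw [Set.mem_union, mem_blk, Set.mem_Iio, Set.mem_Iio]
    omega
  lt := by
    intro j hj p hp
    rw [mem_blk] at hp
    rw [Set.mem_Iio] at hj
    omega
  conn := Set.ordConnected_Iio

theorem nilI_shS : Set.Iio (0 : ℤ) = shS (Set.Iio (-2)) (-1) := by
  ext p
  unfold shS
  rw [Set.mem_Iio, Set.mem_ofPred_eq, Set.mem_Iio]
  omega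

theorem nilI_blk0 : Win (blk 0) := by
  refine ⟨?_, Set.ordConnected_Ico⟩
  intro i p hp hp' q hq
  rw [mem_blk] at hp hp' hq ⊢
  omega

/-- transport of the vanishing of a power along a shift -/
theorem nilI_transport (T : NEnd A) (I I' : Set ℤ) (m n j : ℤ) (hI : I' = shS I j)
    (hn : n = m - 2 * j) (hW : Win I) (hW' : Win I') (N : ℕ) (h : T.e I' n ^ N = 0) :
    T.e I m ^ N = 0 := by
  have key : ∀ (M : ℕ) (x : A.H I m),
      A.sh I I' m n j hI hn ((T.e I m ^ M) x) = (T.e I' n ^ M) (A.sh I I' m n j hI hn x) := by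
    intro M
    induction M with
    | zero => intro x; simp
    | succ M ih =>
      intro x
      rw [pow_succ', pow_succ', Module.End.mul_apply, Module.End.mul_apply, ← ih x,
        T.sh I I' m n j hI hn hW hW']
  refine LinearMap.ext fun x => ?_
  apply (A.sh_bij I I' m n j hI hn).1
  rw [key, h, LinearMap.zero_apply, LinearMap.zero_apply, map_zero]

theorem NEnd.nil_Iio (hA : A.Bex) (T : NEnd A) (hi : ℤ)
    (hhi : ∀ m, hi < m → ∀ x : A.HH m, x = 0)
    (h1 : ∀ m, Even m → 0 < m → ∀ x : A.HH m, T.hh m x = 0) (m : ℤ) (hm : Even m)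
    (hm0 : 0 ≤ m) : ∃ n : ℕ, T.e (Set.Iio 0) m ^ n = 0 := by
  have main : ∀ (d : ℕ) (m : ℤ), Even m → 0 ≤ m → hi ≤ m + 1 + 2 * d →
      ∃ n : ℕ, T.e (Set.Iio 0) m ^ n = 0 := by
    intro d
    induction d with
    | zero =>
      intro m hm hm0 hd
      refine ⟨1, LinearMap.ext fun x => ?_⟩
      exact A.Iio_zero hA hhi (by push_cast at hd; omega) _
    | succ d ih =>
      intro m hm hm0 hd
      obtain ⟨n, hn⟩ := ih (m + 2) (hm.add even_two) (by omega) (by push_cast at hd; omega)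
      have ha : T.e (Set.Iio (-2)) m ^ n = 0 :=
        nilI_transport T (Set.Iio (-2)) (Set.Iio 0) m (m + 2) (-1) nilI_shS (by ring)
          nilI_win_Iio win_Iio n hn
      have hb : T.e (blk 0) (m + 2) ^ 1 = 0 := by
        refine LinearMap.ext fun x => ?_
        obtain ⟨y, rfl⟩ := (A.toBlk_bij hA (m + 2)).2 x
        rw [pow_one, T.toBlk, h1 (m + 2) (hm.add even_two) (by omega) y, map_zero,
          LinearMap.zero_apply]
      have hc : T.e (blk (-1)) m ^ 1 = 0 :=
        nilI_transport T (blk (-1)) (blk 0) m (m + 2) (-1) (shS_blk (-1)) (by ring)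
          nilI_win_blk nilI_blk0 1 hb
      refine ⟨n + 1, ?_⟩
      exact pow_zero_of_exact (nilI_adj.inc A m) (nilI_adj.pr A m)
        (fun v hv => nilI_adj.exact_mid A m v hv) (T.e (Set.Iio (-2)) m) (T.e (Set.Iio 0) m)
        (T.e (blk (-1)) m)
        (fun u => T.inc nilI_adj nilI_win_Iio nilI_win_blk win_Iio m u)
        (fun v => T.pr nilI_adj nilI_win_Iio nilI_win_blk win_Iio m v) n 1 ha hc
  exact main (hi - m - 1).toNat m hm hm0 (by have := Int.self_le_toNat (hi - m - 1); omega)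

end CycMod

end NC
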