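import Mathlib
import Pool.Agent.H94.NT.NEnd
import Pool.Agent.H94.NT.NilC
import Pool.Agent.H94.NT.NilI

/-!
# TrB : the trace on `HP₀` of a natural family which is of rank one on `HH_even`

Let `T : NEnd A` vanish on `HH_m`, `m ≠ 0` even, and map `HH_0` into `k e0`; let `T e = e ≠ 0` in
`HP₀`.  Then the trace of `T` on `HP₀` is one.

1. `T` is nilpotent on `H (Ici 2) 0`, which is `H (Ici 0) (-2)` by `sh` (`nil_Ici`).
2. `T` is nilpotent on `H (Iio 0) 0` (`nil_Iio`).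
3. `V = HP₀`, `adjP.pr : V → H (Ici 0) 0`, kernel = image of `H (Iio 0) 0`; `adjC` on
   `H (Ici 0) 0`: `T ^ n (pr v)` goes to zero in `H (Ici 2) 0` for `n` large, so
   `T ^ (n + 1) (pr v) ∈ k e0'`, `e0' = inc (toBlk e0)`.  `pr e ≠ 0` (otherwise `e = T ^ n e = 0`
   by 2), and `pr e = pr (T ^ (n + 1) e) ∈ k e0'`, so `k e0' = k pr e`.  Hence `T ^ (n + 1) v - c e`
   is in the kernel of `pr` and `T ^ N v = c e`.  Then `trace_one_of_pow`.
-/

set_option autoImplicit false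

noncomputable section

namespace NC

namespace CycMod

variable {k : Type} [Field k] {A : CycMod k}

private theorem trb_pow {V W : Type} [AddCommGroup V] [Module k V] [AddCommGroup W] [Module k W]
    (f : V →ₗ[k] W) (T : V →ₗ[k] V) (S : W →ₗ[k] W) (h : ∀ x, S (f x) = f (T x)) (n : ℕ) :
    ∀ x, (S ^ n) (f x) = f ((T ^ n) x) := by
  induction n with
  | zero => exact fun x => rfl
  | succ n ih =>
    intro x
    rw [pow_succ, pow_succ, Module.End.mul_apply, Module.End.mul_apply, h, ih]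

private theorem trb_fix {V : Type} [AddCommGroup V] [Module k V] (T : V →ₗ[k] V) {e : V}
    (h : T e = e) (n : ℕ) : (T ^ n) e = e := by
  induction n with
  | zero => rfl
  | succ n ih => rw [pow_succ, Module.End.mul_apply, h, ih]

private theorem trb_win : Win (blk 0) := ⟨blk_sat 0, Set.ordConnected_Ico⟩

theorem NEnd.trace_one (hA : A.Bex) (T : NEnd A) (lo : ℤ) (N : ℕ)
    (hlo : ∀ m, m < lo → ∀ x : A.HH m, x = 0) (hhi : ∀ m, lo + N ≤ m → ∀ x : A.HH m, x = 0)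
    [FiniteDimensional k (A.HP 0)]
    (h1 : ∀ m, Even m → m ≠ 0 → ∀ x : A.HH m, T.hh m x = 0) (e0 : A.HH 0)
    (h2 : ∀ x : A.HH 0, ∃ c : k, T.hh 0 x = c • e0) (e : A.HP 0) (he : e ≠ 0)
    (hTe : T.e Set.univ 0 e = e) : LinearMap.trace k _ (T.e Set.univ 0) = 1 := by
  -- nilpotence
  obtain ⟨n1, hn1⟩ := T.nil_Ici hA lo hlo (fun m hm hm0 => h1 m hm hm0.ne) (-2)
    ⟨-1, by norm_num⟩ (by norm_num)
  obtain ⟨n2, hn2⟩ := T.nil_Iio hA (lo + N) (fun m hm => hhi m hm.le)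
    (fun m hm hm0 => h1 m hm hm0.ne') 0 ⟨0, by norm_num⟩ le_rfl
  have hR : T.e (Set.Ici 2) 0 ^ n1 = 0 := by
    refine LinearMap.ext fun x => ?_
    have hsh := A.sh_bij (Set.Ici 2) (Set.Ici 0) 0 (-2) 1 shS_Ici (by norm_num)
    apply hsh.1
    rw [← trb_pow (A.sh (Set.Ici 2) (Set.Ici 0) 0 (-2) 1 shS_Ici (by norm_num))
      (T.e (Set.Ici 2) 0) (T.e (Set.Ici 0) (-2))
      (fun x => T.sh _ _ _ _ _ _ _ win_Ici2 win_Ici x), hn1, LinearMap.zero_apply,
      LinearMap.zero_apply, map_zero]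
  have hpr := trb_pow (adjP.pr A 0) (T.e Set.univ 0) (T.e (Set.Ici 0) 0)
    (fun x => T.pr adjP win_Iio win_Ici win_univ 0 x)
  have hinc := trb_pow (adjP.inc A 0) (T.e (Set.Iio 0) 0) (T.e Set.univ 0)
    (fun x => T.inc adjP win_Iio win_Ici win_univ 0 x)
  have hprC := trb_pow (adjC.pr A 0) (T.e (Set.Ici 0) 0) (T.e (Set.Ici 2) 0)
    (fun x => T.pr adjC trb_win win_Ici2 win_Ici 0 x)
  -- the kernel of `pr`
  have hker : ∀ v : A.HP 0, adjP.pr A 0 v = 0 → (T.e Set.univ 0 ^ n2) v = 0 := by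
    intro v hv
    obtain ⟨z, rfl⟩ := adjP.exact_mid A 0 v hv
    rw [hinc, hn2, LinearMap.zero_apply, map_zero]
  have hpre : adjP.pr A 0 e ≠ 0 := by
    intro h
    apply he
    have h3 := hker e h
    rwa [trb_fix _ hTe] at h3
  -- the image of a power of `T` on `H (Ici 0) 0`
  have hC : ∀ w : A.H (Set.Ici 0) 0, ∃ c : k, (T.e (Set.Ici 0) 0 ^ (n1 + 1)) w =
      c • adjC.inc A 0 (A.toBlk 0 e0) := by
    intro w
    have h3 : adjC.pr A 0 ((T.e (Set.Ici 0) 0 ^ n1) w) = 0 := by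
      rw [← hprC, hR, LinearMap.zero_apply]
    obtain ⟨y, hy⟩ := adjC.exact_mid A 0 _ h3
    obtain ⟨x, rfl⟩ := (A.toBlk_bij hA 0).2 y
    obtain ⟨c, hc⟩ := h2 x
    refine ⟨c, ?_⟩
    rw [pow_succ', Module.End.mul_apply, ← hy, T.inc adjC trb_win win_Ici2 win_Ici, T.toBlk, hc,
      map_smul, map_smul]
  obtain ⟨c1, hc1⟩ := hC (adjP.pr A 0 e)
  rw [hpr, trb_fix _ hTe] at hc1
  have hc1' : c1 ≠ 0 := by
    rintro rfl
    rw [zero_smul] at hc1
    exact hpre hc1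
  refine trace_one_of_pow (T.e Set.univ 0) e he hTe (n2 + (n1 + 1)) fun v => ?_
  obtain ⟨c, hc⟩ := hC (adjP.pr A 0 v)
  refine ⟨c * c1⁻¹, ?_⟩
  have h4 : adjP.pr A 0 ((T.e Set.univ 0 ^ (n1 + 1)) v - (c * c1⁻¹) • e) = 0 := by
    rw [map_sub, ← hpr, hc, map_smul, hc1, smul_smul, mul_assoc, inv_mul_cancel₀ hc1', mul_one,
      sub_self]
  have h5 := hker _ h4
  rw [map_sub, map_smul, trb_fix _ hTe, sub_eq_zero] at h5
  rw [pow_add, Module.End.mul_apply, h5]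

end CycMod

end NC
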