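import Mathlib
import Pool.Agent.H94.NT.AlgT
import Pool.Agent.H94.NT.HHg
import Pool.Agent.H94.NT.LefZ
import Pool.Agent.H94.NT.TrB

/-!
# MainT : the Künneth projectors of `A` are not algebraic
-/

set_option autoImplicit false

noncomputable section

namespace NC

variable {k : Type} [Field k] {A B : ZDGA k} {i h : ZHom A B}

theorem ExT.fin_HT (X : ExT A B i h) : FiniteDimensional k A.cyc.HT :=
  A.HT_fd (finH_HC_of_PF (SD.coh_finite_iff.1 X.finA) X.pf)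

/-- the trace of `T` on `HP₀` -/
theorem ExT.trace_HP (X : ExT A B i h) :
    LinearMap.trace k _ (X.T.e Set.univ 0) = 1 := by
  have := X.fin_HT
  have := HP_fd A 0
  obtain ⟨hfd, lo, N, hlo, hhi⟩ := CycMod.HH_fin (X := A.cyc) A.cyc_internal
  obtain ⟨h1, e0, h2⟩ := X.hh_even
  refine X.T.trace_one A.cyc_Bex lo N hlo hhi h1 e0 h2 X.e X.ene ?_
  apply (CycMod.win_bij' A.cyc_Bex B.cyc_Bex A.cyc_internal B.cyc_internal i.cyc X.ht_bij
    CycMod.win_univ 0).1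
  rw [ExT.T, CycMod.NEnd.zz_e _ _ _ _ _ _ _ CycMod.win_univ]
  exact X.ie.symm

/-- **the conclusion** -/
theorem ExT.main (X : ExT A B i h) :
    (∀ M : ZBim A, M.IsCorr → Function.Bijective M.iM.HPs) ∧
    (∀ (F : Type) [Field F] [Algebra F k], ¬ A.AlgSub F A.piPlus ∧ ¬ A.AlgSub F A.piMinus) ∧
    (∀ (F : Type) [Field F] [Algebra k F], ¬ A.AlgExt F A.piPlus ∧ ¬ A.AlgExt F A.piMinus) := by
  have := X.fin_HT
  have hcor : ∀ φ ∈ A.corrMaps, strP A (thp A X.T ∘ₗ φ) = 0 := by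
    rintro φ ⟨M, hM, hφ⟩
    rw [strP_thp_corr X.T M.rhoM M.iM (M.iM_HT_bij hM) φ hφ]
    exact X.trace_corr M hM _ _ (fun x => CycMod.NEnd.zz_ht _ _ _ _ _ _ _ x)
      (fun x => zz_spec _ _ _ x)
  have h1 : strP A (thp A X.T ∘ₗ A.piPlus) ≠ 0 := by
    rw [strP_thp_piPlus, X.trace_HP]
    exact one_ne_zero
  have h2 : strP A (thp A X.T ∘ₗ A.piMinus) ≠ 0 := by
    rw [strP_thp_piMinus, X.trace_HP, strP_thp_eq,
      X.trace_id X.T.ht (fun x => CycMod.NEnd.zz_ht _ _ _ _ _ _ _ x), zero_sub]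
    exact neg_ne_zero.2 one_ne_zero
  exact ⟨fun M hM => HPs_bij M.iM (M.iM_HT_bij hM),
    fun F _ _ => ⟨not_algSub_T A _ hcor F _ h1, not_algSub_T A _ hcor F _ h2⟩,
    fun F _ _ => ⟨not_algExt_T A _ hcor F _ h1, not_algExt_T A _ hcor F _ h2⟩⟩

end NC
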